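import Mathlib

/-!
# Band unfoldings of prismoids: definitions

The horizontal plane and the plane of the unfolding are both modelled by `ℂ` with its usual
Euclidean metric, and space is `EuclideanSpace ℝ (Fin 3)`.
-/

namespace Pool.Agent.Work.MP_1500ab_co

/-- Euclidean three-space. -/
abbrev Space := EuclideanSpace ℝ (Fin 3)

/-- The point of space with horizontal coordinates `z` and height `t`. -/
noncomputable def pt (z : ℂ) (t : ℝ) : Space := !₂[z.re, z.im, t]

/-- Twice the signed area of the triangle `p q z`; it is positive iff `z` lies strictly to the left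
of the directed line from `p` to `q`, negative iff it lies strictly to the right, and zero iff the
three points are collinear. -/
def side (p q z : ℂ) : ℝ :=
  (q.re - p.re) * (z.im - p.im) - (q.im - p.im) * (z.re - p.re)

/-- `v 0, …, v (n-1)` are the vertices, in counterclockwise order, of a strictly convex
`n`-gon: every vertex other than `v i` and `v (i+1)` lies strictly to the left of the directed edge
from `v i` to `v (i+1)`. -/
def IsConvexPolygon {n : ℕ} (v : ZMod n → ℂ) : Prop :=
  ∀ i k : ZMod n, k ≠ i → k ≠ i + 1 → 0 < side (v i) (v (i + 1)) (v k)

/-- A prismoid: a top convex `n`-gon `a` at height `h > 0` and a base convex `n`-gon `b` at height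
`0`, such that corresponding edges are parallel (and point in the same direction). -/
structure Prismoid (n : ℕ) where
  /-- horizontal coordinates of the top vertices -/
  a : ZMod n → ℂ
  /-- horizontal coordinates of the base vertices -/
  b : ZMod n → ℂ
  /-- the height -/
  h : ℝ
  three_le : 3 ≤ n
  h_pos : 0 < h
  convex_a : IsConvexPolygon a
  convex_b : IsConvexPolygon b
  parallel : ∀ i, ∃ c : ℝ, 0 < c ∧ b (i + 1) - b i = (c : ℂ) * (a (i + 1) - a i)

namespace Prismoid

variable {n : ℕ} (P : Prismoid n)

/-- The top vertex `a_i` in space. -/
noncomputable def A (i : ZMod n) : Space := pt (P.a i) P.h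

/-- The base vertex `b_i` in space. -/
noncomputable def B (i : ZMod n) : Space := pt (P.b i) 0

/-- The top face. -/
noncomputable def topFace : Set Space := convexHull ℝ (Set.range P.A)

/-- The base face. -/
noncomputable def baseFace : Set Space := convexHull ℝ (Set.range P.B)

/-- The lateral face `(a_i, a_{i+1}, b_{i+1}, b_i)`, a trapezoid. -/
noncomputable def lateral (i : ZMod n) : Set Space :=
  convexHull ℝ {P.A i, P.A (i + 1), P.B (i + 1), P.B i}

end Prismoid

/-- `f` maps the flat face `X` isometrically into the plane (only the values of `f` on `X`
matter). -/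
def Develops (f : Space → ℂ) (X : Set Space) : Prop :=
  ∀ x ∈ X, ∀ y ∈ X, dist (f x) (f y) = dist x y

/-- The planar images `f '' X`, `g '' Y` of two faces are glued along the image of their common
edge with endpoints `p`, `q`: both maps agree on the edge, and the images of the two faces lie on
opposite sides of the line through the image of that edge. -/
def Hinged (f g : Space → ℂ) (X Y : Set Space) (p q : Space) : Prop :=
  (∀ z ∈ segment ℝ p q, f z = g z) ∧
    ∀ x ∈ X, ∀ y ∈ Y, side (f p) (f q) (f x) * side (f p) (f q) (g y) ≤ 0

/-- `(T, S, F)` is a band unfolding of the prismoid `P` with cut side edge `(a_i, b_i)`, uncut top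
edge `(a_j, a_{j+1})` and uncut base edge `(b_k, b_{k+1})`: the maps `T`, `S`, `F m` develop the
top face, the base face and the lateral faces isometrically into the plane `ℂ`; the lateral faces
`m - 1` and `m` are glued along the side edge `(a_m, b_m)` for every `m ≠ i`; the top face is glued
to the lateral face `j` along `(a_j, a_{j+1})`; and the base face is glued to the lateral face `k`
along `(b_k, b_{k+1})`. -/
structure IsBandUnfolding {n : ℕ} (P : Prismoid n) (i j k : ZMod n)
    (T S : Space → ℂ) (F : ZMod n → Space → ℂ) : Prop where
  top : Develops T P.topFace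
  base : Develops S P.baseFace
  lateral : ∀ m, Develops (F m) (P.lateral m)
  side_edges : ∀ m, m ≠ i →
    Hinged (F (m - 1)) (F m) (P.lateral (m - 1)) (P.lateral m) (P.A m) (P.B m)
  top_edge : Hinged T (F j) P.topFace (P.lateral j) (P.A j) (P.A (j + 1))
  base_edge : Hinged S (F k) P.baseFace (P.lateral k) (P.B k) (P.B (k + 1))

end Pool.Agent.Work.MP_1500ab_co
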