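import Mathlib
import Pool.Agent.Work.MP_1500ab_co.Defs

namespace Pool.Agent.Work.MP_1500ab_co

open Complex

lemma norm_sq_sub (z w : ℂ) : ‖z - w‖ ^ 2 = (z.re - w.re) ^ 2 + (z.im - w.im) ^ 2 := by
  rw [← Complex.normSq_eq_norm_sq, Complex.normSq_apply]
  simp
  ring

lemma norm_eq_iff (a b c d : ℂ) :
    ‖a - b‖ = ‖c - d‖ ↔
      (a.re - b.re) ^ 2 + (a.im - b.im) ^ 2 = (c.re - d.re) ^ 2 + (c.im - d.im) ^ 2 := by
  rw [← norm_sq_sub, ← norm_sq_sub]
  constructor
  · intro h
    rw [h]
  · intro h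
    exact (pow_left_inj₀ (norm_nonneg _) (norm_nonneg _) two_ne_zero).mp h

/-- Isometries of the plane. -/
def IsFrame (S : ℂ → ℂ) : Prop :=
  ∃ u w : ℂ, u.re ^ 2 + u.im ^ 2 = 1 ∧
    ((∀ z, S z = w + u * z) ∨ (∀ z, S z = w + u * (starRingEnd ℂ) z))

lemma IsFrame.norm {S : ℂ → ℂ} (hS : IsFrame S) (z w : ℂ) : ‖S z - S w‖ = ‖z - w‖ := by
  obtain ⟨u, c, hu, h | h⟩ := hS
  · rw [norm_eq_iff, h, h]
    simp only [add_re, add_im, mul_re, mul_im]
    linear_combination ((z.re - w.re) ^ 2 + (z.im - w.im) ^ 2) * hu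
  · rw [norm_eq_iff, h, h]
    simp only [add_re, add_im, mul_re, mul_im, conj_re, conj_im]
    linear_combination ((z.re - w.re) ^ 2 + (z.im - w.im) ^ 2) * hu

lemma IsFrame.side {S : ℂ → ℂ} (hS : IsFrame S) :
    (∀ p q z, side (S p) (S q) (S z) = side p q z) ∨
      (∀ p q z, side (S p) (S q) (S z) = - side p q z) := by
  obtain ⟨u, c, hu, h | h⟩ := hS
  · left
    intro p q z
    rw [h, h, h]
    unfold Pool.Agent.Work.MP_1500ab_co.side
    simp only [add_re, add_im, mul_re, mul_im]
    linear_combination ((q.re - p.re) * (z.im - p.im) - (q.im - p.im) * (z.re - p.re)) * hu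
  · right
    intro p q z
    rw [h, h, h]
    unfold Pool.Agent.Work.MP_1500ab_co.side
    simp only [add_re, add_im, mul_re, mul_im, conj_re, conj_im]
    linear_combination -((q.re - p.re) * (z.im - p.im) - (q.im - p.im) * (z.re - p.re)) * hu

/-- Products of two side signs are invariant. -/
lemma IsFrame.side_mul {S : ℂ → ℂ} (hS : IsFrame S) (p q z p' q' z' : ℂ) :
    Pool.Agent.Work.MP_1500ab_co.side (S p) (S q) (S z) *
      Pool.Agent.Work.MP_1500ab_co.side (S p') (S q') (S z')
      = Pool.Agent.Work.MP_1500ab_co.side p q z * Pool.Agent.Work.MP_1500ab_co.side p' q' z' := by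
  rcases hS.side with h | h
  · rw [h, h]
  · rw [h, h]
    ring

lemma unit_ne_zero {u : ℂ} (hu : u.re ^ 2 + u.im ^ 2 = 1) : u ≠ 0 := by
  rintro rfl
  simp at hu

lemma unit_mul_conj {u : ℂ} (hu : u.re ^ 2 + u.im ^ 2 = 1) : u * (starRingEnd ℂ) u = 1 := by
  apply Complex.ext
  · simp
    linear_combination hu
  · simp
    ring

lemma IsFrame.surj {S : ℂ → ℂ} (hS : IsFrame S) (z : ℂ) : ∃ w, S w = z := by
  obtain ⟨u, c, hu, h | h⟩ := hS
  · refine ⟨(starRingEnd ℂ) u * (z - c), ?_⟩
    rw [h, ← mul_assoc, unit_mul_conj hu]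
    ring
  · refine ⟨u * (starRingEnd ℂ) (z - c), ?_⟩
    rw [h, map_mul, Complex.conj_conj, ← mul_assoc, unit_mul_conj hu]
    ring

lemma IsFrame.mul {S : ℂ → ℂ} (hS : IsFrame S) {r : ℂ} (hr : r.re ^ 2 + r.im ^ 2 = 1) :
    IsFrame (fun z => S (r * z)) := by
  obtain ⟨u, c, hu, h | h⟩ := hS
  · refine ⟨u * r, c, ?_, Or.inl fun z => ?_⟩
    · simp only [mul_re, mul_im]
      linear_combination (r.re ^ 2 + r.im ^ 2) * hu + hr
    · simp only [h]
      ring
  · refine ⟨u * (starRingEnd ℂ) r, c, ?_, Or.inr fun z => ?_⟩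
    · simp only [mul_re, mul_im, conj_re, conj_im]
      linear_combination (r.re ^ 2 + r.im ^ 2) * hu + hr
    · simp only [h, map_mul]
      ring

/-- Isometries of the plane are affine maps. -/
lemma IsFrame.affine {S : ℂ → ℂ} (hS : IsFrame S) : ∃ Sa : ℂ →ᵃ[ℝ] ℂ, ∀ z, Sa z = S z := by
  obtain ⟨u, c, hu, h | h⟩ := hS
  · refine ⟨(LinearMap.mulLeft ℝ u).toAffineMap + AffineMap.const ℝ ℂ c, fun z => ?_⟩
    rw [h]
    simp [add_comm]
  · refine ⟨(LinearMap.mulLeft ℝ u ∘ₗ (Complex.conjAe.toLinearMap)).toAffineMap +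
      AffineMap.const ℝ ℂ c, fun z => ?_⟩
    rw [h]
    simp [add_comm]

/-- A point is determined by its distances to three noncollinear points. -/
lemma three_point {P Q T z y : ℂ} (h : side P Q T ≠ 0) (h1 : ‖z - P‖ = ‖y - P‖)
    (h2 : ‖z - Q‖ = ‖y - Q‖) (h3 : ‖z - T‖ = ‖y - T‖) : z = y := by
  rw [norm_eq_iff] at h1 h2 h3
  unfold side at h
  have e1 : (z.re - y.re) * ((Q.re - P.re) * (T.im - P.im) - (Q.im - P.im) * (T.re - P.re)) = 0 := by
    linear_combination (-(T.im - P.im) / 2) * (h2 - h1) + ((Q.im - P.im) / 2) * (h3 - h1)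
  have e2 : (z.im - y.im) * ((Q.re - P.re) * (T.im - P.im) - (Q.im - P.im) * (T.re - P.re)) = 0 := by
    linear_combination ((T.re - P.re) / 2) * (h2 - h1) - ((Q.re - P.re) / 2) * (h3 - h1)
  have f1 := (mul_eq_zero.mp e1).resolve_right h
  have f2 := (mul_eq_zero.mp e2).resolve_right h
  apply Complex.ext <;> linarith

/-- A point is determined by its distances to two points and by its side. -/
lemma two_point {P Q X z y : ℂ} (h : side P Q X * side P Q y < 0) (h1 : ‖z - P‖ = ‖y - P‖)
    (h2 : ‖z - Q‖ = ‖y - Q‖) (h3 : side P Q X * side P Q z ≤ 0) : z = y := by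
  rw [norm_eq_iff] at h1 h2
  have hs : side P Q z + side P Q y ≠ 0 := by
    intro h0
    have : side P Q z = - side P Q y := by linarith
    rw [this] at h3
    nlinarith
  have e1 : (z.re - y.re) * (side P Q z + side P Q y) = 0 := by
    unfold side
    linear_combination
      (-(z.im + y.im - 2 * P.im) / 2) * (h2 - h1) - (Q.im - P.im) * h1
  have e2 : (z.im - y.im) * (side P Q z + side P Q y) = 0 := by
    unfold side
    linear_combination
      ((z.re + y.re - 2 * P.re) / 2) * (h2 - h1) + (Q.re - P.re) * h1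
  have f1 := (mul_eq_zero.mp e1).resolve_right hs
  have f2 := (mul_eq_zero.mp e2).resolve_right hs
  apply Complex.ext <;> linarith

/-- Framed version of `three_point`. -/
lemma framed_three {S : ℂ → ℂ} (hS : IsFrame S) {P Q T Y p q t y : ℂ} (hp : p = S P) (hq : q = S Q)
    (ht : t = S T) (h : side P Q T ≠ 0) (h1 : ‖y - p‖ = ‖Y - P‖)
    (h2 : ‖y - q‖ = ‖Y - Q‖) (h3 : ‖y - t‖ = ‖Y - T‖) : y = S Y := by
  obtain ⟨z, rfl⟩ := hS.surj y
  subst hp hq ht
  rw [hS.norm] at h1 h2 h3
  rw [three_point h h1 h2 h3]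

/-- Framed version of `two_point`. -/
lemma framed_two {S : ℂ → ℂ} (hS : IsFrame S) {P Q X Y p q x y : ℂ} (hp : p = S P) (hq : q = S Q)
    (hx : x = S X) (h : side P Q X * side P Q Y < 0) (h1 : ‖y - p‖ = ‖Y - P‖)
    (h2 : ‖y - q‖ = ‖Y - Q‖) (h3 : side p q x * side p q y ≤ 0) : y = S Y := by
  obtain ⟨z, rfl⟩ := hS.surj y
  subst hp hq hx
  rw [hS.norm] at h1 h2
  rw [hS.side_mul] at h3
  rw [two_point h h1 h2 h3]

lemma continuous_side (p q : ℂ) : Continuous (fun z => side p q z) := by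
  unfold side
  fun_prop

/-- Interior points of triangles, positively oriented case. -/
lemma mem_interior_tri_pos {t1 t2 t3 z : ℂ} (h1 : 0 < side t1 t2 z) (h2 : 0 < side t2 t3 z)
    (h3 : 0 < side t3 t1 z) : z ∈ interior (convexHull ℝ {t1, t2, t3}) := by
  rw [mem_interior]
  refine ⟨{w | 0 < side t1 t2 w} ∩ {w | 0 < side t2 t3 w} ∩ {w | 0 < side t3 t1 w}, ?_, ?_,
    ⟨⟨h1, h2⟩, h3⟩⟩
  · rintro w ⟨⟨g1, g2⟩, g3⟩
    have g1' : 0 < side t1 t2 w := g1
    have g2' : 0 < side t2 t3 w := g2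
    have g3' : 0 < side t3 t1 w := g3
    set D := side t1 t2 w + side t2 t3 w + side t3 t1 w with hD
    have hD0 : 0 < D := by linarith
    have hw : w = (side t2 t3 w / D) • t1 + (side t3 t1 w / D) • t2 + (side t1 t2 w / D) • t3 := by
      have e : D • w = side t2 t3 w • t1 + side t3 t1 w • t2 + side t1 t2 w • t3 := by
        rw [hD]
        unfold side
        apply Complex.ext
        · simp
          ring
        · simp
          ring
      have e2 : w = D⁻¹ • (D • w) := by
        rw [smul_smul, inv_mul_cancel₀ hD0.ne', one_smul]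
      rw [e] at e2
      calc w = D⁻¹ • (side t2 t3 w • t1 + side t3 t1 w • t2 + side t1 t2 w • t3) := e2
        _ = _ := by
          rw [smul_add, smul_add, smul_smul, smul_smul, smul_smul, ← div_eq_inv_mul,
            ← div_eq_inv_mul, ← div_eq_inv_mul]
    have hc := convex_convexHull ℝ ({t1, t2, t3} : Set ℂ)
    have m1 : t1 ∈ convexHull ℝ ({t1, t2, t3} : Set ℂ) := subset_convexHull ℝ _ (by simp)
    have m2 : t2 ∈ convexHull ℝ ({t1, t2, t3} : Set ℂ) := subset_convexHull ℝ _ (by simp)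
    have m3 : t3 ∈ convexHull ℝ ({t1, t2, t3} : Set ℂ) := subset_convexHull ℝ _ (by simp)
    have key := hc.sum_mem (t := (Finset.univ : Finset (Fin 3)))
      (w := ![side t2 t3 w / D, side t3 t1 w / D, side t1 t2 w / D]) (z := ![t1, t2, t3])
      (by
        intro i _
        fin_cases i
        · exact (div_pos g2' hD0).le
        · exact (div_pos g3' hD0).le
        · exact (div_pos g1' hD0).le)
      (by
        rw [Fin.sum_univ_three]
        simp only [Matrix.cons_val_zero, Matrix.cons_val_one, Matrix.cons_val]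
        rw [← add_div, ← add_div, div_eq_one_iff_eq hD0.ne', hD]
        ring)
      (by
        intro i _
        fin_cases i
        · exact m1
        · exact m2
        · exact m3)
    rw [Fin.sum_univ_three] at key
    rw [hw]
    exact key
  · refine IsOpen.inter (IsOpen.inter ?_ ?_) ?_
    · exact isOpen_lt continuous_const (continuous_side _ _)
    · exact isOpen_lt continuous_const (continuous_side _ _)
    · exact isOpen_lt continuous_const (continuous_side _ _)

lemma side_swap (p q z : ℂ) : side q p z = - side p q z := by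
  unfold side
  ring

/-- Framed interior points of triangles. -/
lemma framed_interior {S : ℂ → ℂ} (hS : IsFrame S) {t1 t2 t3 z : ℂ} (h1 : 0 < side t1 t2 z)
    (h2 : 0 < side t2 t3 z) (h3 : 0 < side t3 t1 z) :
    S z ∈ interior (convexHull ℝ {S t1, S t2, S t3}) := by
  rcases hS.side with h | h
  · exact mem_interior_tri_pos (by rw [h]; exact h1) (by rw [h]; exact h2) (by rw [h]; exact h3)
  · have e : ({S t1, S t2, S t3} : Set ℂ) = {S t1, S t3, S t2} := by
      rw [Set.pair_comm]
    rw [e]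
    apply mem_interior_tri_pos
    · rw [side_swap, h]
      linarith
    · rw [side_swap, h]
      linarith
    · rw [side_swap, h]
      linarith

end Pool.Agent.Work.MP_1500ab_co
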