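import Mathlib
import Pool.Agent.Work.MP_1500ab_co.Plane

/-!
General nested prismoids: charts of the lateral faces, glued to the top.
-/

namespace Pool.Agent.Work.MP_1500ab_co.Gen

/-- scalar product -/
def dt (z w : ℂ) : ℝ := z.re * w.re + z.im * w.im

variable {n : ℕ}

/-- length of the edge `m` -/
noncomputable def len (a : ZMod n → ℂ) (m : ZMod n) : ℝ :=
  Real.sqrt (((a (m + 1)).re - (a m).re) ^ 2 + ((a (m + 1)).im - (a m).im) ^ 2)

/-- unit tangent of the edge `m` -/
noncomputable def tng (a : ZMod n → ℂ) (m : ZMod n) : ℂ :=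
  ⟨((a (m + 1)).re - (a m).re) / len a m, ((a (m + 1)).im - (a m).im) / len a m⟩

/-- outward unit normal of the edge `m` -/
noncomputable def nrm (a : ZMod n → ℂ) (m : ZMod n) : ℂ := ⟨(tng a m).im, -(tng a m).re⟩

/-- horizontal distance of the corresponding edges of `a` and `b` -/
noncomputable def dd (a b : ZMod n → ℂ) (m : ZMod n) : ℝ := dt (nrm a m) (b m - a m)

/-- slant distance of the corresponding edges -/
noncomputable def sl (a b : ZMod n → ℂ) (h : ℝ) (m : ZMod n) : ℝ :=
  Real.sqrt (dd a b m ^ 2 + h ^ 2)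

/-- the difference of slant distance and horizontal distance -/
noncomputable def sg (a b : ZMod n → ℂ) (h : ℝ) (m : ZMod n) : ℝ := sl a b h m - dd a b m

/-- The hypotheses on the two polygons. -/
structure Good (a b : ZMod n → ℂ) : Prop where
  three_le : 3 ≤ n
  ca : IsConvexPolygon a
  cb : IsConvexPolygon b
  par : ∀ i, ∃ c : ℝ, 0 < c ∧ b (i + 1) - b i = (c : ℂ) * (a (i + 1) - a i)
  nest : ∀ i k, 0 < side (b i) (b (i + 1)) (a k)

lemma one_ne (hn : 3 ≤ n) : (1 : ZMod n) ≠ 0 := by
  intro h
  have h1 : ((1 : ℕ) : ZMod n) = 0 := by simpa using h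
  rw [ZMod.natCast_eq_zero_iff] at h1
  have := Nat.le_of_dvd one_pos h1
  omega

lemma two_ne (hn : 3 ≤ n) : (2 : ZMod n) ≠ 0 := by
  intro h
  have h1 : ((2 : ℕ) : ZMod n) = 0 := by simpa using h
  rw [ZMod.natCast_eq_zero_iff] at h1
  have := Nat.le_of_dvd two_pos h1
  omega

lemma ne_succ (hn : 3 ≤ n) (m : ZMod n) : m + 1 ≠ m := by
  intro h
  exact one_ne hn (by simpa using h)

lemma ne_succ2 (hn : 3 ≤ n) (m : ZMod n) : m + 1 + 1 ≠ m := by
  intro h
  apply two_ne hn
  have : m + (1 + 1) = m := by rw [← add_assoc]; exact h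
  have h2 : (1 + 1 : ZMod n) = 0 := by simpa using this
  rw [← h2]
  norm_num

section polygon

variable {a : ZMod n → ℂ} (hn : 3 ≤ n) (ha : IsConvexPolygon a)

include hn ha

lemma len_pos (m : ZMod n) : 0 < len a m := by
  unfold len
  apply Real.sqrt_pos.mpr
  have h := ha m (m + 1 + 1) (ne_succ2 hn m) (ne_succ hn (m + 1))
  unfold side at h
  by_contra hcon
  have q1 := sq_nonneg ((a (m + 1)).re - (a m).re)
  have q2 := sq_nonneg ((a (m + 1)).im - (a m).im)
  have e1 : (a (m + 1)).re - (a m).re = 0 := by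
    apply pow_eq_zero_iff two_ne_zero |>.mp
    linarith
  have e2 : (a (m + 1)).im - (a m).im = 0 := by
    apply pow_eq_zero_iff two_ne_zero |>.mp
    linarith
  rw [e1, e2] at h
  simp at h

lemma tng_unit (m : ZMod n) : (tng a m).re ^ 2 + (tng a m).im ^ 2 = 1 := by
  have h := len_pos hn ha m
  have h2 : len a m ^ 2 = ((a (m + 1)).re - (a m).re) ^ 2 + ((a (m + 1)).im - (a m).im) ^ 2 := by
    unfold len
    exact Real.sq_sqrt (by positivity)
  unfold tng
  simp only
  rw [div_pow, div_pow, ← add_div, ← h2]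
  field_simp

lemma nrm_unit (m : ZMod n) : (nrm a m).re ^ 2 + (nrm a m).im ^ 2 = 1 := by
  have h := tng_unit hn ha m
  unfold nrm
  simp only
  linarith

lemma a_succ (m : ZMod n) : (a (m + 1)).re = (a m).re + len a m * (tng a m).re ∧
    (a (m + 1)).im = (a m).im + len a m * (tng a m).im := by
  have h := len_pos hn ha m
  unfold tng
  simp only
  constructor
  · field_simp
    ring
  · field_simp
    ring

/-- sides of the edge lines in terms of the normals -/
lemma side_edge (m : ZMod n) (z : ℂ) :
    side (a m) (a (m + 1)) z = - (len a m * dt (nrm a m) (z - a m)) := by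
  obtain ⟨h1, h2⟩ := a_succ hn ha m
  unfold side dt nrm
  rw [h1, h2]
  simp only [Complex.sub_re, Complex.sub_im]
  ring

lemma inner_lt (m k : ZMod n) (h1 : k ≠ m) (h2 : k ≠ m + 1) : dt (nrm a m) (a k - a m) < 0 := by
  have h := ha m k h1 h2
  rw [side_edge hn ha] at h
  have := len_pos hn ha m
  nlinarith

lemma inner_succ (m : ZMod n) : dt (nrm a m) (a (m + 1) - a m) = 0 := by
  obtain ⟨h1, h2⟩ := a_succ hn ha m
  unfold dt nrm
  simp only [Complex.sub_re, Complex.sub_im]
  rw [h1, h2]
  ring

lemma inner_le (m k : ZMod n) : dt (nrm a m) (a k - a m) ≤ 0 := by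
  by_cases h1 : k = m
  · rw [h1]
    simp [dt]
  by_cases h2 : k = m + 1
  · rw [h2, inner_succ hn ha]
  exact (inner_lt hn ha m k h1 h2).le

/-- consecutive normals turn to the left -/
lemma cross_pos (m : ZMod n) :
    0 < (nrm a m).re * (nrm a (m + 1)).im - (nrm a m).im * (nrm a (m + 1)).re := by
  have h := ha m (m + 1 + 1) (ne_succ2 hn m) (ne_succ hn (m + 1))
  obtain ⟨h1, h2⟩ := a_succ hn ha m
  obtain ⟨h3, h4⟩ := a_succ hn ha (m + 1)
  have l1 := len_pos hn ha m
  have l2 := len_pos hn ha (m + 1)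
  unfold side at h
  rw [h3, h4, h1, h2] at h
  have h5 : 0 < len a m * len a (m + 1) *
      ((tng a m).re * (tng a (m + 1)).im - (tng a m).im * (tng a (m + 1)).re) := by
    calc 0 < _ := h
      _ = _ := by ring
  have h6 : 0 < len a m * len a (m + 1) := by positivity
  have h7 := (pos_iff_pos_of_mul_pos h5).mp h6
  unfold nrm
  simp only
  linarith

end polygon

section good

variable {a b : ZMod n → ℂ} (hg : Good a b)

include hg

lemma b_succ (m : ZMod n) : ∃ L : ℝ, 0 < L ∧ (b (m + 1)).re = (b m).re + L * (tng a m).re ∧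
    (b (m + 1)).im = (b m).im + L * (tng a m).im := by
  obtain ⟨c, hc, h⟩ := hg.par m
  have hl := len_pos hg.three_le hg.ca m
  obtain ⟨h1, h2⟩ := a_succ hg.three_le hg.ca m
  refine ⟨c * len a m, by positivity, ?_, ?_⟩
  · have := congrArg Complex.re h
    simp only [Complex.sub_re, Complex.mul_re, Complex.ofReal_re, Complex.ofReal_im,
      Complex.sub_im, h1, h2] at this
    linarith
  · have := congrArg Complex.im h
    simp only [Complex.sub_re, Complex.mul_im, Complex.ofReal_re, Complex.ofReal_im,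
      Complex.sub_im, h1, h2] at this
    linarith

lemma dd_pos (m : ZMod n) : 0 < dd a b m := by
  obtain ⟨L, hL, h1, h2⟩ := b_succ hg m
  have h := hg.nest m m
  unfold side at h
  rw [h1, h2] at h
  unfold dd dt nrm
  simp only [Complex.sub_re, Complex.sub_im]
  have h3 : 0 < L * ((tng a m).im * ((b m).re - (a m).re) + -(tng a m).re *
      ((b m).im - (a m).im)) := by
    calc 0 < _ := h
      _ = _ := by ring
  exact (pos_iff_pos_of_mul_pos h3).mp hL

lemma dd_succ (m : ZMod n) : dt (nrm a m) (b (m + 1) - a (m + 1)) = dd a b m := by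
  obtain ⟨L, hL, h1, h2⟩ := b_succ hg m
  obtain ⟨h3, h4⟩ := a_succ hg.three_le hg.ca m
  unfold dd dt nrm
  simp only [Complex.sub_re, Complex.sub_im]
  rw [h1, h2, h3, h4]
  ring

/-- the base vertices are on the inner side of the base edges -/
lemma base_le (m k : ZMod n) : dt (nrm a m) (b k - a m) ≤ dd a b m := by
  obtain ⟨L, hL, h1, h2⟩ := b_succ hg m
  have key : dt (nrm a m) (b k - b m) ≤ 0 := by
    have hk : 0 ≤ side (b m) (b (m + 1)) (b k) := by
      by_cases g1 : k = m
      · rw [g1]
        unfold side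
        simp
      by_cases g2 : k = m + 1
      · rw [g2]
        unfold side
        apply le_of_eq
        ring
      exact (hg.cb m k g1 g2).le
    unfold side at hk
    rw [h1, h2] at hk
    unfold dt nrm
    simp only [Complex.sub_re, Complex.sub_im]
    by_contra hcon
    push Not at hcon
    have : 0 < L * ((tng a m).im * ((b k).re - (b m).re) + -(tng a m).re *
      ((b k).im - (b m).im)) := mul_pos hL hcon
    nlinarith
  have : dt (nrm a m) (b k - a m) = dt (nrm a m) (b k - b m) + dd a b m := by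
    unfold dd dt
    simp only [Complex.sub_re, Complex.sub_im]
    ring
  linarith

variable {h : ℝ}

omit hg in
lemma sl_sq (m : ZMod n) : sl a b h m ^ 2 = dd a b m ^ 2 + h ^ 2 := by
  unfold sl
  exact Real.sq_sqrt (by positivity)

lemma sl_pos (m : ZMod n) : 0 < sl a b h m := by
  have := dd_pos hg m
  unfold sl
  apply Real.sqrt_pos.mpr
  positivity

lemma dd_le_sl (m : ZMod n) : dd a b m ≤ sl a b h m := by
  have := dd_pos hg m
  unfold sl
  apply Real.le_sqrt_of_sq_le
  nlinarith [sq_nonneg h]

lemma sg_nonneg (m : ZMod n) : 0 ≤ sg a b h m := by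
  have := dd_le_sl hg (h := h) m
  unfold sg
  linarith

end good

/-- position of the base vertex `m` in the chart of the face `m` -/
noncomputable def gb (a b : ZMod n → ℂ) (h : ℝ) (m : ZMod n) : ℂ :=
  b m + (sg a b h m : ℂ) * nrm a m

/-- position of the base vertex `m + 1` in the chart of the face `m` -/
noncomputable def gb' (a b : ZMod n → ℂ) (h : ℝ) (m : ZMod n) : ℂ :=
  b (m + 1) + (sg a b h m : ℂ) * nrm a m

/-- The rotation at the vertex `m + 1` between the faces `m` and `m + 1`. -/
noncomputable def rh (a b : ZMod n → ℂ) (h : ℝ) (m : ZMod n) : ℂ :=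
  (gb' a b h m - a (m + 1)) / (gb a b h (m + 1) - a (m + 1))

section rot

variable {a b : ZMod n → ℂ} (hg : Good a b) {h : ℝ}

include hg

lemma gb_normSq (m : ZMod n) : Complex.normSq (gb a b h m - a m) =
    Complex.normSq (b m - a m) + h ^ 2 := by
  have h1 := nrm_unit hg.three_le hg.ca m
  have h2 := sl_sq (a := a) (b := b) (h := h) m
  have h3 : dt (nrm a m) (b m - a m) = dd a b m := rfl
  unfold dt at h3
  simp only [Complex.sub_re, Complex.sub_im] at h3
  rw [Complex.normSq_apply, Complex.normSq_apply]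
  unfold gb
  have h4 : sg a b h m = sl a b h m - dd a b m := rfl
  simp only [Complex.sub_re, Complex.sub_im, Complex.add_re, Complex.add_im, Complex.mul_re,
    Complex.mul_im, Complex.ofReal_re, Complex.ofReal_im]
  linear_combination (sg a b h m) ^ 2 * h1 + 2 * sg a b h m * h3 + h2 +
    (sg a b h m + dd a b m + sl a b h m) * h4

lemma gb'_normSq (m : ZMod n) : Complex.normSq (gb' a b h m - a (m + 1)) =
    Complex.normSq (b (m + 1) - a (m + 1)) + h ^ 2 := by
  have h1 := nrm_unit hg.three_le hg.ca m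
  have h2 := sl_sq (a := a) (b := b) (h := h) m
  have h3 : dt (nrm a m) (b (m + 1) - a (m + 1)) = dd a b m := dd_succ hg m
  unfold dt at h3
  simp only [Complex.sub_re, Complex.sub_im] at h3
  rw [Complex.normSq_apply, Complex.normSq_apply]
  unfold gb'
  have h4 : sg a b h m = sl a b h m - dd a b m := rfl
  simp only [Complex.sub_re, Complex.sub_im, Complex.add_re, Complex.add_im, Complex.mul_re,
    Complex.mul_im, Complex.ofReal_re, Complex.ofReal_im]
  linear_combination (sg a b h m) ^ 2 * h1 + 2 * sg a b h m * h3 + h2 +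
    (sg a b h m + dd a b m + sl a b h m) * h4

lemma b_ne_a (m : ZMod n) : 0 < Complex.normSq (b m - a m) := by
  rw [Complex.normSq_pos]
  intro h0
  have := dd_pos hg m
  unfold dd at this
  rw [h0] at this
  simp [dt] at this

lemma gb_ne (m : ZMod n) : gb a b h m - a m ≠ 0 := by
  rw [← Complex.normSq_pos, gb_normSq hg]
  have := b_ne_a hg m
  positivity

lemma gb'_ne (m : ZMod n) : gb' a b h m - a (m + 1) ≠ 0 := by
  rw [← Complex.normSq_pos, gb'_normSq hg]
  have := b_ne_a hg (m + 1)
  positivity

lemma rh_unit (m : ZMod n) : (rh a b h m).re ^ 2 + (rh a b h m).im ^ 2 = 1 := by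
  have h1 : Complex.normSq (rh a b h m) = 1 := by
    unfold rh
    rw [Complex.normSq_div, gb_normSq hg, gb'_normSq hg]
    have := b_ne_a hg (m + 1)
    apply div_self
    positivity
  rw [Complex.normSq_apply] at h1
  linarith

lemma rh_mul (m : ZMod n) : rh a b h m * (gb a b h (m + 1) - a (m + 1)) =
    gb' a b h m - a (m + 1) := by
  unfold rh
  exact div_mul_cancel₀ _ (gb_ne hg _)

end rot

end Pool.Agent.Work.MP_1500ab_co.Gen
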