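import Mathlib
import Pool.Agent.Work.MP_1500ab_co.G1

/-!
Charts of the faces of a nested prismoid, and frames of band unfoldings.
-/

namespace Pool.Agent.Work.MP_1500ab_co.Gen

open Complex

variable {n : ℕ}

/-- The affine map of space to the plane with given real coefficients. -/
noncomputable def mkA (p0 p1 p2 pc q0 q1 q2 qc : ℝ) : Space →ᵃ[ℝ] ℂ where
  toFun x := ⟨p0 * x 0 + p1 * x 1 + p2 * x 2 + pc, q0 * x 0 + q1 * x 1 + q2 * x 2 + qc⟩
  linear :=
    { toFun := fun x => ⟨p0 * x 0 + p1 * x 1 + p2 * x 2, q0 * x 0 + q1 * x 1 + q2 * x 2⟩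
      map_add' := by
        intro x y
        apply Complex.ext <;> simp <;> ring
      map_smul' := by
        intro c x
        apply Complex.ext <;> simp <;> ring }
  map_vadd' := by
    intro x v
    apply Complex.ext <;> simp <;> ring

lemma mkA_re (p0 p1 p2 pc q0 q1 q2 qc : ℝ) (x : Space) :
    (mkA p0 p1 p2 pc q0 q1 q2 qc x).re = p0 * x 0 + p1 * x 1 + p2 * x 2 + pc := rfl

lemma mkA_im (p0 p1 p2 pc q0 q1 q2 qc : ℝ) (x : Space) :
    (mkA p0 p1 p2 pc q0 q1 q2 qc x).im = q0 * x 0 + q1 * x 1 + q2 * x 2 + qc := rfl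

/-- The projection of the top lies in the interior of the base. -/
def Nest (P : Prismoid n) : Prop := ∀ i k, 0 < side (P.b i) (P.b (i + 1)) (P.a k)

lemma Nest.good {P : Prismoid n} (hP : Nest P) : Good P.a P.b :=
  ⟨P.three_le, P.convex_a, P.convex_b, P.parallel, hP⟩

/-- stretching factor of the chart minus one -/
noncomputable def kap (P : Prismoid n) (m : ZMod n) : ℝ := sg P.a P.b P.h m / dd P.a P.b m

/-- chart of the lateral face `m`, glued to the top -/
noncomputable def chG (P : Prismoid n) (m : ZMod n) : Space →ᵃ[ℝ] ℂ :=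
  mkA (1 + kap P m * (nrm P.a m).re ^ 2) (kap P m * (nrm P.a m).im * (nrm P.a m).re) 0
    (-(kap P m * ((nrm P.a m).re * (P.a m).re + (nrm P.a m).im * (P.a m).im) * (nrm P.a m).re))
    (kap P m * (nrm P.a m).im * (nrm P.a m).re) (1 + kap P m * (nrm P.a m).im ^ 2) 0
    (-(kap P m * ((nrm P.a m).re * (P.a m).re + (nrm P.a m).im * (P.a m).im) * (nrm P.a m).im))

lemma chG_re (P : Prismoid n) (m : ZMod n) (x : Space) : (chG P m x).re =
    x 0 + kap P m * ((nrm P.a m).re * (x 0 - (P.a m).re) + (nrm P.a m).im * (x 1 - (P.a m).im)) *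
      (nrm P.a m).re := by
  rw [chG, mkA_re]
  ring

lemma chG_im (P : Prismoid n) (m : ZMod n) (x : Space) : (chG P m x).im =
    x 1 + kap P m * ((nrm P.a m).re * (x 0 - (P.a m).re) + (nrm P.a m).im * (x 1 - (P.a m).im)) *
      (nrm P.a m).im := by
  rw [chG, mkA_im]
  ring

/-- chart of the top -/
noncomputable def chT : Space →ᵃ[ℝ] ℂ := mkA 1 0 0 0 0 1 0 0

lemma chT_re (x : Space) : (chT x).re = x 0 := by
  rw [chT, mkA_re]
  ring

lemma chT_im (x : Space) : (chT x).im = x 1 := by
  rw [chT, mkA_im]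
  ring

/-- chart of the base, glued to the lateral face `m` -/
noncomputable def chB (P : Prismoid n) (m : ZMod n) : Space →ᵃ[ℝ] ℂ :=
  mkA (1 - 2 * (nrm P.a m).re ^ 2) (-(2 * (nrm P.a m).im * (nrm P.a m).re)) 0
    ((sl P.a P.b P.h m + dd P.a P.b m +
      2 * ((nrm P.a m).re * (P.a m).re + (nrm P.a m).im * (P.a m).im)) * (nrm P.a m).re)
    (-(2 * (nrm P.a m).im * (nrm P.a m).re)) (1 - 2 * (nrm P.a m).im ^ 2) 0
    ((sl P.a P.b P.h m + dd P.a P.b m +
      2 * ((nrm P.a m).re * (P.a m).re + (nrm P.a m).im * (P.a m).im)) * (nrm P.a m).im)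

lemma chB_re (P : Prismoid n) (m : ZMod n) (x : Space) : (chB P m x).re =
    x 0 + (sl P.a P.b P.h m + dd P.a P.b m -
      2 * ((nrm P.a m).re * (x 0 - (P.a m).re) + (nrm P.a m).im * (x 1 - (P.a m).im))) *
      (nrm P.a m).re := by
  rw [chB, mkA_re]
  ring

lemma chB_im (P : Prismoid n) (m : ZMod n) (x : Space) : (chB P m x).im =
    x 1 + (sl P.a P.b P.h m + dd P.a P.b m -
      2 * ((nrm P.a m).re * (x 0 - (P.a m).re) + (nrm P.a m).im * (x 1 - (P.a m).im))) *
      (nrm P.a m).im := by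
  rw [chB, mkA_im]
  ring

lemma A_0 (P : Prismoid n) (m : ZMod n) : (P.A m) 0 = (P.a m).re := rfl
lemma A_1 (P : Prismoid n) (m : ZMod n) : (P.A m) 1 = (P.a m).im := rfl
lemma A_2 (P : Prismoid n) (m : ZMod n) : (P.A m) 2 = P.h := rfl
lemma B_0 (P : Prismoid n) (m : ZMod n) : (P.B m) 0 = (P.b m).re := rfl
lemma B_1 (P : Prismoid n) (m : ZMod n) : (P.B m) 1 = (P.b m).im := rfl
lemma B_2 (P : Prismoid n) (m : ZMod n) : (P.B m) 2 = 0 := rfl

lemma chT_A (P : Prismoid n) (m : ZMod n) : chT (P.A m) = P.a m := by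
  apply Complex.ext
  · rw [chT_re, A_0]
  · rw [chT_im, A_1]

section values

variable {P : Prismoid n} (hP : Nest P)

lemma chG_A (P : Prismoid n) (m : ZMod n) : chG P m (P.A m) = P.a m := by
  apply Complex.ext
  · rw [chG_re, A_0, A_1]
    ring
  · rw [chG_im, A_0, A_1]
    ring

include hP

lemma kap_mul (m : ZMod n) : kap P m * dd P.a P.b m = sg P.a P.b P.h m := by
  have := dd_pos hP.good m
  unfold kap
  field_simp

lemma chG_A' (m : ZMod n) : chG P m (P.A (m + 1)) = P.a (m + 1) := by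
  have h := inner_succ hP.good.three_le hP.good.ca m
  unfold dt at h
  simp only [Complex.sub_re, Complex.sub_im] at h
  apply Complex.ext
  · rw [chG_re, A_0, A_1, h]
    ring
  · rw [chG_im, A_0, A_1, h]
    ring

lemma chG_B (m : ZMod n) : chG P m (P.B m) = gb P.a P.b P.h m := by
  have h : dt (nrm P.a m) (P.b m - P.a m) = dd P.a P.b m := rfl
  have h2 := kap_mul hP m
  unfold dt at h
  simp only [Complex.sub_re, Complex.sub_im] at h
  unfold gb
  apply Complex.ext
  · rw [chG_re, B_0, B_1, h, h2]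
    simp
  · rw [chG_im, B_0, B_1, h, h2]
    simp

lemma dd_succ' (m : ZMod n) : dt (nrm P.a m) (P.b (m + 1) - P.a m) = dd P.a P.b m := by
  have h := dd_succ hP.good m
  have h3 := inner_succ hP.good.three_le hP.good.ca m
  unfold dt at h h3 ⊢
  simp only [Complex.sub_re, Complex.sub_im] at h h3 ⊢
  linarith

lemma chG_B' (m : ZMod n) : chG P m (P.B (m + 1)) = gb' P.a P.b P.h m := by
  have h := dd_succ' hP m
  have h2 := kap_mul hP m
  unfold dt at h
  simp only [Complex.sub_re, Complex.sub_im] at h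
  unfold gb'
  apply Complex.ext
  · rw [chG_re, B_0, B_1, h, h2]
    simp
  · rw [chG_im, B_0, B_1, h, h2]
    simp

omit hP in
lemma chB_B (m : ZMod n) : chB P m (P.B m) = gb P.a P.b P.h m := by
  have h : dt (nrm P.a m) (P.b m - P.a m) = dd P.a P.b m := rfl
  unfold dt at h
  simp only [Complex.sub_re, Complex.sub_im] at h
  unfold gb sg
  apply Complex.ext
  · rw [chB_re, B_0, B_1, h]
    simp only [Complex.add_re, Complex.mul_re, Complex.ofReal_re, Complex.ofReal_im]
    ring
  · rw [chB_im, B_0, B_1, h]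
    simp only [Complex.add_im, Complex.mul_im, Complex.ofReal_re, Complex.ofReal_im]
    ring

lemma chB_B' (m : ZMod n) : chB P m (P.B (m + 1)) = gb' P.a P.b P.h m := by
  have h := dd_succ' hP m
  unfold dt at h
  simp only [Complex.sub_re, Complex.sub_im] at h
  unfold gb' sg
  apply Complex.ext
  · rw [chB_re, B_0, B_1, h]
    simp only [Complex.add_re, Complex.mul_re, Complex.ofReal_re, Complex.ofReal_im]
    ring
  · rw [chB_im, B_0, B_1, h]
    simp only [Complex.add_im, Complex.mul_im, Complex.ofReal_re, Complex.ofReal_im]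
    ring

lemma dt_gb (m : ZMod n) :
    dt (nrm P.a m) (gb P.a P.b P.h m - P.a m) = sl P.a P.b P.h m := by
  have h : dt (nrm P.a m) (P.b m - P.a m) = dd P.a P.b m := rfl
  have h1 := nrm_unit hP.good.three_le hP.good.ca m
  unfold dt at h ⊢
  unfold gb sg
  simp only [Complex.sub_re, Complex.sub_im, Complex.add_re, Complex.add_im, Complex.mul_re,
    Complex.mul_im, Complex.ofReal_re, Complex.ofReal_im] at h ⊢
  linear_combination h + (sl P.a P.b P.h m - dd P.a P.b m) * h1

lemma dt_gb' (m : ZMod n) :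
    dt (nrm P.a m) (gb' P.a P.b P.h m - P.a m) = sl P.a P.b P.h m := by
  have h := dd_succ' hP m
  have h1 := nrm_unit hP.good.three_le hP.good.ca m
  unfold dt at h ⊢
  unfold gb' sg
  simp only [Complex.sub_re, Complex.sub_im, Complex.add_re, Complex.add_im, Complex.mul_re,
    Complex.mul_im, Complex.ofReal_re, Complex.ofReal_im] at h ⊢
  linear_combination h + (sl P.a P.b P.h m - dd P.a P.b m) * h1

omit hP in
lemma develops_of {f : Space → ℂ} {X : Set Space}
    (h : ∀ x ∈ X, ∀ y ∈ X, ((f x).re - (f y).re) ^ 2 + ((f x).im - (f y).im) ^ 2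
      = (x 0 - y 0) ^ 2 + (x 1 - y 1) ^ 2 + (x 2 - y 2) ^ 2) : Develops f X := by
  intro x hx y hy
  rw [Complex.dist_eq_re_im, EuclideanSpace.dist_eq, h x hx y hy]
  congr 1
  rw [Fin.sum_univ_three]
  simp only [Real.dist_eq, sq_abs]

omit hP in
lemma convex_plane (c0 c1 c2 d : ℝ) :
    Convex ℝ {x : Space | c0 * x 0 + c1 * x 1 + c2 * x 2 = d} := by
  intro x hx y hy a b _ _ hab
  simp only [Set.mem_ofPred_eq] at hx hy ⊢
  simp only [PiLp.add_apply, PiLp.smul_apply, smul_eq_mul]
  have : c0 * (a * x 0 + b * y 0) + c1 * (a * x 1 + b * y 1) + c2 * (a * x 2 + b * y 2)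
      = a * (c0 * x 0 + c1 * x 1 + c2 * x 2) + b * (c0 * y 0 + c1 * y 1 + c2 * y 2) := by ring
  rw [this, hx, hy, ← add_mul, hab, one_mul]

lemma lateral_plane (m : ZMod n) : ∀ x ∈ P.lateral m,
    (P.h * (nrm P.a m).re) * x 0 + (P.h * (nrm P.a m).im) * x 1 + dd P.a P.b m * x 2 =
      P.h * ((nrm P.a m).re * (P.a m).re + (nrm P.a m).im * (P.a m).im) +
        dd P.a P.b m * P.h := by
  have hsub : P.lateral m ⊆ {x : Space | (P.h * (nrm P.a m).re) * x 0 +
      (P.h * (nrm P.a m).im) * x 1 + dd P.a P.b m * x 2 =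
      P.h * ((nrm P.a m).re * (P.a m).re + (nrm P.a m).im * (P.a m).im) +
        dd P.a P.b m * P.h} := by
    apply convexHull_min _ (convex_plane _ _ _ _)
    intro x hx
    simp only [Set.mem_insert_iff, Set.mem_singleton_iff] at hx
    simp only [Set.mem_ofPred_eq]
    have g1 := inner_succ hP.good.three_le hP.good.ca m
    have g2 : dt (nrm P.a m) (P.b m - P.a m) = dd P.a P.b m := rfl
    have g3 := dd_succ' hP m
    unfold dt at g1 g2 g3
    simp only [Complex.sub_re, Complex.sub_im] at g1 g2 g3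
    rcases hx with rfl | rfl | rfl | rfl
    · rw [A_0, A_1, A_2]
      ring
    · rw [A_0, A_1, A_2]
      linear_combination P.h * g1
    · rw [B_0, B_1, B_2]
      linear_combination P.h * g3
    · rw [B_0, B_1, B_2]
      linear_combination P.h * g2
  exact hsub

omit hP in
lemma top_plane (P : Prismoid n) : ∀ x ∈ P.topFace, x 2 = P.h := by
  have hsub : P.topFace ⊆ {x : Space | 0 * x 0 + 0 * x 1 + 1 * x 2 = P.h} := by
    apply convexHull_min _ (convex_plane _ _ _ _)
    rintro x ⟨k, rfl⟩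
    simp only [Set.mem_ofPred_eq]
    rw [A_2]
    ring
  intro x hx
  have := hsub hx
  simp only [Set.mem_ofPred_eq] at this
  linarith

omit hP in
lemma base_plane (P : Prismoid n) : ∀ x ∈ P.baseFace, x 2 = 0 := by
  have hsub : P.baseFace ⊆ {x : Space | 0 * x 0 + 0 * x 1 + 1 * x 2 = 0} := by
    apply convexHull_min _ (convex_plane _ _ _ _)
    rintro x ⟨k, rfl⟩
    simp only [Set.mem_ofPred_eq]
    rw [B_2]
    ring
  intro x hx
  have := hsub hx
  simp only [Set.mem_ofPred_eq] at this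
  linarith

lemma develops_chG (m : ZMod n) : Develops (chG P m) (P.lateral m) := by
  apply develops_of
  intro x hx y hy
  have h1 := lateral_plane hP m x hx
  have h2 := lateral_plane hP m y hy
  have h3 := nrm_unit hP.good.three_le hP.good.ca m
  have h4 := dd_pos hP.good m
  have h5 := sl_sq (a := P.a) (b := P.b) (h := P.h) m
  have h6 := kap_mul hP m
  rw [chG_re, chG_re, chG_im, chG_im]
  set κ := kap P m with hκ
  set d := dd P.a P.b m with hd
  set u := (nrm P.a m).re with hu
  set v := (nrm P.a m).im with hv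
  have h7 : sg P.a P.b P.h m = sl P.a P.b P.h m - d := rfl
  -- the difference of heights
  have e2 : d * (x 2 - y 2) = -(P.h * (u * (x 0 - y 0) + v * (x 1 - y 1))) := by
    linear_combination h1 - h2
  have e3 : (κ ^ 2 + 2 * κ) * d ^ 2 = P.h ^ 2 := by
    have : (κ ^ 2 + 2 * κ) * d ^ 2 = (κ * d) ^ 2 + 2 * (κ * d) * d := by ring
    rw [this, h6, h7]
    linear_combination h5
  have e4 : d ^ 2 * ((x 2 - y 2) ^ 2) = d ^ 2 * ((κ ^ 2 + 2 * κ) *
      (u * (x 0 - y 0) + v * (x 1 - y 1)) ^ 2) := by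
    linear_combination (d * (x 2 - y 2) - P.h * (u * (x 0 - y 0) + v * (x 1 - y 1))) * e2 -
      (u * (x 0 - y 0) + v * (x 1 - y 1)) ^ 2 * e3
  have e5 : (x 2 - y 2) ^ 2 = (κ ^ 2 + 2 * κ) * (u * (x 0 - y 0) + v * (x 1 - y 1)) ^ 2 := by
    have : d ^ 2 ≠ 0 := by positivity
    exact mul_left_cancel₀ this e4
  rw [e5]
  linear_combination κ ^ 2 * (u * (x 0 - y 0) + v * (x 1 - y 1)) ^ 2 * h3

omit hP in
lemma develops_chT (P : Prismoid n) : Develops chT P.topFace := by
  apply develops_of
  intro x hx y hy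
  have h1 := top_plane P x hx
  have h2 := top_plane P y hy
  rw [chT_re, chT_re, chT_im, chT_im, h1, h2]
  ring

lemma develops_chB (m : ZMod n) : Develops (chB P m) P.baseFace := by
  apply develops_of
  intro x hx y hy
  have h1 := base_plane P x hx
  have h2 := base_plane P y hy
  have h3 := nrm_unit hP.good.three_le hP.good.ca m
  rw [chB_re, chB_re, chB_im, chB_im, h1, h2]
  linear_combination (4 * ((nrm P.a m).re * (x 0 - y 0) + (nrm P.a m).im * (x 1 - y 1)) ^ 2) * h3

end values

lemma A_mem (P : Prismoid n) (m : ZMod n) : P.A m ∈ P.lateral m :=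
  subset_convexHull ℝ _ (by simp)

lemma A'_mem (P : Prismoid n) (m : ZMod n) : P.A (m + 1) ∈ P.lateral m :=
  subset_convexHull ℝ _ (by simp)

lemma B_mem (P : Prismoid n) (m : ZMod n) : P.B m ∈ P.lateral m :=
  subset_convexHull ℝ _ (by simp)

lemma B'_mem (P : Prismoid n) (m : ZMod n) : P.B (m + 1) ∈ P.lateral m :=
  subset_convexHull ℝ _ (by simp)

lemma A_mem_top (P : Prismoid n) (k : ZMod n) : P.A k ∈ P.topFace :=
  subset_convexHull ℝ _ ⟨k, rfl⟩

lemma B_mem_base (P : Prismoid n) (k : ZMod n) : P.B k ∈ P.baseFace :=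
  subset_convexHull ℝ _ ⟨k, rfl⟩

/-- Two developments of the same face have the same distances. -/
lemma develops_norm {f g : Space → ℂ} {X : Set Space} (hf : Develops f X) (hg : Develops g X)
    {x y : Space} (hx : x ∈ X) (hy : y ∈ X) : ‖f x - f y‖ = ‖g x - g y‖ := by
  rw [← dist_eq_norm, ← dist_eq_norm, hf x hx y hy, hg x hx y hy]

/-- rotation about `c` -/
noncomputable def rot (c r z : ℂ) : ℂ := c + r * (z - c)

lemma rot_self (c r : ℂ) : rot c r c = c := by
  unfold rot
  ring

lemma side_rot {r : ℂ} (hr : r.re ^ 2 + r.im ^ 2 = 1) (c p q z : ℂ) :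
    side (rot c r p) (rot c r q) (rot c r z) = side p q z := by
  unfold side rot
  simp only [Complex.mul_re, Complex.mul_im, Complex.add_re, Complex.add_im, Complex.sub_re,
    Complex.sub_im]
  linear_combination ((q.re - p.re) * (z.im - p.im) - (q.im - p.im) * (z.re - p.re)) * hr

lemma conj_unit {r : ℂ} (hr : r.re ^ 2 + r.im ^ 2 = 1) :
    ((starRingEnd ℂ) r).re ^ 2 + ((starRingEnd ℂ) r).im ^ 2 = 1 := by
  simpa using hr

lemma rot_conj {r : ℂ} (hr : r.re ^ 2 + r.im ^ 2 = 1) (c z : ℂ) :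
    rot c ((starRingEnd ℂ) r) (rot c r z) = z := by
  unfold rot
  have := unit_mul_conj hr
  linear_combination (z - c) * this

lemma rot_conj' {r : ℂ} (hr : r.re ^ 2 + r.im ^ 2 = 1) (c z : ℂ) :
    rot c r (rot c ((starRingEnd ℂ) r) z) = z := by
  unfold rot
  have := unit_mul_conj hr
  linear_combination (z - c) * this

lemma frame_rot {S : ℂ → ℂ} (hS : IsFrame S) {r : ℂ} (hr : r.re ^ 2 + r.im ^ 2 = 1) (c : ℂ) :
    IsFrame (fun z => S (rot c r z)) := by
  obtain ⟨u, w, hu, h | h⟩ := hS
  · refine ⟨u * r, w + u * (c - r * c), ?_, Or.inl fun z => ?_⟩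
    · simp only [mul_re, mul_im]
      linear_combination (r.re ^ 2 + r.im ^ 2) * hu + hr
    · simp only [h, rot]
      ring
  · refine ⟨u * (starRingEnd ℂ) r, w + u * ((starRingEnd ℂ) c -
      (starRingEnd ℂ) r * (starRingEnd ℂ) c), ?_, Or.inr fun z => ?_⟩
    · simp only [mul_re, mul_im, conj_re, conj_im]
      linear_combination (r.re ^ 2 + r.im ^ 2) * hu + hr
    · simp only [h, rot, map_mul, map_add, map_sub]
      ring

lemma frame_id : IsFrame (fun z => z) :=
  ⟨1, 0, by simp, Or.inl fun z => by ring⟩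

/-- existence of a frame with given values on three points -/
lemma exists_frame3 {p q r p' q' r' : ℂ} (hpq : p ≠ q) (h1 : ‖p' - q'‖ = ‖p - q‖)
    (h2 : ‖r' - p'‖ = ‖r - p‖) (h3 : ‖r' - q'‖ = ‖r - q‖) :
    ∃ S, IsFrame S ∧ S p = p' ∧ S q = q' ∧ S r = r' := by
  have hw : q - p ≠ 0 := sub_ne_zero.mpr hpq.symm
  set u : ℂ := (q' - p') / (q - p) with hu
  have hu1 : u.re ^ 2 + u.im ^ 2 = 1 := by
    have e : Complex.normSq u = 1 := by
      rw [hu, Complex.normSq_div, Complex.normSq_eq_norm_sq, Complex.normSq_eq_norm_sq,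
        norm_sub_rev q' p', norm_sub_rev q p, h1]
      apply div_self
      have : ‖p - q‖ ≠ 0 := by
        rw [norm_ne_zero_iff]
        exact sub_ne_zero.mpr hpq
      positivity
    rw [Complex.normSq_apply] at e
    linarith
  have hu2 : u * (q - p) = q' - p' := by
    rw [hu]
    exact div_mul_cancel₀ _ hw
  set S1 : ℂ → ℂ := fun z => (p' - u * p) + u * z with hS1
  have hS1f : IsFrame S1 := ⟨u, p' - u * p, hu1, Or.inl fun z => rfl⟩
  have hS1p : S1 p = p' := by
    rw [hS1]
    ring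
  have hS1q : S1 q = q' := by
    rw [hS1]
    linear_combination hu2
  obtain ⟨y, hy⟩ := hS1f.surj r'
  have g2 : ‖y - p‖ = ‖r - p‖ := by
    rw [← hy, ← hS1p, hS1f.norm] at h2
    exact h2
  have g3 : ‖y - q‖ = ‖r - q‖ := by
    rw [← hy, ← hS1q, hS1f.norm] at h3
    exact h3
  rw [norm_eq_iff] at g2 g3
  set w : ℂ := q - p with hwdef
  have hw2 : 0 < w.re ^ 2 + w.im ^ 2 := by
    have := Complex.normSq_pos.mpr hw
    rw [Complex.normSq_apply] at this
    linarith
  have hq : q = p + w := by rw [hwdef]; ring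
  have hqre : q.re = p.re + w.re := by rw [hq]; simp
  have hqim : q.im = p.im + w.im := by rw [hq]; simp
  rw [hqre, hqim] at g3
  have d1 : w.re * (y.re - p.re) + w.im * (y.im - p.im) =
      w.re * (r.re - p.re) + w.im * (r.im - p.im) := by
    linear_combination (g2 - g3) / 2
  have d2 : (w.re * (y.im - p.im) - w.im * (y.re - p.re)) ^ 2 =
      (w.re * (r.im - p.im) - w.im * (r.re - p.re)) ^ 2 := by
    linear_combination (w.re ^ 2 + w.im ^ 2) * g2 -
      (w.re * (y.re - p.re) + w.im * (y.im - p.im) +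
        w.re * (r.re - p.re) + w.im * (r.im - p.im)) * d1
  rcases sq_eq_sq_iff_eq_or_eq_neg.mp d2 with d3 | d3
  · -- y = r
    have e1 : (w.re ^ 2 + w.im ^ 2) * (y.re - r.re) = 0 := by
      linear_combination w.re * d1 - w.im * d3
    have e2 : (w.re ^ 2 + w.im ^ 2) * (y.im - r.im) = 0 := by
      linear_combination w.im * d1 + w.re * d3
    have f1 := (mul_eq_zero.mp e1).resolve_left hw2.ne'
    have f2 := (mul_eq_zero.mp e2).resolve_left hw2.ne'
    have : y = r := by
      apply Complex.ext <;> linarith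
    exact ⟨S1, hS1f, hS1p, hS1q, by rw [← this, hy]⟩
  · -- y is the reflection of r
    have hcw : (starRingEnd ℂ) w ≠ 0 := by
      intro h0
      apply hw
      simpa using h0
    set c : ℂ := w / (starRingEnd ℂ) w with hc
    have hc1 : c.re ^ 2 + c.im ^ 2 = 1 := by
      have e : Complex.normSq c = 1 := by
        rw [hc, Complex.normSq_div, Complex.normSq_conj]
        apply div_self
        exact (Complex.normSq_pos.mpr hw).ne'
      rw [Complex.normSq_apply] at e
      linarith
    have hc2 : c * (starRingEnd ℂ) w = w := by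
      rw [hc]
      exact div_mul_cancel₀ _ hcw
    refine ⟨fun z => S1 (p + c * (starRingEnd ℂ) (z - p)), ?_, ?_, ?_, ?_⟩
    · refine ⟨u * c, p' - u * c * (starRingEnd ℂ) p, ?_, Or.inr fun z => ?_⟩
      · simp only [mul_re, mul_im]
        linear_combination (c.re ^ 2 + c.im ^ 2) * hu1 + hc1
      · simp only [hS1, map_sub]
        ring
    · simp [hS1p]
    · simp only
      rw [show q - p = w from rfl, hc2, ← hq, hS1q]
    · simp only
      have : p + c * (starRingEnd ℂ) (r - p) = y := by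
        have k1 : (starRingEnd ℂ) w * (c * (starRingEnd ℂ) (r - p)) =
            (starRingEnd ℂ) w * (y - p) := by
          have : (starRingEnd ℂ) w * (c * (starRingEnd ℂ) (r - p)) =
              w * (starRingEnd ℂ) (r - p) := by
            rw [← mul_assoc, mul_comm _ c, hc2]
          rw [this]
          apply Complex.ext
          · simp only [mul_re, conj_re, conj_im, sub_re, sub_im]
            linear_combination -d1
          · simp only [mul_im, conj_re, conj_im, sub_re, sub_im]
            linear_combination -d3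
        have k2 := mul_left_cancel₀ hcw k1
        rw [k2]
        ring
      rw [this, hy]

end Pool.Agent.Work.MP_1500ab_co.Gen
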