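import Mathlib
import Pool.Agent.Work.MP_1500ab_co.G2

/-!
Frames of band unfoldings of nested prismoids.
-/

namespace Pool.Agent.Work.MP_1500ab_co.Gen

open Complex

variable {n : ℕ} {P : Prismoid n} (hP : Nest P)

/-- `f` is the standard placement of the lateral face `m`, moved by `S`. -/
def Fr (P : Prismoid n) (f : Space → ℂ) (S : ℂ → ℂ) (m : ZMod n) : Prop :=
  ∀ x ∈ P.lateral m, f x = S (chG P m x)

include hP

lemma side_gb (m : ZMod n) : side (P.a m) (P.a (m + 1)) (gb P.a P.b P.h m) < 0 := by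
  rw [side_edge hP.good.three_le hP.good.ca, dt_gb hP]
  have h1 := len_pos hP.good.three_le hP.good.ca m
  have h2 := sl_pos hP.good (h := P.h) m
  have : 0 < len P.a m * sl P.a P.b P.h m := by positivity
  linarith

lemma side_gb' (m : ZMod n) : side (P.a m) (P.a (m + 1)) (gb' P.a P.b P.h m) < 0 := by
  rw [side_edge hP.good.three_le hP.good.ca, dt_gb' hP]
  have h1 := len_pos hP.good.three_le hP.good.ca m
  have h2 := sl_pos hP.good (h := P.h) m
  have : 0 < len P.a m * sl P.a P.b P.h m := by positivity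
  linarith

lemma fr_of_three {f : Space → ℂ} {S : ℂ → ℂ} (hS : IsFrame S) {m : ZMod n}
    (hf : Develops f (P.lateral m)) (ha : f (P.A m) = S (P.a m))
    (ha' : f (P.A (m + 1)) = S (P.a (m + 1))) (hb : f (P.B m) = S (gb P.a P.b P.h m)) :
    Fr P f S m := by
  intro x hx
  have hc := develops_chG hP m
  refine framed_three hS ha ha' hb (side_gb hP m).ne ?_ ?_ ?_
  · rw [← chG_A P m]
    exact develops_norm hf hc hx (A_mem P m)
  · rw [← chG_A' hP m]
    exact develops_norm hf hc hx (A'_mem P m)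
  · rw [← chG_B hP m]
    exact develops_norm hf hc hx (B_mem P m)

lemma fr_of_three' {f : Space → ℂ} {S : ℂ → ℂ} (hS : IsFrame S) {m : ZMod n}
    (hf : Develops f (P.lateral m)) (ha : f (P.A m) = S (P.a m))
    (ha' : f (P.A (m + 1)) = S (P.a (m + 1)))
    (hb : f (P.B (m + 1)) = S (gb' P.a P.b P.h m)) :
    Fr P f S m := by
  intro x hx
  have hc := develops_chG hP m
  refine framed_three hS ha ha' hb (side_gb' hP m).ne ?_ ?_ ?_
  · rw [← chG_A P m]
    exact develops_norm hf hc hx (A_mem P m)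
  · rw [← chG_A' hP m]
    exact develops_norm hf hc hx (A'_mem P m)
  · rw [← chG_B' hP m]
    exact develops_norm hf hc hx (B'_mem P m)

/-- side of a vertex with respect to the side edge `m + 1` in the chart of the face `m` -/
lemma side_left (m : ZMod n) :
    side (P.a (m + 1)) (gb' P.a P.b P.h m) (P.a m) < 0 := by
  have h1 := side_gb' hP m
  have : side (P.a (m + 1)) (gb' P.a P.b P.h m) (P.a m) =
      side (P.a m) (P.a (m + 1)) (gb' P.a P.b P.h m) := by
    unfold side
    ring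
  rw [this]
  exact h1

lemma side_left_b (m : ZMod n) :
    side (P.a (m + 1)) (gb' P.a P.b P.h m) (gb P.a P.b P.h m) < 0 := by
  obtain ⟨L, hL, h1, h2⟩ := b_succ hP.good m
  have h3 := dt_gb' hP m
  have h4 := inner_succ hP.good.three_le hP.good.ca m
  have h5 := sl_pos hP.good (h := P.h) m
  have e : side (P.a (m + 1)) (gb' P.a P.b P.h m) (gb P.a P.b P.h m) =
      -(L * (dt (nrm P.a m) (gb' P.a P.b P.h m - P.a m) -
        dt (nrm P.a m) (P.a (m + 1) - P.a m))) := by
    unfold side dt gb gb' nrm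
    simp only [Complex.sub_re, Complex.sub_im, Complex.add_re, Complex.add_im, Complex.mul_re,
      Complex.mul_im, Complex.ofReal_re, Complex.ofReal_im, h1, h2]
    ring
  rw [e, h3, h4]
  have : 0 < L * sl P.a P.b P.h m := by positivity
  linarith

lemma side_right (m : ZMod n) :
    0 < side (P.a m) (gb P.a P.b P.h m) (P.a (m + 1)) := by
  have h1 := side_gb hP m
  have : side (P.a m) (gb P.a P.b P.h m) (P.a (m + 1)) =
      - side (P.a m) (P.a (m + 1)) (gb P.a P.b P.h m) := by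
    unfold side
    ring
  rw [this]
  linarith

lemma side_right_b (m : ZMod n) :
    0 < side (P.a m) (gb P.a P.b P.h m) (gb' P.a P.b P.h m) := by
  obtain ⟨L, hL, h1, h2⟩ := b_succ hP.good m
  have h3 := dt_gb hP m
  have h5 := sl_pos hP.good (h := P.h) m
  have e : side (P.a m) (gb P.a P.b P.h m) (gb' P.a P.b P.h m) =
      L * (dt (nrm P.a m) (gb P.a P.b P.h m - P.a m)) := by
    unfold side dt gb gb' nrm
    simp only [Complex.sub_re, Complex.sub_im, Complex.add_re, Complex.add_im, Complex.mul_re,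
      Complex.mul_im, Complex.ofReal_re, Complex.ofReal_im, h1, h2]
    ring
  rw [e, h3]
  positivity

/-- Rotation of the face `m + 1` onto its place next to the face `m`. -/
noncomputable def Rt (P : Prismoid n) (m : ZMod n) (z : ℂ) : ℂ :=
  rot (P.a (m + 1)) (rh P.a P.b P.h m) z

/-- its inverse -/
noncomputable def Ri (P : Prismoid n) (m : ZMod n) (z : ℂ) : ℂ :=
  rot (P.a (m + 1)) ((starRingEnd ℂ) (rh P.a P.b P.h m)) z

omit hP in
lemma Rt_a (m : ZMod n) : Rt P m (P.a (m + 1)) = P.a (m + 1) := rot_self _ _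

omit hP in
lemma Ri_a (m : ZMod n) : Ri P m (P.a (m + 1)) = P.a (m + 1) := rot_self _ _

lemma Rt_Ri (m : ZMod n) (z : ℂ) : Rt P m (Ri P m z) = z := rot_conj' (rh_unit hP.good m) _ _

lemma Ri_Rt (m : ZMod n) (z : ℂ) : Ri P m (Rt P m z) = z := rot_conj (rh_unit hP.good m) _ _

lemma Rt_b (m : ZMod n) : Rt P m (gb P.a P.b P.h (m + 1)) = gb' P.a P.b P.h m := by
  unfold Rt rot
  rw [rh_mul hP.good]
  ring

lemma Ri_b (m : ZMod n) : Ri P m (gb' P.a P.b P.h m) = gb P.a P.b P.h (m + 1) := by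
  rw [← Rt_b hP, Ri_Rt hP]

lemma frame_Rt {S : ℂ → ℂ} (hS : IsFrame S) (m : ZMod n) : IsFrame (fun z => S (Rt P m z)) :=
  frame_rot hS (rh_unit hP.good m) _

lemma frame_Ri {S : ℂ → ℂ} (hS : IsFrame S) (m : ZMod n) : IsFrame (fun z => S (Ri P m z)) :=
  frame_rot hS (conj_unit (rh_unit hP.good m)) _

lemma side_Rt (m : ZMod n) (p q z : ℂ) : side (Rt P m p) (Rt P m q) (Rt P m z) = side p q z :=
  side_rot (rh_unit hP.good m) _ _ _ _

lemma side_Ri (m : ZMod n) (p q z : ℂ) : side (Ri P m p) (Ri P m q) (Ri P m z) = side p q z :=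
  side_rot (conj_unit (rh_unit hP.good m)) _ _ _ _

/-- Propagation of frames from the face `m` to the face `m + 1`. -/
theorem fwd {f g : Space → ℂ} {S : ℂ → ℂ} (hS : IsFrame S) {m : ZMod n}
    (hg : Develops g (P.lateral (m + 1))) (hF : Fr P f S m)
    (hh : Hinged f g (P.lateral m) (P.lateral (m + 1)) (P.A (m + 1)) (P.B (m + 1))) :
    Fr P g (fun z => S (Rt P m z)) (m + 1) := by
  have hS' := frame_Rt hP hS m
  obtain ⟨h12, h3⟩ := hh
  have h1 := h12 _ (left_mem_segment ℝ _ _)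
  have h2 := h12 _ (right_mem_segment ℝ _ _)
  have hc := develops_chG hP (m + 1)
  have ha : g (P.A (m + 1)) = (fun z => S (Rt P m z)) (P.a (m + 1)) := by
    simp only
    rw [← h1, hF _ (A'_mem P m), chG_A' hP, Rt_a]
  have hb : g (P.B (m + 1)) = (fun z => S (Rt P m z)) (gb P.a P.b P.h (m + 1)) := by
    simp only
    rw [← h2, hF _ (B'_mem P m), chG_B' hP, Rt_b hP]
  refine fr_of_three hP hS' hg ha ?_ hb
  have hX : f (P.A m) = (fun z => S (Rt P m z)) (Ri P m (P.a m)) := by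
    simp only
    rw [hF _ (A_mem P m), chG_A, Rt_Ri hP]
  refine framed_two hS' ha hb hX ?_ ?_ ?_ ?_
  · have e1 : side (P.a (m + 1)) (gb P.a P.b P.h (m + 1)) (Ri P m (P.a m)) =
        side (P.a (m + 1)) (gb' P.a P.b P.h m) (P.a m) := by
      rw [← side_Rt hP m, Rt_Ri hP, Rt_a, Rt_b hP]
    rw [e1]
    exact mul_neg_of_neg_of_pos (side_left hP m) (side_right hP (m + 1))
  · rw [← chG_A P (m + 1), ← chG_A' hP (m + 1)]
    exact develops_norm hg hc (A'_mem P (m + 1)) (A_mem P (m + 1))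
  · rw [← chG_B hP (m + 1), ← chG_A' hP (m + 1)]
    exact develops_norm hg hc (A'_mem P (m + 1)) (B_mem P (m + 1))
  · have h4 := h3 (P.A m) (A_mem P m) (P.A (m + 1 + 1)) (A'_mem P (m + 1))
    rw [h1, h2] at h4
    exact h4

/-- Propagation of frames from the face `m + 1` to the face `m`. -/
theorem bwd {f g : Space → ℂ} {S : ℂ → ℂ} (hS : IsFrame S) {m : ZMod n}
    (hf : Develops f (P.lateral m)) (hG : Fr P g S (m + 1))
    (hh : Hinged f g (P.lateral m) (P.lateral (m + 1)) (P.A (m + 1)) (P.B (m + 1))) :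
    Fr P f (fun z => S (Ri P m z)) m := by
  have hS' := frame_Ri hP hS m
  obtain ⟨h12, h3⟩ := hh
  have h1 := h12 _ (left_mem_segment ℝ _ _)
  have h2 := h12 _ (right_mem_segment ℝ _ _)
  have hc := develops_chG hP m
  have ha : f (P.A (m + 1)) = (fun z => S (Ri P m z)) (P.a (m + 1)) := by
    simp only
    rw [h1, hG _ (A_mem P (m + 1)), chG_A, Ri_a]
  have hb : f (P.B (m + 1)) = (fun z => S (Ri P m z)) (gb' P.a P.b P.h m) := by
    simp only
    rw [h2, hG _ (B_mem P (m + 1)), chG_B hP, Ri_b hP]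
  refine fr_of_three' hP hS' hf ?_ ha hb
  have hX : g (P.A (m + 1 + 1)) = (fun z => S (Ri P m z)) (Rt P m (P.a (m + 1 + 1))) := by
    simp only
    rw [hG _ (A'_mem P (m + 1)), chG_A' hP, Ri_Rt hP]
  refine framed_two hS' ha hb hX ?_ ?_ ?_ ?_
  · have e1 : side (P.a (m + 1)) (gb' P.a P.b P.h m) (Rt P m (P.a (m + 1 + 1))) =
        side (P.a (m + 1)) (gb P.a P.b P.h (m + 1)) (P.a (m + 1 + 1)) := by
      rw [← side_Ri hP m, Ri_Rt hP, Ri_a, Ri_b hP]
    rw [e1]
    exact mul_neg_of_pos_of_neg (side_right hP (m + 1)) (side_left hP m)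
  · rw [← chG_A P m, ← chG_A' hP m]
    exact develops_norm hf hc (A_mem P m) (A'_mem P m)
  · rw [← chG_A P m, ← chG_B' hP m]
    exact develops_norm hf hc (A_mem P m) (B'_mem P m)
  · have h4 := h3 (P.A m) (A_mem P m) (P.A (m + 1 + 1)) (A'_mem P (m + 1))
    rw [mul_comm]
    exact h4

/-- The frame of the top, and of the lateral face glued to it. -/
theorem top_frame {T f : Space → ℂ} {m : ZMod n} (hT : Develops T P.topFace)
    (hf : Develops f (P.lateral m))
    (hh : Hinged T f P.topFace (P.lateral m) (P.A m) (P.A (m + 1))) :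
    ∃ S, IsFrame S ∧ (∀ x ∈ P.topFace, T x = S (chT x)) ∧ Fr P f S m := by
  have hn := hP.good.three_le
  have ha := hP.good.ca
  have hs := ha m (m + 1 + 1) (ne_succ2 hn m) (ne_succ hn (m + 1))
  have hne : P.a m ≠ P.a (m + 1) := by
    intro h0
    rw [h0] at hs
    simp [side] at hs
  have hc := develops_chT P
  have nd : ∀ k l : ZMod n, ‖T (P.A k) - T (P.A l)‖ = ‖P.a k - P.a l‖ := by
    intro k l
    rw [develops_norm hT hc (A_mem_top P k) (A_mem_top P l), chT_A, chT_A]
  obtain ⟨S, hS, h1, h2, h3⟩ := exists_frame3 hne (nd m (m + 1))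
    (nd (m + 1 + 1) m) (nd (m + 1 + 1) (m + 1))
  have hTop : ∀ x ∈ P.topFace, T x = S (chT x) := by
    intro x hx
    refine framed_three hS h1.symm h2.symm h3.symm hs.ne' ?_ ?_ ?_
    · rw [develops_norm hT hc hx (A_mem_top P m), chT_A]
    · rw [develops_norm hT hc hx (A_mem_top P (m + 1)), chT_A]
    · rw [develops_norm hT hc hx (A_mem_top P (m + 1 + 1)), chT_A]
  refine ⟨S, hS, hTop, ?_⟩
  obtain ⟨h12, h4⟩ := hh
  have k1 := h12 _ (left_mem_segment ℝ _ _)
  have k2 := h12 _ (right_mem_segment ℝ _ _)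
  have g1 : f (P.A m) = S (P.a m) := by rw [← k1, ← h1]
  have g2 : f (P.A (m + 1)) = S (P.a (m + 1)) := by rw [← k2, ← h2]
  have hcG := develops_chG hP m
  refine fr_of_three hP hS hf g1 g2 ?_
  refine framed_two hS g1 g2 (h3.symm : T (P.A (m + 1 + 1)) = S (P.a (m + 1 + 1))) ?_ ?_ ?_ ?_
  · exact mul_neg_of_pos_of_neg hs (side_gb hP m)
  · rw [← chG_A P m, ← chG_B hP m]
    exact develops_norm hf hcG (B_mem P m) (A_mem P m)
  · rw [← chG_A' hP m, ← chG_B hP m]
    exact develops_norm hf hcG (B_mem P m) (A'_mem P m)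
  · have h5 := h4 (P.A (m + 1 + 1)) (A_mem_top P _) (P.B m) (B_mem P m)
    rw [k1, k2] at h5
    exact h5

/-! ### Paths -/

/-- forward placement of the face `j + s` -/
noncomputable def Mf (P : Prismoid n) (j : ZMod n) : ℕ → ℂ → ℂ
  | 0 => fun z => z
  | s + 1 => fun z => Mf P j s (Rt P (j + s) z)

/-- backward placement of the face `j - s` -/
noncomputable def Mb (P : Prismoid n) (j : ZMod n) : ℕ → ℂ → ℂ
  | 0 => fun z => z
  | s + 1 => fun z => Mb P j s (Ri P (j - (s + 1 : ℕ)) z)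

/-- inverse of `Mf` -/
noncomputable def Nf (a b : ZMod n → ℂ) (h : ℝ) (j : ZMod n) : ℕ → ℂ → ℂ
  | 0 => fun z => z
  | s + 1 => fun z => rot (a (j + s + 1)) ((starRingEnd ℂ) (rh a b h (j + s))) (Nf a b h j s z)

/-- inverse of `Mb` -/
noncomputable def Nb (a b : ZMod n → ℂ) (h : ℝ) (j : ZMod n) : ℕ → ℂ → ℂ
  | 0 => fun z => z
  | s + 1 => fun z => rot (a (j - (s + 1 : ℕ) + 1)) (rh a b h (j - (s + 1 : ℕ))) (Nb a b h j s z)

lemma Mf_Nf (j : ZMod n) (s : ℕ) (z : ℂ) : Mf P j s (Nf P.a P.b P.h j s z) = z := by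
  induction s with
  | zero => rfl
  | succ s ih =>
    change Mf P j s (Rt P (j + s) (Ri P (j + s) (Nf P.a P.b P.h j s z))) = z
    rw [Rt_Ri hP, ih]

lemma Mb_Nb (j : ZMod n) (s : ℕ) (z : ℂ) : Mb P j s (Nb P.a P.b P.h j s z) = z := by
  induction s with
  | zero => rfl
  | succ s ih =>
    change Mb P j s (Ri P (j - (s + 1 : ℕ)) (Rt P (j - (s + 1 : ℕ)) (Nb P.a P.b P.h j s z))) = z
    rw [Ri_Rt hP, ih]

lemma frame_Mf {S : ℂ → ℂ} (hS : IsFrame S) (j : ZMod n) (s : ℕ) :
    IsFrame (fun z => S (Mf P j s z)) := by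
  induction s with
  | zero => exact hS
  | succ s ih => exact frame_Rt hP ih _

lemma frame_Mb {S : ℂ → ℂ} (hS : IsFrame S) (j : ZMod n) (s : ℕ) :
    IsFrame (fun z => S (Mb P j s z)) := by
  induction s with
  | zero => exact hS
  | succ s ih => exact frame_Ri hP ih _

variable {i j k : ZMod n} {T B : Space → ℂ} {F : ZMod n → Space → ℂ}

omit hP in
lemma hinge (hU : IsBandUnfolding P i j k T B F) (m : ZMod n) (hm : m + 1 ≠ i) :
    Hinged (F m) (F (m + 1)) (P.lateral m) (P.lateral (m + 1)) (P.A (m + 1))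
      (P.B (m + 1)) := by
  have h := hU.side_edges (m + 1) hm
  rw [add_sub_cancel_right] at h
  exact h

theorem path_fwd (hU : IsBandUnfolding P i j k T B F) {S : ℂ → ℂ} (hS : IsFrame S)
    (h0 : Fr P (F j) S j) (s : ℕ) (hcut : ∀ r : ℕ, r < s → j + r + 1 ≠ i) :
    Fr P (F (j + s)) (fun z => S (Mf P j s z)) (j + s) := by
  induction s with
  | zero => simpa [Mf] using h0
  | succ s ih =>
    have h1 := ih (fun r hr => hcut r (by omega))
    have h2 := fwd hP (frame_Mf hP hS j s) (hU.lateral (j + s + 1)) h1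
      (hinge hU (j + s) (hcut s (by omega)))
    have e : j + ((s + 1 : ℕ) : ZMod n) = j + s + 1 := by push_cast; ring
    rw [e]
    exact h2

theorem path_bwd (hU : IsBandUnfolding P i j k T B F) {S : ℂ → ℂ} (hS : IsFrame S)
    (h0 : Fr P (F j) S j) (s : ℕ) (hcut : ∀ r : ℕ, r < s → j - r ≠ i) :
    Fr P (F (j - s)) (fun z => S (Mb P j s z)) (j - s) := by
  induction s with
  | zero => simpa [Mb] using h0
  | succ s ih =>
    have h1 := ih (fun r hr => hcut r (by omega))
    have e : j - (s : ZMod n) = j - ((s + 1 : ℕ) : ZMod n) + 1 := by push_cast; ring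
    rw [e] at h1
    refine bwd hP (frame_Mb hP hS j s) (hU.lateral _) h1 (hinge hU _ ?_)
    rw [← e]
    exact hcut s (by omega)

end Pool.Agent.Work.MP_1500ab_co.Gen
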