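import Mathlib
import Pool.Agent.Work.MP_1500ab_co.G3

/-!
Flat prismoids: asymptotics of the placements as the height tends to zero.
-/

namespace Pool.Agent.Work.MP_1500ab_co.Gen

open Complex Filter Topology

variable {n : ℕ}

section limits

variable {a b : ZMod n → ℂ} (hg : Good a b)

include hg

lemma sl_tendsto (m : ZMod n) :
    Tendsto (fun h : ℝ => sl a b h m) (𝓝[>] 0) (𝓝 (dd a b m)) := by
  have h1 : Continuous (fun h : ℝ => sl a b h m) := by
    unfold sl
    fun_prop
  have h2 := h1.tendsto 0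
  have h3 : sl a b 0 m = dd a b m := by
    unfold sl
    rw [zero_pow two_ne_zero, add_zero]
    exact Real.sqrt_sq (dd_pos hg m).le
  rw [h3] at h2
  exact h2.mono_left nhdsWithin_le_nhds

lemma sg_tendsto (m : ZMod n) :
    Tendsto (fun h : ℝ => sg a b h m / h ^ 2) (𝓝[>] 0) (𝓝 (1 / (2 * dd a b m))) := by
  have hd := dd_pos hg m
  have h1 : Tendsto (fun h : ℝ => 1 / (sl a b h m + dd a b m)) (𝓝[>] 0)
      (𝓝 (1 / (dd a b m + dd a b m))) := by
    refine Tendsto.div tendsto_const_nhds ((sl_tendsto hg m).add tendsto_const_nhds) ?_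
    positivity
  have e : 1 / (2 * dd a b m) = 1 / (dd a b m + dd a b m) := by ring
  rw [e]
  refine h1.congr' ?_
  filter_upwards [self_mem_nhdsWithin] with h hh
  have hh0 : (0 : ℝ) < h := hh
  have h2 := sl_sq (a := a) (b := b) (h := h) m
  have h3 := sl_pos hg (h := h) m
  unfold sg
  have h4 : sl a b h m + dd a b m ≠ 0 := by positivity
  rw [div_eq_div_iff h4 (by positivity)]
  linear_combination -h2

lemma sg_tendsto0 (m : ZMod n) :
    Tendsto (fun h : ℝ => sg a b h m) (𝓝[>] 0) (𝓝 0) := by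
  have h1 := (sl_tendsto hg m).sub (tendsto_const_nhds (x := dd a b m))
  rw [sub_self] at h1
  exact h1

/-- curvature coefficient at the vertex `m + 1` -/
noncomputable def kp (a b : ZMod n → ℂ) (m : ZMod n) : ℝ :=
  ((nrm a m).re * (nrm a (m + 1)).im - (nrm a m).im * (nrm a (m + 1)).re) /
    (2 * dd a b m * dd a b (m + 1))

lemma kp_pos (m : ZMod n) : 0 < kp a b m := by
  have h1 := cross_pos hg.three_le hg.ca m
  have h2 := dd_pos hg m
  have h3 := dd_pos hg (m + 1)
  unfold kp
  positivity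

lemma gb'_tendsto (m : ZMod n) :
    Tendsto (fun h : ℝ => gb' a b h m) (𝓝[>] 0) (𝓝 (b (m + 1))) := by
  have h1 : Tendsto (fun h : ℝ => b (m + 1) + ((sg a b h m : ℝ) : ℂ) * nrm a m) (𝓝[>] 0)
      (𝓝 (b (m + 1) + ((0 : ℝ) : ℂ) * nrm a m)) := by
    refine tendsto_const_nhds.add (Tendsto.mul ?_ tendsto_const_nhds)
    exact (continuous_ofReal.tendsto 0).comp (sg_tendsto0 hg m)
  simpa [gb'] using h1

lemma gb_tendsto (m : ZMod n) :
    Tendsto (fun h : ℝ => gb a b h m) (𝓝[>] 0) (𝓝 (b m)) := by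
  have h1 : Tendsto (fun h : ℝ => b m + ((sg a b h m : ℝ) : ℂ) * nrm a m) (𝓝[>] 0)
      (𝓝 (b m + ((0 : ℝ) : ℂ) * nrm a m)) := by
    refine tendsto_const_nhds.add (Tendsto.mul ?_ tendsto_const_nhds)
    exact (continuous_ofReal.tendsto 0).comp (sg_tendsto0 hg m)
  simpa [gb] using h1

lemma conj_rh_tendsto (m : ZMod n) :
    Tendsto (fun h : ℝ => ((starRingEnd ℂ) (rh a b h m) - 1) / ((h ^ 2 : ℝ) : ℂ)) (𝓝[>] 0)
      (𝓝 (I * (kp a b m : ℂ))) := by
  have hd := dd_pos hg m
  have hd1 := dd_pos hg (m + 1)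
  set v : ℂ := b (m + 1) - a (m + 1) with hv
  have hvne : v ≠ 0 := by
    rw [← Complex.normSq_pos]
    exact b_ne_a hg (m + 1)
  have key : Tendsto (fun h : ℝ => (((sg a b h (m + 1) / h ^ 2 : ℝ) : ℂ) * nrm a (m + 1) -
      ((sg a b h m / h ^ 2 : ℝ) : ℂ) * nrm a m) / (gb' a b h m - a (m + 1))) (𝓝[>] 0)
      (𝓝 ((((1 / (2 * dd a b (m + 1)) : ℝ) : ℂ) * nrm a (m + 1) -
        ((1 / (2 * dd a b m) : ℝ) : ℂ) * nrm a m) / (b (m + 1) - a (m + 1)))) := by
    refine Tendsto.div (Tendsto.sub (Tendsto.mul ?_ tendsto_const_nhds)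
      (Tendsto.mul ?_ tendsto_const_nhds)) ((gb'_tendsto hg m).sub tendsto_const_nhds) hvne
    · exact (continuous_ofReal.tendsto _).comp (sg_tendsto hg (m + 1))
    · exact (continuous_ofReal.tendsto _).comp (sg_tendsto hg m)
  have elim : (((1 / (2 * dd a b (m + 1)) : ℝ) : ℂ) * nrm a (m + 1) -
        ((1 / (2 * dd a b m) : ℝ) : ℂ) * nrm a m) / (b (m + 1) - a (m + 1)) =
        I * (kp a b m : ℂ) := by
    rw [div_eq_iff hvne]
    have f1 : dt (nrm a m) (b (m + 1) - a (m + 1)) = dd a b m := dd_succ hg m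
    have f2 : dt (nrm a (m + 1)) (b (m + 1) - a (m + 1)) = dd a b (m + 1) := rfl
    unfold kp
    set p := dd a b m with hp
    set q := dd a b (m + 1) with hq
    unfold dt at f1 f2
    rw [← hv] at f1 f2
    apply Complex.ext
    · simp only [Complex.sub_re, Complex.mul_re, Complex.mul_im, Complex.ofReal_re,
        Complex.ofReal_im, Complex.I_re, Complex.I_im]
      field_simp
      linear_combination (nrm a m).re * f2 - (nrm a (m + 1)).re * f1
    · simp only [Complex.sub_im, Complex.mul_re, Complex.mul_im, Complex.ofReal_re,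
        Complex.ofReal_im, Complex.I_re, Complex.I_im]
      field_simp
      linear_combination (nrm a m).im * f2 - (nrm a (m + 1)).im * f1
  rw [elim] at key
  refine key.congr' ?_
  filter_upwards [self_mem_nhdsWithin] with h hh
  have hh0 : (0 : ℝ) < h := hh
  have hne := gb'_ne hg (h := h) m
  have hne1 := gb_ne hg (h := h) (m + 1)
  have hu := rh_unit hg (h := h) m
  have hc : (starRingEnd ℂ) (rh a b h m) = (gb a b h (m + 1) - a (m + 1)) /
      (gb' a b h m - a (m + 1)) := by
    have h1 := unit_mul_conj hu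
    have h2 := rh_mul hg (h := h) m
    rw [eq_div_iff hne, ← h2]
    linear_combination (gb a b h (m + 1) - a (m + 1)) * h1
  have hh2 : ((h ^ 2 : ℝ) : ℂ) ≠ 0 := by
    rw [Complex.ofReal_ne_zero]
    positivity
  rw [hc]
  have e1 : (((sg a b h (m + 1) / h ^ 2 : ℝ) : ℂ) * nrm a (m + 1) -
      ((sg a b h m / h ^ 2 : ℝ) : ℂ) * nrm a m) =
      ((gb a b h (m + 1) - a (m + 1)) - (gb' a b h m - a (m + 1))) / ((h ^ 2 : ℝ) : ℂ) := by
    rw [eq_div_iff hh2]
    unfold gb gb'
    rw [Complex.ofReal_div, Complex.ofReal_div]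
    field_simp
    ring
  rw [e1]
  field_simp

lemma rh_tendsto (m : ZMod n) :
    Tendsto (fun h : ℝ => (rh a b h m - 1) / ((h ^ 2 : ℝ) : ℂ)) (𝓝[>] 0)
      (𝓝 (I * ((-kp a b m : ℝ) : ℂ))) := by
  have h1 := (Complex.continuous_conj.tendsto _).comp (conj_rh_tendsto hg m)
  have e : (starRingEnd ℂ) (I * (kp a b m : ℂ)) = I * ((-kp a b m : ℝ) : ℂ) := by
    simp
  rw [e] at h1
  refine h1.congr ?_
  intro h
  simp

end limits

/-- Composition of small rotations. -/
lemma comp_tendsto (c : ℕ → ℂ) (w : ℕ → ℝ → ℂ) (k : ℕ → ℝ)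
    (hw : ∀ r, Tendsto (fun h : ℝ => (w r h - 1) / ((h ^ 2 : ℝ) : ℂ)) (𝓝[>] 0)
      (𝓝 (I * (k r : ℂ)))) (x : ℂ) (N : ℕ → ℝ → ℂ) (h0 : ∀ h, N 0 h = x)
    (hs : ∀ r h, N (r + 1) h = rot (c r) (w r h) (N r h)) (s : ℕ) :
    Tendsto (fun h : ℝ => (N s h - x) / ((h ^ 2 : ℝ) : ℂ)) (𝓝[>] 0)
      (𝓝 (∑ r ∈ Finset.range s, I * (k r : ℂ) * (x - c r))) ∧
    Tendsto (fun h : ℝ => N s h) (𝓝[>] 0) (𝓝 x) := by
  have hsq : Tendsto (fun h : ℝ => ((h ^ 2 : ℝ) : ℂ)) (𝓝[>] 0) (𝓝 0) := by
    have h1 : Continuous (fun h : ℝ => ((h ^ 2 : ℝ) : ℂ)) := by fun_prop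
    have h2 := h1.tendsto 0
    simp only [ne_eq, OfNat.ofNat_ne_zero, not_false_eq_true, zero_pow, ofReal_zero] at h2
    exact h2.mono_left nhdsWithin_le_nhds
  have second : ∀ V : ℂ, Tendsto (fun h : ℝ => (N s h - x) / ((h ^ 2 : ℝ) : ℂ)) (𝓝[>] 0)
      (𝓝 V) → Tendsto (fun h : ℝ => N s h) (𝓝[>] 0) (𝓝 x) := by
    intro V hV
    have h1 := (hV.mul hsq).add (tendsto_const_nhds (x := x))
    rw [mul_zero, zero_add] at h1
    refine h1.congr' ?_
    filter_upwards [self_mem_nhdsWithin] with h hh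
    have hh0 : (0 : ℝ) < h := hh
    have hh2 : ((h ^ 2 : ℝ) : ℂ) ≠ 0 := by
      rw [Complex.ofReal_ne_zero]
      positivity
    field_simp
    ring
  induction s with
  | zero =>
    have e : (fun h : ℝ => (N 0 h - x) / ((h ^ 2 : ℝ) : ℂ)) = fun _ => 0 := by
      funext h
      rw [h0 h]
      simp
    have e2 : (fun h : ℝ => N 0 h) = fun _ => x := by
      funext h
      rw [h0 h]
    rw [e, e2]
    simp only [Finset.range_zero, Finset.sum_empty]
    exact ⟨tendsto_const_nhds, tendsto_const_nhds⟩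
  | succ s ih =>
    have sec : ∀ V : ℂ, Tendsto (fun h : ℝ => (N s h - x) / ((h ^ 2 : ℝ) : ℂ)) (𝓝[>] 0)
        (𝓝 V) → Tendsto (fun h : ℝ => N s h) (𝓝[>] 0) (𝓝 x) := by
      intro V hV
      have h1 := (hV.mul hsq).add (tendsto_const_nhds (x := x))
      rw [mul_zero, zero_add] at h1
      refine h1.congr' ?_
      filter_upwards [self_mem_nhdsWithin] with h hh
      have hh0 : (0 : ℝ) < h := hh
      have hh2 : ((h ^ 2 : ℝ) : ℂ) ≠ 0 := by
        rw [Complex.ofReal_ne_zero]
        positivity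
      field_simp
      ring
    obtain ⟨ih1, ih2⟩ := ih sec
    have h1 : Tendsto (fun h : ℝ => (N s h - x) / ((h ^ 2 : ℝ) : ℂ) +
        ((w s h - 1) / ((h ^ 2 : ℝ) : ℂ)) * (N s h - c s)) (𝓝[>] 0)
        (𝓝 ((∑ r ∈ Finset.range s, I * (k r : ℂ) * (x - c r)) +
          (I * (k s : ℂ)) * (x - c s))) :=
      ih1.add ((hw s).mul (ih2.sub tendsto_const_nhds))
    have h2 : Tendsto (fun h : ℝ => (N (s + 1) h - x) / ((h ^ 2 : ℝ) : ℂ)) (𝓝[>] 0)
        (𝓝 (∑ r ∈ Finset.range (s + 1), I * (k r : ℂ) * (x - c r))) := by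
      rw [Finset.sum_range_succ]
      refine h1.congr ?_
      intro h
      rw [hs s h]
      unfold rot
      ring
    exact ⟨h2, second _ h2⟩

/-- the interior angle at the vertex `m` is acute -/
def Acute (a : ZMod n → ℂ) (m : ZMod n) : Prop :=
  0 < (a (m - 1) - a m).re * (a (m + 1) - a m).re + (a (m - 1) - a m).im * (a (m + 1) - a m).im

section acute

variable {a : ZMod n → ℂ} (hn : 3 ≤ n) (ha : IsConvexPolygon a)

include hn ha

/-- With an acute angle at `m`, the polygon lies in front of `a m` in the directions of both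
edges at `m`. -/
lemma acute_both {m : ZMod n} (hm : Acute a m) (l : ZMod n) (hl : l ≠ m) :
    0 < dt (a l - a m) (a (m + 1) - a m) ∧ 0 < dt (a l - a m) (a (m - 1) - a m) := by
  unfold Acute at hm
  have hm1 : m - 1 + 1 = m := by ring
  have hne1 : m + 1 ≠ m - 1 := by
    intro h0
    apply two_ne hn
    have h2 : (m + 1) - (m - 1) = 0 := by rw [h0]; ring
    have h3 : (m + 1) - (m - 1) = (2 : ZMod n) := by ring
    rw [← h3, h2]
  have hne2 : m + 1 ≠ m := ne_succ hn m
  have hD := ha (m - 1) (m + 1) hne1 (by rw [hm1]; exact hne2)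
  rw [hm1] at hD
  set e : ℂ := a (m + 1) - a m with he
  set g : ℂ := a (m - 1) - a m with hgdef
  set X : ℂ := a l - a m with hX
  have hD' : 0 < e.re * g.im - e.im * g.re := by
    have : side (a (m - 1)) (a m) (a (m + 1)) = e.re * g.im - e.im * g.re := by
      rw [he, hgdef]
      unfold side
      simp only [Complex.sub_re, Complex.sub_im]
      ring
    rw [← this]
    exact hD
  have i1 : (e.re * g.im - e.im * g.re) * dt X e =
      (X.re * g.im - X.im * g.re) * (e.re ^ 2 + e.im ^ 2) +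
        (e.re * X.im - e.im * X.re) * (g.re * e.re + g.im * e.im) := by
    unfold dt
    ring
  have i2 : (e.re * g.im - e.im * g.re) * dt X g =
      (X.re * g.im - X.im * g.re) * (g.re * e.re + g.im * e.im) +
        (e.re * X.im - e.im * X.re) * (g.re ^ 2 + g.im ^ 2) := by
    unfold dt
    ring
  have he2 : 0 < e.re ^ 2 + e.im ^ 2 := by
    by_contra hcon
    have q1 := sq_nonneg e.re
    have q2 := sq_nonneg e.im
    have e1 : e.re = 0 := by
      apply pow_eq_zero_iff two_ne_zero |>.mp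
      linarith
    have e2 : e.im = 0 := by
      apply pow_eq_zero_iff two_ne_zero |>.mp
      linarith
    rw [e1, e2] at hD'
    simp at hD'
  have hg2 : 0 < g.re ^ 2 + g.im ^ 2 := by
    by_contra hcon
    have q1 := sq_nonneg g.re
    have q2 := sq_nonneg g.im
    have e1 : g.re = 0 := by
      apply pow_eq_zero_iff two_ne_zero |>.mp
      linarith
    have e2 : g.im = 0 := by
      apply pow_eq_zero_iff two_ne_zero |>.mp
      linarith
    rw [e1, e2] at hD'
    simp at hD'
  -- the two coordinates of X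
  have c1 : 0 ≤ X.re * g.im - X.im * g.re := by
    have : side (a (m - 1)) (a m) (a l) = X.re * g.im - X.im * g.re := by
      rw [hX, hgdef]
      unfold side
      simp only [Complex.sub_re, Complex.sub_im]
      ring
    rw [← this]
    by_cases h1 : l = m - 1
    · rw [h1]
      unfold side
      simp
    · have := ha (m - 1) l h1 (by rw [hm1]; exact hl)
      rw [hm1] at this
      exact this.le
  have c2 : side (a m) (a (m + 1)) (a l) = e.re * X.im - e.im * X.re := by
    rw [hX, he]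
    unfold side
    simp only [Complex.sub_re, Complex.sub_im]
  by_cases h1 : l = m + 1
  · have hXe : X = e := by rw [hX, he, h1]
    rw [hXe]
    constructor
    · unfold dt
      nlinarith
    · unfold dt
      nlinarith
  · have c3 : 0 < e.re * X.im - e.im * X.re := by
      rw [← c2]
      exact ha m l hl h1
    have hm' : 0 < g.re * e.re + g.im * e.im := hm
    constructor
    · have : 0 < (e.re * g.im - e.im * g.re) * dt X e := by
        rw [i1]
        have t1 : 0 ≤ (X.re * g.im - X.im * g.re) * (e.re ^ 2 + e.im ^ 2) :=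
          mul_nonneg c1 he2.le
        have t2 : 0 < (e.re * X.im - e.im * X.re) * (g.re * e.re + g.im * e.im) :=
          mul_pos c3 hm'
        linarith
      exact (pos_iff_pos_of_mul_pos this).mp hD'
    · have : 0 < (e.re * g.im - e.im * g.re) * dt X g := by
        rw [i2]
        have t1 : 0 ≤ (X.re * g.im - X.im * g.re) * (g.re * e.re + g.im * e.im) :=
          mul_nonneg c1 hm'.le
        have t2 : 0 < (e.re * X.im - e.im * X.re) * (g.re ^ 2 + g.im ^ 2) :=
          mul_pos c3 hg2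
        linarith
      exact (pos_iff_pos_of_mul_pos this).mp hD'

end acute

end Pool.Agent.Work.MP_1500ab_co.Gen
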