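import Mathlib
import Pool.Agent.Work.MP_1500ab_co.G4

/-!
Flat nested prismoids with three non-adjacent acute angles: every band unfolding overlaps.
-/

namespace Pool.Agent.Work.MP_1500ab_co.Gen

open Complex Filter Topology

variable {n : ℕ}

lemma side_tendsto {l : Filter ℝ} {u v w : ℝ → ℂ} {u0 v0 w0 : ℂ} (hu : Tendsto u l (𝓝 u0))
    (hv : Tendsto v l (𝓝 v0)) (hw : Tendsto w l (𝓝 w0)) :
    Tendsto (fun h => side (u h) (v h) (w h)) l (𝓝 (side u0 v0 w0)) := by
  have hre : ∀ {f : ℝ → ℂ} {f0 : ℂ}, Tendsto f l (𝓝 f0) →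
      Tendsto (fun h => (f h).re) l (𝓝 f0.re) := fun hf =>
    (Complex.continuous_re.tendsto _).comp hf
  have him : ∀ {f : ℝ → ℂ} {f0 : ℂ}, Tendsto f l (𝓝 f0) →
      Tendsto (fun h => (f h).im) l (𝓝 f0.im) := fun hf =>
    (Complex.continuous_im.tendsto _).comp hf
  unfold side
  exact (((hre hv).sub (hre hu)).mul ((him hw).sub (him hu))).sub
    (((him hv).sub (him hu)).mul ((hre hw).sub (hre hu)))

lemma dt_tendsto {l : Filter ℝ} {v : ℝ → ℂ} {v0 : ℂ} (u : ℂ) (hv : Tendsto v l (𝓝 v0)) :
    Tendsto (fun h => dt u (v h)) l (𝓝 (dt u v0)) := by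
  have hre := (Complex.continuous_re.tendsto _).comp hv
  have him := (Complex.continuous_im.tendsto _).comp hv
  unfold dt
  exact (tendsto_const_nhds.mul hre).add (tendsto_const_nhds.mul him)

lemma dt_I (a : ZMod n → ℂ) (m : ZMod n) (k : ℝ) (w : ℂ) :
    dt (nrm a m) (I * (k : ℂ) * w) = -(k * dt (tng a m) w) := by
  unfold dt nrm
  simp only [Complex.mul_re, Complex.mul_im, Complex.I_re, Complex.I_im, Complex.ofReal_re,
    Complex.ofReal_im]
  ring

lemma dt_sum (u : ℂ) (f : ℕ → ℂ) (s : ℕ) :
    dt u (∑ r ∈ Finset.range s, f r) = ∑ r ∈ Finset.range s, dt u (f r) := by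
  induction s with
  | zero => simp [dt]
  | succ s ih =>
    rw [Finset.sum_range_succ, Finset.sum_range_succ, ← ih]
    unfold dt
    simp only [Complex.add_re, Complex.add_im]
    ring

/-- the point at distance `τ` from `a m` on the edge `m` -/
noncomputable def ept (a : ZMod n → ℂ) (m : ZMod n) (τ : ℝ) : ℂ := a m + (τ : ℂ) * tng a m

section core

variable {a b : ZMod n → ℂ} (hg : Good a b)

include hg

omit hg in
lemma ept_side1 (m : ZMod n) (τ : ℝ) : side (a m) (b m) (ept a m τ) = τ * dd a b m := by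
  unfold side ept dd dt nrm
  simp only [Complex.add_re, Complex.add_im, Complex.mul_re, Complex.mul_im, Complex.ofReal_re,
    Complex.ofReal_im, Complex.sub_re, Complex.sub_im]
  ring

lemma ept_side2 (m : ZMod n) (τ : ℝ) :
    side (b m) (a (m + 1)) (ept a m τ) = (len a m - τ) * dd a b m := by
  obtain ⟨h1, h2⟩ := a_succ hg.three_le hg.ca m
  unfold side ept dd dt nrm
  simp only [Complex.add_re, Complex.add_im, Complex.mul_re, Complex.mul_im, Complex.ofReal_re,
    Complex.ofReal_im, Complex.sub_re, Complex.sub_im, h1, h2]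
  ring

lemma ept_segment (m : ZMod n) (τ : ℝ) (h0 : 0 ≤ τ) (h1 : τ ≤ len a m) :
    ept a m τ ∈ segment ℝ (a m) (a (m + 1)) := by
  have hl := len_pos hg.three_le hg.ca m
  obtain ⟨h2, h3⟩ := a_succ hg.three_le hg.ca m
  refine ⟨1 - τ / len a m, τ / len a m, ?_, by positivity, by ring, ?_⟩
  · rw [sub_nonneg, div_le_one hl]
    exact h1
  · apply Complex.ext
    · simp only [ept, Complex.add_re, Complex.mul_re, Complex.ofReal_re, Complex.ofReal_im,
        Complex.smul_re, smul_eq_mul, h2]
      field_simp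
      ring
    · simp only [ept, Complex.add_im, Complex.mul_im, Complex.ofReal_re, Complex.ofReal_im,
        Complex.smul_im, smul_eq_mul, h3]
      field_simp
      ring

/-- The eventual conditions at a point which is moved outwards. -/
lemma ev_core (m : ZMod n) (τ : ℝ) (h0 : 0 < τ) (h1 : τ < len a m) (N : ℝ → ℂ) (V : ℂ)
    (hN : Tendsto N (𝓝[>] 0) (𝓝 (ept a m τ)))
    (hV : Tendsto (fun h : ℝ => (N h - ept a m τ) / ((h ^ 2 : ℝ) : ℂ)) (𝓝[>] 0) (𝓝 V))
    (hpos : 0 < dt (nrm a m) V) :
    ∀ᶠ h in 𝓝[>] (0 : ℝ), 0 < side (a m) (gb a b h m) (N h) ∧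
      0 < side (gb a b h m) (a (m + 1)) (N h) ∧ 0 < side (a (m + 1)) (a m) (N h) := by
  have hd := dd_pos hg m
  have hl := len_pos hg.three_le hg.ca m
  have t1 := side_tendsto (tendsto_const_nhds (x := a m)) (gb_tendsto hg m) hN
  have t2 := side_tendsto (gb_tendsto hg m) (tendsto_const_nhds (x := a (m + 1))) hN
  have t3 := dt_tendsto (nrm a m) hV
  rw [ept_side1] at t1
  rw [ept_side2 hg] at t2
  have p1 : 0 < τ * dd a b m := by positivity
  have p2 : 0 < (len a m - τ) * dd a b m := mul_pos (by linarith) hd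
  filter_upwards [t1.eventually (lt_mem_nhds p1), t2.eventually (lt_mem_nhds p2),
    t3.eventually (lt_mem_nhds hpos), self_mem_nhdsWithin] with h g1 g2 g3 g4
  refine ⟨g1, g2, ?_⟩
  have hh0 : (0 : ℝ) < h := g4
  have hh2 : (0 : ℝ) < h ^ 2 := by positivity
  have e1 : side (a (m + 1)) (a m) (N h) = len a m * dt (nrm a m) (N h - a m) := by
    rw [side_swap, side_edge hg.three_le hg.ca]
    ring
  have e2 : dt (nrm a m) (N h - a m) = dt (nrm a m) (N h - ept a m τ) := by
    unfold dt ept nrm
    simp only [Complex.add_re, Complex.add_im, Complex.mul_re, Complex.mul_im, Complex.ofReal_re,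
      Complex.ofReal_im, Complex.sub_re, Complex.sub_im]
    ring
  have e3 : dt (nrm a m) (N h - ept a m τ) =
      h ^ 2 * dt (nrm a m) ((N h - ept a m τ) / ((h ^ 2 : ℝ) : ℂ)) := by
    unfold dt
    rw [Complex.div_ofReal_re, Complex.div_ofReal_im]
    field_simp
  rw [e1, e2, e3]
  positivity

lemma exists_tau (m : ZMod n) {A K : ℝ} (hA : 0 < A) (hK : 0 ≤ K) :
    ∃ τ : ℝ, 0 < τ ∧ τ < len a m ∧ τ * K < A := by
  have hl := len_pos hg.three_le hg.ca m
  refine ⟨min (len a m / 2) (A / (K + 1) / 2), ?_, ?_, ?_⟩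
  · apply lt_min <;> positivity
  · exact lt_of_le_of_lt (min_le_left _ _) (by linarith)
  · calc min (len a m / 2) (A / (K + 1) / 2) * K ≤ (A / (K + 1) / 2) * K := by
          gcongr
          exact min_le_right _ _
      _ < A := by
          rw [div_div, div_mul_eq_mul_div, div_lt_iff₀ (by positivity)]
          nlinarith

/-- forward overlap near an acute vertex -/
lemma ev_fwd (j : ZMod n) (s : ℕ) (hs : 1 ≤ s) (hm : Acute a (j + s)) (hne : j + s ≠ j + 1) :
    ∃ x0 ∈ segment ℝ (a (j + s)) (a (j + s + 1)), ∀ᶠ h in 𝓝[>] (0 : ℝ),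
      0 < side (a (j + s)) (gb a b h (j + s)) (Nf a b h j s x0) ∧
      0 < side (gb a b h (j + s)) (a (j + s + 1)) (Nf a b h j s x0) ∧
      0 < side (a (j + s + 1)) (a (j + s)) (Nf a b h j s x0) := by
  set m : ZMod n := j + s with hmdef
  have hl := len_pos hg.three_le hg.ca m
  obtain ⟨f1, f2⟩ := a_succ hg.three_le hg.ca m
  have tu := tng_unit hg.three_le hg.ca m
  -- the vertices are in front
  have front : ∀ l, l ≠ m → 0 < dt (tng a m) (a l - a m) := by
    intro l hl'
    have h1 := (acute_both hg.three_le hg.ca hm l hl').1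
    have e : dt (a l - a m) (a (m + 1) - a m) = len a m * dt (tng a m) (a l - a m) := by
      unfold dt
      simp only [Complex.sub_re, Complex.sub_im, f1, f2]
      ring
    rw [e] at h1
    exact (pos_iff_pos_of_mul_pos h1).mp hl
  have front' : ∀ l, 0 ≤ dt (tng a m) (a l - a m) := by
    intro l
    by_cases h1 : l = m
    · rw [h1]
      simp [dt]
    · exact (front l h1).le
  set A : ℝ := ∑ r ∈ Finset.range s, kp a b (j + r) * dt (tng a m) (a (j + r + 1) - a m) with hA
  set K : ℝ := ∑ r ∈ Finset.range s, kp a b (j + r) with hK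
  have hApos : 0 < A := by
    rw [hA]
    apply Finset.sum_pos'
    · intro r _
      exact mul_nonneg (kp_pos hg _).le (front' _)
    · refine ⟨0, Finset.mem_range.mpr (by omega), ?_⟩
      apply mul_pos (kp_pos hg _)
      apply front
      intro h0
      apply hne
      rw [← h0]
      simp
  have hKnn : 0 ≤ K := Finset.sum_nonneg fun r _ => (kp_pos hg _).le
  obtain ⟨τ, h1, h2, h3⟩ := exists_tau hg m hApos hKnn
  refine ⟨ept a m τ, ept_segment hg m τ h1.le h2.le, ?_⟩
  obtain ⟨c1, c2⟩ := comp_tendsto (fun r => a (j + r + 1))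
    (fun r h => (starRingEnd ℂ) (rh a b h (j + r))) (fun r => kp a b (j + r))
    (fun r => conj_rh_tendsto hg (j + r)) (ept a m τ) (fun s h => Nf a b h j s (ept a m τ))
    (fun h => rfl) (fun r h => rfl) s
  refine ev_core hg m τ h1 h2 _ _ c2 c1 ?_
  rw [dt_sum]
  have e : ∑ r ∈ Finset.range s, dt (nrm a m) (I * (kp a b (j + r) : ℂ) *
      (ept a m τ - a (j + r + 1))) = A - τ * K := by
    rw [hA, hK, Finset.mul_sum, ← Finset.sum_sub_distrib]
    apply Finset.sum_congr rfl
    intro r _
    rw [dt_I]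
    unfold dt ept
    simp only [Complex.add_re, Complex.add_im, Complex.mul_re, Complex.mul_im, Complex.ofReal_re,
      Complex.ofReal_im, Complex.sub_re, Complex.sub_im]
    linear_combination (-(kp a b (j + r) * τ)) * tu
  rw [e]
  linarith

/-- backward overlap near an acute vertex -/
lemma ev_bwd (j : ZMod n) (s : ℕ) (hs : 1 ≤ s) (hm : Acute a (j - s + 1)) (hne : j - s + 1 ≠ j) :
    ∃ x0 ∈ segment ℝ (a (j - s)) (a (j - s + 1)), ∀ᶠ h in 𝓝[>] (0 : ℝ),
      0 < side (a (j - s)) (gb a b h (j - s)) (Nb a b h j s x0) ∧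
      0 < side (gb a b h (j - s)) (a (j - s + 1)) (Nb a b h j s x0) ∧
      0 < side (a (j - s + 1)) (a (j - s)) (Nb a b h j s x0) := by
  set f : ZMod n := j - s with hfdef
  have hl := len_pos hg.three_le hg.ca f
  obtain ⟨f1, f2⟩ := a_succ hg.three_le hg.ca f
  have tu := tng_unit hg.three_le hg.ca f
  have hf1 : f + 1 - 1 = f := by ring
  have front : ∀ l, l ≠ f + 1 → 0 < dt (tng a f) (a (f + 1) - a l) := by
    intro l hl'
    have h1 := (acute_both hg.three_le hg.ca hm l hl').2
    rw [hf1] at h1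
    have e : dt (a l - a (f + 1)) (a f - a (f + 1)) =
        len a f * dt (tng a f) (a (f + 1) - a l) := by
      unfold dt
      simp only [Complex.sub_re, Complex.sub_im, f1, f2]
      ring
    rw [e] at h1
    exact (pos_iff_pos_of_mul_pos h1).mp hl
  have front' : ∀ l, 0 ≤ dt (tng a f) (a (f + 1) - a l) := by
    intro l
    by_cases h1 : l = f + 1
    · rw [h1]
      simp [dt]
    · exact (front l h1).le
  set A : ℝ := ∑ r ∈ Finset.range s, kp a b (j - (r + 1 : ℕ)) *
    dt (tng a f) (a (f + 1) - a (j - (r + 1 : ℕ) + 1)) with hA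
  set K : ℝ := ∑ r ∈ Finset.range s, kp a b (j - (r + 1 : ℕ)) with hK
  have hApos : 0 < A := by
    rw [hA]
    apply Finset.sum_pos'
    · intro r _
      exact mul_nonneg (kp_pos hg _).le (front' _)
    · refine ⟨0, Finset.mem_range.mpr (by omega), ?_⟩
      apply mul_pos (kp_pos hg _)
      apply front
      intro h0
      apply hne
      rw [← h0]
      simp
  have hKnn : 0 ≤ K := Finset.sum_nonneg fun r _ => (kp_pos hg _).le
  obtain ⟨τ, h1, h2, h3⟩ := exists_tau hg f hApos hKnn
  refine ⟨ept a f (len a f - τ), ept_segment hg f _ (by linarith) (by linarith), ?_⟩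
  obtain ⟨c1, c2⟩ := comp_tendsto (fun r => a (j - (r + 1 : ℕ) + 1))
    (fun r h => rh a b h (j - (r + 1 : ℕ))) (fun r => -kp a b (j - (r + 1 : ℕ)))
    (fun r => rh_tendsto hg (j - (r + 1 : ℕ))) (ept a f (len a f - τ))
    (fun s h => Nb a b h j s (ept a f (len a f - τ)))
    (fun h => rfl) (fun r h => rfl) s
  refine ev_core hg f (len a f - τ) (by linarith) (by linarith) _ _ c2 c1 ?_
  rw [dt_sum]
  have e : ∑ r ∈ Finset.range s, dt (nrm a f) (I * ((-kp a b (j - (r + 1 : ℕ)) : ℝ) : ℂ) *
      (ept a f (len a f - τ) - a (j - (r + 1 : ℕ) + 1))) = A - τ * K := by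
    rw [hA, hK, Finset.mul_sum, ← Finset.sum_sub_distrib]
    apply Finset.sum_congr rfl
    intro r _
    rw [dt_I]
    unfold dt ept
    simp only [Complex.add_re, Complex.add_im, Complex.mul_re, Complex.mul_im, Complex.ofReal_re,
      Complex.ofReal_im, Complex.sub_re, Complex.sub_im, f1, f2]
    linear_combination (-(kp a b (j - (r + 1 : ℕ)) * τ)) * tu
  rw [e]
  linarith

end core

/-- The planar overlap criterion. -/
lemma overlap_core {P : Prismoid n} (hP : Nest P) {T : Space → ℂ} {S : ℂ → ℂ} (hS : IsFrame S)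
    (hTop : ∀ x ∈ P.topFace, T x = S (chT x)) {f : Space → ℂ} {m : ZMod n} {M : ℂ → ℂ}
    (hM : IsFrame (fun z => S (M z))) (hF : Fr P f (fun z => S (M z)) m) {x0 y0 : ℂ}
    (hxy : M y0 = x0) (hx0 : x0 ∈ segment ℝ (P.a m) (P.a (m + 1)))
    (h1 : 0 < side (P.a m) (gb P.a P.b P.h m) y0)
    (h2 : 0 < side (gb P.a P.b P.h m) (P.a (m + 1)) y0)
    (h3 : 0 < side (P.a (m + 1)) (P.a m) y0) :
    (interior (T '' P.topFace) ∩ interior (f '' P.lateral m)).Nonempty := by
  have hn := P.three_le
  obtain ⟨Sa, hSa⟩ := hS.affine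
  obtain ⟨Ma, hMa⟩ := hM.affine
  -- the image of the top
  have eT : T '' P.topFace = convexHull ℝ (Set.range fun k => S (P.a k)) := by
    have e : T '' P.topFace = (Sa.comp chT) '' P.topFace := by
      apply Set.image_congr
      intro x hx
      rw [hTop x hx, AffineMap.comp_apply, hSa]
    rw [e]
    unfold Prismoid.topFace
    rw [AffineMap.image_convexHull, ← Set.range_comp]
    congr 2
    funext k
    rw [Function.comp_apply, AffineMap.comp_apply, hSa, chT_A]
  have hconv : Convex ℝ (T '' P.topFace) := by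
    rw [eT]
    exact convex_convexHull ℝ _
  -- nonempty interior
  have hint : (interior (T '' P.topFace)).Nonempty := by
    have hs := P.convex_a m (m + 1 + 1) (ne_succ2 hn m) (ne_succ hn (m + 1))
    set p := P.a m with hp
    set q := P.a (m + 1) with hq
    set r := P.a (m + 1 + 1) with hr
    have g1 : 0 < side p q ((p + q + r) / 3) := by
      have : side p q ((p + q + r) / 3) = side p q r / 3 := by
        unfold side
        rw [show ((p + q + r) / 3).re = (p.re + q.re + r.re) / 3 by simp,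
          show ((p + q + r) / 3).im = (p.im + q.im + r.im) / 3 by simp]
        ring
      rw [this]
      positivity
    have g2 : 0 < side q r ((p + q + r) / 3) := by
      have : side q r ((p + q + r) / 3) = side p q r / 3 := by
        unfold side
        rw [show ((p + q + r) / 3).re = (p.re + q.re + r.re) / 3 by simp,
          show ((p + q + r) / 3).im = (p.im + q.im + r.im) / 3 by simp]
        ring
      rw [this]
      positivity
    have g3 : 0 < side r p ((p + q + r) / 3) := by
      have : side r p ((p + q + r) / 3) = side p q r / 3 := by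
        unfold side
        rw [show ((p + q + r) / 3).re = (p.re + q.re + r.re) / 3 by simp,
          show ((p + q + r) / 3).im = (p.im + q.im + r.im) / 3 by simp]
        ring
      rw [this]
      positivity
    refine ⟨S ((p + q + r) / 3), interior_mono ?_ (framed_interior hS g1 g2 g3)⟩
    rw [eT]
    apply convexHull_mono
    intro w hw
    simp only [Set.mem_insert_iff, Set.mem_singleton_iff] at hw
    rcases hw with rfl | rfl | rfl
    · exact ⟨m, rfl⟩
    · exact ⟨m + 1, rfl⟩
    · exact ⟨m + 1 + 1, rfl⟩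
  have hcl := hconv.closure_interior_eq_closure_of_nonempty_interior hint
  have hmem : S x0 ∈ T '' P.topFace := by
    have hsub : S x0 ∈ segment ℝ (S (P.a m)) (S (P.a (m + 1))) := by
      have := Set.mem_image_of_mem Sa hx0
      rw [image_segment] at this
      rw [← hSa, ← hSa, ← hSa]
      exact this
    refine hconv.segment_subset ?_ ?_ hsub
    · rw [eT]
      exact subset_convexHull ℝ _ ⟨m, rfl⟩
    · rw [eT]
      exact subset_convexHull ℝ _ ⟨m + 1, rfl⟩
  have hclo : S x0 ∈ closure (interior (T '' P.topFace)) := by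
    rw [hcl]
    exact subset_closure hmem
  -- the lateral face
  have hopen : S x0 ∈ interior (f '' P.lateral m) := by
    have hmemi := framed_interior hM h1 h2 h3
    rw [hxy] at hmemi
    refine interior_mono ?_ hmemi
    have e : f '' P.lateral m = (Ma.comp (chG P m)) '' P.lateral m := by
      apply Set.image_congr
      intro x hx
      rw [hF x hx, AffineMap.comp_apply, hMa]
    rw [e]
    unfold Prismoid.lateral
    rw [AffineMap.image_convexHull]
    apply convexHull_mono
    intro w hw
    simp only [Set.mem_insert_iff, Set.mem_singleton_iff] at hw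
    rcases hw with rfl | rfl | rfl
    · exact ⟨P.A m, by simp, by rw [AffineMap.comp_apply, hMa, chG_A]⟩
    · exact ⟨P.B m, by simp, by rw [AffineMap.comp_apply, hMa, chG_B hP]⟩
    · exact ⟨P.A (m + 1), by simp, by rw [AffineMap.comp_apply, hMa, chG_A' hP]⟩
  obtain ⟨z, hz1, hz2⟩ := mem_closure_iff.mp hclo _ isOpen_interior hopen
  exact ⟨z, hz2, hz1⟩

/-- Three pairwise non-adjacent acute vertices. -/
def ThreeAcute (a : ZMod n → ℂ) : Prop :=
  ∃ p q r : ZMod n, Acute a p ∧ Acute a q ∧ Acute a r ∧ p ≠ q ∧ q ≠ r ∧ r ≠ p ∧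
    q ≠ p + 1 ∧ p ≠ q + 1 ∧ r ≠ q + 1 ∧ q ≠ r + 1 ∧ p ≠ r + 1 ∧ r ≠ p + 1

lemma exists_target {a : ZMod n → ℂ} (h3 : ThreeAcute a) (i j : ZMod n) :
    ∃ m, Acute a m ∧ m ≠ j ∧ m ≠ j + 1 ∧ m ≠ i := by
  obtain ⟨p, q, r, hp, hq, hr, h1, h2, h3, h4, h5, h6, h7, h8, h9⟩ := h3
  by_contra hcon
  push Not at hcon
  have cp := hcon p hp
  have cq := hcon q hq
  have cr := hcon r hr
  by_cases p1 : p = j
  · have q1 : q ≠ j := fun h => h1 (p1.trans h.symm)
    have q2 : q ≠ j + 1 := by rw [← p1]; exact h4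
    have r1 : r ≠ j := fun h => h3 (h.trans p1.symm)
    have r2 : r ≠ j + 1 := by rw [← p1]; exact h9
    exact h2 ((cq q1 q2).trans (cr r1 r2).symm)
  by_cases p2 : p = j + 1
  · have q1 : q ≠ j := fun h => h5 (by rw [p2, h])
    have q2 : q ≠ j + 1 := fun h => h1 (p2.trans h.symm)
    have r1 : r ≠ j := fun h => h8 (by rw [p2, h])
    have r2 : r ≠ j + 1 := fun h => h3 (h.trans p2.symm)
    exact h2 ((cq q1 q2).trans (cr r1 r2).symm)
  have pi := cp p1 p2
  have qi : q ≠ i := fun h => h1 (pi.trans h.symm)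
  have ri : r ≠ i := fun h => h3 (h.trans pi.symm)
  have q12 : q = j ∨ q = j + 1 := by
    by_contra hq'
    push Not at hq'
    exact qi (cq hq'.1 hq'.2)
  have r12 : r = j ∨ r = j + 1 := by
    by_contra hr'
    push Not at hr'
    exact ri (cr hr'.1 hr'.2)
  rcases q12 with q1 | q1 <;> rcases r12 with r1 | r1
  · exact h2 (q1.trans r1.symm)
  · exact h6 (by rw [r1, q1])
  · exact h7 (by rw [r1, q1])
  · exact h2 (q1.trans r1.symm)

/-- All band unfoldings overlap for small heights. -/
theorem flat_overlap {a b : ZMod n → ℂ} (hg : Good a b) (h3 : ThreeAcute a) :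
    ∃ h0 : ℝ, 0 < h0 ∧ ∀ P : Prismoid n, P.a = a → P.b = b → P.h < h0 →
      ∀ (i j k : ZMod n) (T B : Space → ℂ) (F : ZMod n → Space → ℂ),
        IsBandUnfolding P i j k T B F →
          ∃ m, (interior (T '' P.topFace) ∩ interior (F m '' P.lateral m)).Nonempty := by
  have hn := hg.three_le
  have : NeZero n := ⟨by omega⟩
  have key : ∀ i j : ZMod n, ∀ᶠ h in 𝓝[>] (0 : ℝ), ∀ P : Prismoid n, P.a = a → P.b = b →
      P.h = h → ∀ (k : ZMod n) (T B : Space → ℂ) (F : ZMod n → Space → ℂ),
        IsBandUnfolding P i j k T B F →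
          ∃ m, (interior (T '' P.topFace) ∩ interior (F m '' P.lateral m)).Nonempty := by
    intro i j
    obtain ⟨m, hm, hmj, hmj1, hmi⟩ := exists_target h3 i j
    set s : ℕ := (m - j).val with hs
    set e : ℕ := (i - j).val with he
    have hsm : j + (s : ZMod n) = m := by
      rw [hs, ZMod.natCast_zmod_val]
      ring
    have hei : j + (e : ZMod n) = i := by
      rw [he, ZMod.natCast_zmod_val]
      ring
    have hsn : s < n := ZMod.val_lt _
    have hen : e < n := ZMod.val_lt _
    have hs0 : s ≠ 0 := by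
      intro h0
      apply hmj
      rw [← hsm, h0]
      simp
    have hse : e ≠ s := by
      intro h0
      apply hmi
      rw [← hsm, ← hei, h0]
    by_cases hcase : e = 0 ∨ s < e
    · -- forward
      have hm' : Acute a (j + s) := by rw [hsm]; exact hm
      obtain ⟨x0, hx0, hev⟩ := ev_fwd hg j s (by omega) hm' (by rw [hsm]; exact hmj1)
      filter_upwards [hev] with h hh P hPa hPb hPh k T B F hU
      subst hPa hPb hPh
      have hP : Nest P := hg.nest
      obtain ⟨S, hS, hTop, hF0⟩ := top_frame hP hU.top (hU.lateral j) hU.top_edge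
      have hcut : ∀ r : ℕ, r < s → j + r + 1 ≠ i := by
        intro r hr h0
        have : ((r + 1 : ℕ) : ZMod n) = i - j := by
          rw [← h0]
          push_cast
          ring
        have h5 : e = r + 1 := by
          rw [he, ← this, ZMod.val_natCast]
          exact Nat.mod_eq_of_lt (by omega)
        omega
      have hF := path_fwd hP hU hS hF0 s hcut
      exact ⟨j + s, overlap_core hP hS hTop (frame_Mf hP hS j s) hF (Mf_Nf hP j s x0) hx0
        hh.1 hh.2.1 hh.2.2⟩
    · -- backward
      push Not at hcase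
      have hes : e < s := by omega
      have hface : j - ((n - s + 1 : ℕ) : ZMod n) + 1 = m := by
        have : ((n - s + 1 : ℕ) : ZMod n) = -(s : ZMod n) + 1 := by
          rw [Nat.cast_add, Nat.cast_sub hsn.le]
          simp
        rw [this, ← hsm]
        ring
      have hm' : Acute a (j - ((n - s + 1 : ℕ) : ZMod n) + 1) := by rw [hface]; exact hm
      obtain ⟨x0, hx0, hev⟩ := ev_bwd hg j (n - s + 1) (by omega) hm' (by rw [hface]; exact hmj)
      filter_upwards [hev] with h hh P hPa hPb hPh k T B F hU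
      subst hPa hPb hPh
      have hP : Nest P := hg.nest
      obtain ⟨S, hS, hTop, hF0⟩ := top_frame hP hU.top (hU.lateral j) hU.top_edge
      have hcut : ∀ r : ℕ, r < n - s + 1 → j - r ≠ i := by
        intro r hr h0
        have h4 : (((n - r : ℕ)) : ZMod n) = i - j := by
          rw [← h0, Nat.cast_sub (by omega)]
          simp
        have h5 : e = (n - r) % n := by
          rw [he, ← h4, ZMod.val_natCast]
        by_cases hr0 : r = 0
        · rw [hr0, Nat.sub_zero, Nat.mod_self] at h5
          omega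
        · rw [Nat.mod_eq_of_lt (by omega)] at h5
          omega
      have hF := path_bwd hP hU hS hF0 (n - s + 1) hcut
      exact ⟨j - ((n - s + 1 : ℕ) : ZMod n), overlap_core hP hS hTop (frame_Mb hP hS j _) hF
        (Mb_Nb hP j _ x0) hx0 hh.1 hh.2.1 hh.2.2⟩
  have all : ∀ᶠ h in 𝓝[>] (0 : ℝ), ∀ i j : ZMod n, ∀ P : Prismoid n, P.a = a → P.b = b →
      P.h = h → ∀ (k : ZMod n) (T B : Space → ℂ) (F : ZMod n → Space → ℂ),
        IsBandUnfolding P i j k T B F →
          ∃ m, (interior (T '' P.topFace) ∩ interior (F m '' P.lateral m)).Nonempty := by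
    rw [Filter.eventually_all]
    intro i
    rw [Filter.eventually_all]
    intro j
    exact key i j
  obtain ⟨h0, hh0, hall⟩ := mem_nhdsGT_iff_exists_Ioo_subset.mp all
  refine ⟨h0, hh0, ?_⟩
  intro P hPa hPb hPh i j k T B F hU
  exact hall ⟨P.h_pos, hPh⟩ i j P hPa hPb rfl k T B F hU

end Pool.Agent.Work.MP_1500ab_co.Gen
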