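import Mathlib
import Pool.Agent.Work.MP_1500ab_co.G5

/-!
Existence of all band unfoldings of nested prismoids.
-/

namespace Pool.Agent.Work.MP_1500ab_co.Gen

open Complex

variable {n : ℕ}

lemma side_combo (p q u v : ℂ) {a b : ℝ} (hab : a + b = 1) :
    side p q (a • u + b • v) = a * side p q u + b * side p q v := by
  have hb : b = 1 - a := by linarith
  subst hb
  unfold side
  simp only [Complex.add_re, Complex.add_im, Complex.smul_re, Complex.smul_im, smul_eq_mul]
  ring

lemma hull_le {f : Space →ᵃ[ℝ] ℂ} {s : Set Space} {p q : ℂ}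
    (h : ∀ v ∈ s, side p q (f v) ≤ 0) : ∀ x ∈ convexHull ℝ s, side p q (f x) ≤ 0 := by
  have hc : Convex ℝ {x : Space | side p q (f x) ≤ 0} := by
    intro x hx y hy a b ha hb hab
    have h1 : f (a • x + b • y) = a • f x + b • f y := Convex.combo_affine_apply hab
    have hx' : side p q (f x) ≤ 0 := hx
    have hy' : side p q (f y) ≤ 0 := hy
    change side p q (f (a • x + b • y)) ≤ 0
    rw [h1, side_combo _ _ _ _ hab]
    nlinarith
  intro x hx
  exact convexHull_min (fun v hv => h v hv) hc hx

lemma hull_ge {f : Space →ᵃ[ℝ] ℂ} {s : Set Space} {p q : ℂ}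
    (h : ∀ v ∈ s, 0 ≤ side p q (f v)) : ∀ x ∈ convexHull ℝ s, 0 ≤ side p q (f x) := by
  have hc : Convex ℝ {x : Space | 0 ≤ side p q (f x)} := by
    intro x hx y hy a b ha hb hab
    have h1 : f (a • x + b • y) = a • f x + b • f y := Convex.combo_affine_apply hab
    have hx' : 0 ≤ side p q (f x) := hx
    have hy' : 0 ≤ side p q (f y) := hy
    change 0 ≤ side p q (f (a • x + b • y))
    rw [h1, side_combo _ _ _ _ hab]
    positivity
  intro x hx
  exact convexHull_min (fun v hv => h v hv) hc hx

/-- Affine maps which agree at the endpoints agree on the segment. -/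
lemma agree_segment {f g : Space →ᵃ[ℝ] ℂ} {p q : Space} (hp : f p = g p) (hq : f q = g q) :
    ∀ z ∈ segment ℝ p q, f z = g z := by
  rintro z ⟨a, b, _, _, hab, rfl⟩
  have h1 : f (a • p + b • q) = a • f p + b • f q := Convex.combo_affine_apply hab
  have h2 : g (a • p + b • q) = a • g p + b • g q := Convex.combo_affine_apply hab
  rw [h1, h2, hp, hq]

lemma develops_frame {S : ℂ → ℂ} (hS : IsFrame S) {f : Space → ℂ} {X : Set Space}
    (h : Develops f X) : Develops (fun x => S (f x)) X := by
  intro x hx y hy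
  rw [← h x hx y hy, dist_eq_norm, dist_eq_norm, hS.norm]

lemma side_self1 (p q : ℂ) : side p q p = 0 := by
  unfold side
  ring

lemma side_self2 (p q : ℂ) : side p q q = 0 := by
  unfold side
  ring

section hinges

variable {P : Prismoid n} (hP : Nest P)

include hP

lemma hinged_side {S : ℂ → ℂ} (hS : IsFrame S) (m : ZMod n) :
    Hinged (fun x => S (chG P m x)) (fun x => S (Rt P m (chG P (m + 1) x)))
      (P.lateral m) (P.lateral (m + 1)) (P.A (m + 1)) (P.B (m + 1)) := by
  obtain ⟨Ra, hRa⟩ := (frame_Rt hP frame_id m).affine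
  have hRa' : ∀ z, Ra z = Rt P m z := hRa
  refine ⟨?_, ?_⟩
  · intro z hz
    simp only
    congr 1
    have h1 := agree_segment (f := chG P m) (g := Ra.comp (chG P (m + 1)))
      (p := P.A (m + 1)) (q := P.B (m + 1)) ?_ ?_ z hz
    · rw [h1, AffineMap.comp_apply, hRa']
    · rw [AffineMap.comp_apply, hRa', chG_A' hP, chG_A, Rt_a]
    · rw [AffineMap.comp_apply, hRa', chG_B' hP, chG_B hP, Rt_b hP]
  · intro x hx y hy
    simp only
    rw [hS.side_mul, chG_A' hP, chG_B' hP]
    have e1 : side (P.a (m + 1)) (gb' P.a P.b P.h m) (Rt P m (chG P (m + 1) y)) =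
        side (P.a (m + 1)) (gb P.a P.b P.h (m + 1)) (chG P (m + 1) y) := by
      have := side_Rt hP m (P.a (m + 1)) (gb P.a P.b P.h (m + 1)) (chG P (m + 1) y)
      rw [Rt_a, Rt_b hP] at this
      exact this
    rw [e1]
    have s1 : side (P.a (m + 1)) (gb' P.a P.b P.h m) (chG P m x) ≤ 0 := by
      refine hull_le ?_ x hx
      intro v hv
      simp only [Set.mem_insert_iff, Set.mem_singleton_iff] at hv
      rcases hv with rfl | rfl | rfl | rfl
      · rw [chG_A]
        exact (side_left hP m).le
      · rw [chG_A' hP, side_self1]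
      · rw [chG_B' hP, side_self2]
      · rw [chG_B hP]
        exact (side_left_b hP m).le
    have s2 : 0 ≤ side (P.a (m + 1)) (gb P.a P.b P.h (m + 1)) (chG P (m + 1) y) := by
      refine hull_ge ?_ y hy
      intro v hv
      simp only [Set.mem_insert_iff, Set.mem_singleton_iff] at hv
      rcases hv with rfl | rfl | rfl | rfl
      · rw [chG_A, side_self1]
      · rw [chG_A' hP]
        exact (side_right hP (m + 1)).le
      · rw [chG_B' hP]
        exact (side_right_b hP (m + 1)).le
      · rw [chG_B hP, side_self2]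
    exact mul_nonpos_of_nonpos_of_nonneg s1 s2

lemma hinged_top {S : ℂ → ℂ} (hS : IsFrame S) (m : ZMod n) :
    Hinged (fun x => S (chT x)) (fun x => S (chG P m x)) P.topFace (P.lateral m)
      (P.A m) (P.A (m + 1)) := by
  refine ⟨?_, ?_⟩
  · intro z hz
    simp only
    congr 1
    refine agree_segment ?_ ?_ z hz
    · rw [chT_A, chG_A]
    · rw [chT_A, chG_A' hP]
  · intro x hx y hy
    simp only
    rw [hS.side_mul, chT_A, chT_A]
    have s1 : 0 ≤ side (P.a m) (P.a (m + 1)) (chT x) := by
      refine hull_ge ?_ x hx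
      rintro v ⟨l, rfl⟩
      rw [chT_A]
      by_cases h1 : l = m
      · rw [h1, side_self1]
      by_cases h2 : l = m + 1
      · rw [h2, side_self2]
      exact (P.convex_a m l h1 h2).le
    have s2 : side (P.a m) (P.a (m + 1)) (chG P m y) ≤ 0 := by
      refine hull_le ?_ y hy
      intro v hv
      simp only [Set.mem_insert_iff, Set.mem_singleton_iff] at hv
      rcases hv with rfl | rfl | rfl | rfl
      · rw [chG_A, side_self1]
      · rw [chG_A' hP, side_self2]
      · rw [chG_B' hP]
        exact (side_gb' hP m).le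
      · rw [chG_B hP]
        exact (side_gb hP m).le
    exact mul_nonpos_of_nonneg_of_nonpos s1 s2

/-- sides with respect to the base edge in the chart of the face `m` -/
lemma side_base (m : ZMod n) : ∃ L : ℝ, 0 < L ∧ ∀ z : ℂ,
    side (gb P.a P.b P.h m) (gb' P.a P.b P.h m) z =
      -(L * (dt (nrm P.a m) (z - P.a m) - sl P.a P.b P.h m)) := by
  obtain ⟨L, hL, h1, h2⟩ := b_succ hP.good m
  refine ⟨L, hL, fun z => ?_⟩
  rw [← dt_gb hP m]
  unfold side dt gb gb' nrm
  simp only [Complex.sub_re, Complex.sub_im, Complex.add_re, Complex.add_im, Complex.mul_re,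
    Complex.mul_im, Complex.ofReal_re, Complex.ofReal_im, h1, h2]
  ring

lemma dt_chB (m l : ZMod n) : dt (nrm P.a m) (chB P m (P.B l) - P.a m) =
    sl P.a P.b P.h m + (dd P.a P.b m - dt (nrm P.a m) (P.b l - P.a m)) := by
  have h1 := nrm_unit hP.good.three_le hP.good.ca m
  unfold dt
  simp only [Complex.sub_re, Complex.sub_im]
  rw [chB_re, chB_im, B_0, B_1]
  linear_combination (sl P.a P.b P.h m + dd P.a P.b m - 2 * ((nrm P.a m).re * ((P.b l).re -
    (P.a m).re) + (nrm P.a m).im * ((P.b l).im - (P.a m).im))) * h1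

lemma hinged_base {S : ℂ → ℂ} (hS : IsFrame S) (m : ZMod n) :
    Hinged (fun x => S (chB P m x)) (fun x => S (chG P m x)) P.baseFace (P.lateral m)
      (P.B m) (P.B (m + 1)) := by
  obtain ⟨L, hL, hside⟩ := side_base hP m
  refine ⟨?_, ?_⟩
  · intro z hz
    simp only
    congr 1
    refine agree_segment ?_ ?_ z hz
    · rw [chB_B, chG_B hP]
    · rw [chB_B' hP, chG_B' hP]
  · intro x hx y hy
    simp only
    rw [hS.side_mul, chB_B, chB_B' hP]
    have s1 : side (gb P.a P.b P.h m) (gb' P.a P.b P.h m) (chB P m x) ≤ 0 := by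
      refine hull_le ?_ x hx
      rintro v ⟨l, rfl⟩
      rw [hside, dt_chB hP]
      have := base_le hP.good m l
      have h2 : 0 ≤ L * (dd P.a P.b m - dt (nrm P.a m) (P.b l - P.a m)) :=
        mul_nonneg hL.le (by linarith)
      nlinarith
    have s2 : 0 ≤ side (gb P.a P.b P.h m) (gb' P.a P.b P.h m) (chG P m y) := by
      refine hull_ge ?_ y hy
      intro v hv
      have hsl := sl_pos hP.good (h := P.h) m
      simp only [Set.mem_insert_iff, Set.mem_singleton_iff] at hv
      rcases hv with rfl | rfl | rfl | rfl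
      · rw [chG_A, hside]
        have : dt (nrm P.a m) (P.a m - P.a m) = 0 := by simp [dt]
        rw [this]
        have : 0 < L * sl P.a P.b P.h m := by positivity
        linarith
      · rw [chG_A' hP, hside, inner_succ hP.good.three_le hP.good.ca]
        have : 0 < L * sl P.a P.b P.h m := by positivity
        linarith
      · rw [chG_B' hP, side_self2]
      · rw [chG_B hP, side_self1]
    exact mul_nonpos_of_nonpos_of_nonneg s1 s2

/-- All band unfoldings of a nested prismoid exist. -/
theorem exists_unf (i j k : ZMod n) :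
    ∃ (T B : Space → ℂ) (F : ZMod n → Space → ℂ), IsBandUnfolding P i j k T B F := by
  have hn := P.three_le
  have : NeZero n := ⟨by omega⟩
  have fr : ∀ s : ℕ, IsFrame (Mf P i s) := fun s => frame_Mf hP frame_id i s
  refine ⟨fun x => Mf P i (j - i).val (chT x), fun x => Mf P i (k - i).val (chB P k x),
    fun m x => Mf P i (m - i).val (chG P m x), ?_⟩
  refine ⟨develops_frame (fr _) (develops_chT P), develops_frame (fr _) (develops_chB hP k),
    fun m => develops_frame (fr _) (develops_chG hP m), ?_, hinged_top hP (fr _) j,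
    hinged_base hP (fr _) k⟩
  intro m hm
  obtain ⟨m', rfl⟩ : ∃ m', m = m' + 1 := ⟨m - 1, by ring⟩
  rw [add_sub_cancel_right]
  have h1 : (m' + 1 - i).val = (m' - i).val + 1 := by
    have hlt : (m' - i).val < n := ZMod.val_lt _
    have hlt2 : (m' - i).val + 1 ≠ n := by
      intro h0
      apply hm
      have : (((m' - i).val + 1 : ℕ) : ZMod n) = 0 := by
        rw [h0]
        simp
      rw [Nat.cast_add, ZMod.natCast_zmod_val] at this
      have h3 : m' + 1 - i = 0 := by
        rw [← this]
        push_cast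
        ring
      exact sub_eq_zero.mp h3
    have : ((((m' - i).val + 1 : ℕ)) : ZMod n) = m' + 1 - i := by
      rw [Nat.cast_add, ZMod.natCast_zmod_val]
      push_cast
      ring
    rw [← this, ZMod.val_natCast]
    exact Nat.mod_eq_of_lt (by omega)
  have h2 : i + (((m' - i).val : ℕ) : ZMod n) = m' := by
    rw [ZMod.natCast_zmod_val]
    ring
  have h3 : ∀ z, Mf P i (m' + 1 - i).val z = Mf P i (m' - i).val (Rt P m' z) := by
    intro z
    rw [h1]
    change Mf P i (m' - i).val (Rt P (i + ((m' - i).val : ℕ)) z) = _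
    rw [h2]
  have h4 := hinged_side hP (fr (m' - i).val) m'
  have h5 : (fun x => Mf P i (m' + 1 - i).val (chG P (m' + 1) x)) =
      fun x => Mf P i (m' - i).val (Rt P m' (chG P (m' + 1) x)) := by
    funext x
    rw [h3]
  rw [h5]
  exact h4

end hinges

end Pool.Agent.Work.MP_1500ab_co.Gen
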