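import Mathlib
import Pool.Agent.Work.MP_1500ab_co.G6

/-!
Explicit polygons with three non-adjacent acute angles, for every `n ≥ 6`.
-/

namespace Pool.Agent.Work.MP_1500ab_co.Gen

open Complex

/-- abscissas of the lower chain -/
noncomputable def xk (n k : ℕ) : ℝ := -1 + 2 * (k : ℝ) / ((n : ℝ) - 4)

/-- the vertices of the polygon, numbered from `0` to `n - 1` -/
noncomputable def wv (n k : ℕ) : ℂ :=
  if k < n - 3 then ⟨xk n k, (xk n k ^ 2 - 1) / 8⟩
  else if k = n - 3 then ⟨3 / 5, 9 / 10⟩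
  else if k = n - 2 then ⟨0, 7 / 4⟩
  else ⟨-3 / 5, 9 / 10⟩

/-- the polygon -/
noncomputable def va (n : ℕ) (i : ZMod n) : ℂ := wv n i.val

variable {n : ℕ} (hn : 6 ≤ n)

include hn

lemma den_pos : (0 : ℝ) < (n : ℝ) - 4 := by
  have : (6 : ℝ) ≤ (n : ℝ) := by exact_mod_cast hn
  linarith

lemma xk_lt {k l : ℕ} (h : k < l) : xk n k < xk n l := by
  have hd := den_pos hn
  have h1 : (k : ℝ) < (l : ℝ) := by exact_mod_cast h
  unfold xk
  have : 2 * (k : ℝ) / ((n : ℝ) - 4) < 2 * (l : ℝ) / ((n : ℝ) - 4) := by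
    gcongr
  linarith

omit hn in
lemma xk_zero : xk n 0 = -1 := by
  unfold xk
  simp

lemma xk_last : xk n (n - 4) = 1 := by
  have hd := den_pos hn
  unfold xk
  have : ((n - 4 : ℕ) : ℝ) = (n : ℝ) - 4 := by
    rw [Nat.cast_sub (by omega)]
    norm_num
  rw [this]
  field_simp
  norm_num

lemma xk_ge (k : ℕ) : -1 ≤ xk n k := by
  have hd := den_pos hn
  unfold xk
  have : 0 ≤ 2 * (k : ℝ) / ((n : ℝ) - 4) := by positivity
  linarith

lemma xk_le {k : ℕ} (hk : k < n - 3) : xk n k ≤ 1 := by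
  rw [← xk_last hn]
  rcases Nat.lt_or_ge k (n - 4) with h | h
  · exact (xk_lt hn h).le
  · have : k = n - 4 := by omega
    rw [this]

omit hn in
lemma wv_chain {k : ℕ} (hk : k < n - 3) : wv n k = ⟨xk n k, (xk n k ^ 2 - 1) / 8⟩ := by
  unfold wv
  rw [if_pos hk]

omit hn in
lemma wv_R (hn : 6 ≤ n) : wv n (n - 3) = ⟨3 / 5, 9 / 10⟩ := by
  unfold wv
  rw [if_neg (by omega), if_pos rfl]

lemma wv_T : wv n (n - 2) = ⟨0, 7 / 4⟩ := by
  unfold wv
  rw [if_neg (by omega), if_neg (by omega), if_pos rfl]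

lemma wv_L : wv n (n - 1) = ⟨-3 / 5, 9 / 10⟩ := by
  unfold wv
  rw [if_neg (by omega), if_neg (by omega), if_neg (by omega)]

/-- successor index -/
lemma val_succ (i : ZMod n) : (i + 1).val = if i.val = n - 1 then 0 else i.val + 1 := by
  have : NeZero n := ⟨by omega⟩
  have hlt : i.val < n := ZMod.val_lt _
  have h1 : ((i.val + 1 : ℕ) : ZMod n) = i + 1 := by
    rw [Nat.cast_add, ZMod.natCast_zmod_val]
    simp
  rw [← h1, ZMod.val_natCast]
  by_cases h : i.val = n - 1
  · rw [if_pos h, h]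
    have : n - 1 + 1 = n := by omega
    rw [this, Nat.mod_self]
  · rw [if_neg h]
    exact Nat.mod_eq_of_lt (by omega)

lemma succ_ne_iff (i k : ZMod n) (h : k ≠ i + 1) :
    k.val ≠ if i.val = n - 1 then 0 else i.val + 1 := by
  have : NeZero n := ⟨by omega⟩
  rw [← val_succ hn]
  intro h0
  exact h (ZMod.val_injective n h0)

/-- the centre of the homothety -/
noncomputable def cen : ℂ := ⟨0, 1 / 2⟩

/-- all sides are positive, for the other vertices and for the centre -/
lemma side_wv (p : ℕ) (hp : p < n) (z : ℂ)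
    (hz : z = cen ∨ ∃ k : ℕ, k < n ∧ k ≠ p ∧ k ≠ (if p = n - 1 then 0 else p + 1) ∧ z = wv n k) :
    0 < side (wv n p) (wv n (if p = n - 1 then 0 else p + 1)) z := by
  -- the possible points
  have hz' : z = cen ∨ (∃ k : ℕ, k < n - 3 ∧ k ≠ p ∧ k ≠ (if p = n - 1 then 0 else p + 1) ∧
      z = ⟨xk n k, (xk n k ^ 2 - 1) / 8⟩) ∨
      (n - 3 ≠ p ∧ n - 3 ≠ (if p = n - 1 then 0 else p + 1) ∧ z = ⟨3 / 5, 9 / 10⟩) ∨
      (n - 2 ≠ p ∧ n - 2 ≠ (if p = n - 1 then 0 else p + 1) ∧ z = ⟨0, 7 / 4⟩) ∨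
      (n - 1 ≠ p ∧ n - 1 ≠ (if p = n - 1 then 0 else p + 1) ∧ z = ⟨-3 / 5, 9 / 10⟩) := by
    rcases hz with h | ⟨k, hk, h1, h2, h3⟩
    · exact Or.inl h
    · right
      rcases Nat.lt_or_ge k (n - 3) with h4 | h4
      · left
        exact ⟨k, h4, h1, h2, by rw [h3, wv_chain h4]⟩
      right
      by_cases h5 : k = n - 3
      · left
        rw [h5] at h1 h2 h3
        exact ⟨h1, h2, by rw [h3, wv_R hn]⟩
      right
      by_cases h6 : k = n - 2
      · left
        rw [h6] at h1 h2 h3
        exact ⟨h1, h2, by rw [h3, wv_T hn]⟩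
      right
      have h7 : k = n - 1 := by omega
      rw [h7] at h1 h2 h3
      exact ⟨h1, h2, by rw [h3, wv_L hn]⟩
  clear hz
  rcases Nat.lt_or_ge p (n - 4) with hp1 | hp1
  · -- an edge of the chain
    rw [if_neg (by omega), wv_chain (by omega : p < n - 3), wv_chain (by omega : p + 1 < n - 3)]
    rw [if_neg (by omega)] at hz'
    have u1 := xk_ge hn p
    have u2 := xk_le hn (by omega : p < n - 3)
    have v1 := xk_ge hn (p + 1)
    have v2 := xk_le hn (by omega : p + 1 < n - 3)
    have huv := xk_lt hn (by omega : p < p + 1)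
    set u := xk n p with hu
    set v := xk n (p + 1) with hv
    have general : ∀ x y : ℝ, side ⟨u, (u ^ 2 - 1) / 8⟩ ⟨v, (v ^ 2 - 1) / 8⟩ ⟨x, y⟩ =
        (v - u) * (y + (1 - (u + v) * x + u * v) / 8) := by
      intro x y
      unfold side
      simp only
      ring
    have hvu : 0 < v - u := by linarith
    rcases hz' with h | ⟨k, h1, h2, h3, h4⟩ | ⟨_, _, h⟩ | ⟨_, _, h⟩ | ⟨_, _, h⟩
    · rw [h, cen, general]
      apply mul_pos hvu
      nlinarith
    · rw [h4, general]
      apply mul_pos hvu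
      have e : (xk n k ^ 2 - 1) / 8 + (1 - (u + v) * xk n k + u * v) / 8 =
          (xk n k - u) * (xk n k - v) / 8 := by ring
      rw [e]
      rcases Nat.lt_or_ge k p with h5 | h5
      · have q1 := xk_lt hn h5
        rw [← hu] at q1
        have : 0 < (u - xk n k) * (v - xk n k) := mul_pos (by linarith) (by linarith)
        nlinarith
      · have q1 := xk_lt hn (by omega : p + 1 < k)
        rw [← hv] at q1
        have : 0 < (xk n k - u) * (xk n k - v) := mul_pos (by linarith) (by linarith)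
        linarith
    · rw [h, general]
      apply mul_pos hvu
      nlinarith [mul_nonneg (by linarith : 0 ≤ 1 + u) (by linarith : 0 ≤ 1 + v),
        mul_nonneg (by linarith : 0 ≤ 1 - u) (by linarith : 0 ≤ 1 - v)]
    · rw [h, general]
      apply mul_pos hvu
      nlinarith [mul_nonneg (by linarith : 0 ≤ 1 + u) (by linarith : 0 ≤ 1 + v),
        mul_nonneg (by linarith : 0 ≤ 1 - u) (by linarith : 0 ≤ 1 - v)]
    · rw [h, general]
      apply mul_pos hvu
      nlinarith [mul_nonneg (by linarith : 0 ≤ 1 + u) (by linarith : 0 ≤ 1 + v),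
        mul_nonneg (by linarith : 0 ≤ 1 - u) (by linarith : 0 ≤ 1 - v)]
  by_cases hp2 : p = n - 4
  · -- the edge from the last vertex of the chain to R
    subst hp2
    have e1 : n - 4 + 1 = n - 3 := by omega
    rw [if_neg (by omega)] at hz' ⊢
    rw [e1] at hz' ⊢
    rw [wv_chain (by omega : n - 4 < n - 3), xk_last hn, wv_R hn]
    have general : ∀ x y : ℝ, side ⟨1, (1 ^ 2 - 1) / 8⟩ ⟨3 / 5, 9 / 10⟩ ⟨x, y⟩ =
        -(2 / 5) * y + 9 / 10 * (1 - x) := by
      intro x y
      unfold side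
      simp only
      ring
    rcases hz' with h | ⟨k, h1, h2, h3, h4⟩ | ⟨_, h0, h⟩ | ⟨_, _, h⟩ | ⟨_, _, h⟩
    · rw [h, cen, general]
      norm_num
    · rw [h4, general]
      have q1 := xk_ge hn k
      have q2 := xk_lt hn (by omega : k < n - 4)
      rw [xk_last hn] at q2
      nlinarith
    · exact absurd rfl h0
    · rw [h, general]
      norm_num
    · rw [h, general]
      norm_num
  by_cases hp3 : p = n - 3
  · subst hp3
    have e1 : n - 3 + 1 = n - 2 := by omega
    rw [if_neg (by omega)] at hz' ⊢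
    rw [e1] at hz' ⊢
    rw [wv_R hn, wv_T hn]
    have general : ∀ x y : ℝ, side ⟨3 / 5, 9 / 10⟩ ⟨0, 7 / 4⟩ ⟨x, y⟩ =
        -(3 / 5) * (y - 9 / 10) - 17 / 20 * (x - 3 / 5) := by
      intro x y
      unfold side
      simp only
      ring
    rcases hz' with h | ⟨k, h1, h2, h3, h4⟩ | ⟨h0, _, h⟩ | ⟨_, h0, h⟩ | ⟨_, _, h⟩
    · rw [h, cen, general]
      norm_num
    · rw [h4, general]
      have q1 := xk_ge hn k
      have q2 := xk_le hn h1
      nlinarith
    · exact absurd rfl h0
    · exact absurd rfl h0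
    · rw [h, general]
      norm_num
  by_cases hp4 : p = n - 2
  · subst hp4
    have e1 : n - 2 + 1 = n - 1 := by omega
    rw [if_neg (by omega)] at hz' ⊢
    rw [e1] at hz' ⊢
    rw [wv_T hn, wv_L hn]
    have general : ∀ x y : ℝ, side ⟨0, 7 / 4⟩ ⟨-3 / 5, 9 / 10⟩ ⟨x, y⟩ =
        -(3 / 5) * (y - 7 / 4) + 17 / 20 * x := by
      intro x y
      unfold side
      simp only
      ring
    rcases hz' with h | ⟨k, h1, h2, h3, h4⟩ | ⟨_, _, h⟩ | ⟨h0, _, h⟩ | ⟨_, h0, h⟩
    · rw [h, cen, general]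
      norm_num
    · rw [h4, general]
      have q1 := xk_ge hn k
      have q2 := xk_le hn h1
      nlinarith
    · rw [h, general]
      norm_num
    · exact absurd rfl h0
    · exact absurd rfl h0
  · have hp5 : p = n - 1 := by omega
    subst hp5
    rw [if_pos rfl] at hz' ⊢
    rw [wv_L hn, wv_chain (by omega : 0 < n - 3), xk_zero]
    have general : ∀ x y : ℝ, side ⟨-3 / 5, 9 / 10⟩ ⟨-1, ((-1) ^ 2 - 1) / 8⟩ ⟨x, y⟩ =
        -(2 / 5) * (y - 9 / 10) + 9 / 10 * (x + 3 / 5) := by
      intro x y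
      unfold side
      simp only
      ring
    rcases hz' with h | ⟨k, h1, h2, h3, h4⟩ | ⟨_, _, h⟩ | ⟨_, _, h⟩ | ⟨h0, _, h⟩
    · rw [h, cen, general]
      norm_num
    · rw [h4, general]
      have q1 := xk_lt hn (by omega : 0 < k)
      rw [xk_zero] at q1
      have q2 := xk_le hn h1
      nlinarith
    · rw [h, general]
      norm_num
    · rw [h, general]
      norm_num
    · exact absurd rfl h0

lemma va_succ (i : ZMod n) : va n (i + 1) = wv n (if i.val = n - 1 then 0 else i.val + 1) := by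
  unfold va
  rw [val_succ hn]

lemma convex_va : IsConvexPolygon (va n) := by
  have : NeZero n := ⟨by omega⟩
  intro i k h1 h2
  rw [va_succ hn]
  refine side_wv hn i.val (ZMod.val_lt _) _ (Or.inr ⟨k.val, ZMod.val_lt _, ?_, ?_, rfl⟩)
  · intro h0
    exact h1 (ZMod.val_injective n h0)
  · exact succ_ne_iff hn i k h2

lemma cen_va (i : ZMod n) : 0 < side (va n i) (va n (i + 1)) cen := by
  have : NeZero n := ⟨by omega⟩
  rw [va_succ hn]
  exact side_wv hn i.val (ZMod.val_lt _) _ (Or.inl rfl)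

/-- the base polygon -/
noncomputable def vb (n : ℕ) (i : ZMod n) : ℂ := 2 * va n i - cen

omit hn in
lemma side_vb (i j k : ZMod n) : side (vb n i) (vb n j) (vb n k) =
    4 * side (va n i) (va n j) (va n k) := by
  unfold side vb
  simp only [Complex.sub_re, Complex.sub_im, Complex.mul_re, Complex.mul_im, Complex.re_ofNat,
    Complex.im_ofNat]
  ring

omit hn in
lemma side_vb_va (i j : ZMod n) (z : ℂ) : side (vb n i) (vb n j) z =
    2 * side (va n i) (va n j) z + 2 * side (va n i) (va n j) cen := by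
  unfold side vb
  simp only [Complex.sub_re, Complex.sub_im, Complex.mul_re, Complex.mul_im, Complex.re_ofNat,
    Complex.im_ofNat]
  ring

lemma good_va : Good (va n) (vb n) where
  three_le := by omega
  ca := convex_va hn
  cb := by
    intro i k h1 h2
    rw [side_vb]
    have := convex_va hn i k h1 h2
    linarith
  par := by
    intro i
    refine ⟨2, two_pos, ?_⟩
    unfold vb
    push_cast
    ring
  nest := by
    intro i k
    rw [side_vb_va]
    have h1 := cen_va hn i
    have h2 : 0 ≤ side (va n i) (va n (i + 1)) (va n k) := by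
      by_cases g1 : k = i
      · rw [g1]
        unfold side
        apply le_of_eq
        ring
      by_cases g2 : k = i + 1
      · rw [g2]
        unfold side
        apply le_of_eq
        ring
      exact (convex_va hn i k g1 g2).le
    linarith

omit hn in
lemma val_cast {k : ℕ} (hk : k < n) : ((k : ℕ) : ZMod n).val = k := by
  rw [ZMod.val_natCast]
  exact Nat.mod_eq_of_lt hk

lemma va_cast {k : ℕ} (hk : k < n) : va n (k : ZMod n) = wv n k := by
  unfold va
  rw [val_cast hk]

lemma cast_ne {k l : ℕ} (hk : k < n) (hl : l < n) (h : k ≠ l) : (k : ZMod n) ≠ (l : ZMod n) := by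
  intro h0
  apply h
  rw [← val_cast hk, ← val_cast hl, h0]

lemma three_acute_va : ThreeAcute (va n) := by
  have e0 : (0 : ZMod n) - 1 = ((n - 1 : ℕ) : ZMod n) := by
    rw [Nat.cast_sub (by omega)]
    simp
  have c1 : ((1 : ℕ) : ZMod n) = 1 := by simp
  have c0 : ((0 : ℕ) : ZMod n) = 0 := by simp
  have s4 : ((n - 4 : ℕ) : ZMod n) + 1 = ((n - 3 : ℕ) : ZMod n) := by
    rw [← c1, ← Nat.cast_add]
    congr 1
    omega
  have p4 : ((n - 4 : ℕ) : ZMod n) - 1 = ((n - 5 : ℕ) : ZMod n) := by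
    rw [sub_eq_iff_eq_add, ← c1, ← Nat.cast_add]
    congr 1
    omega
  have s2 : ((n - 2 : ℕ) : ZMod n) + 1 = ((n - 1 : ℕ) : ZMod n) := by
    rw [← c1, ← Nat.cast_add]
    congr 1
    omega
  have p2 : ((n - 2 : ℕ) : ZMod n) - 1 = ((n - 3 : ℕ) : ZMod n) := by
    rw [sub_eq_iff_eq_add, ← c1, ← Nat.cast_add]
    congr 1
    omega
  refine ⟨((0 : ℕ) : ZMod n), ((n - 4 : ℕ) : ZMod n), ((n - 2 : ℕ) : ZMod n), ?_, ?_, ?_, ?_, ?_,
    ?_, ?_, ?_, ?_, ?_, ?_, ?_⟩
  · unfold Acute
    have w0 : va n (0 : ZMod n) = wv n 0 := by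
      have := va_cast hn (by omega : 0 < n)
      rwa [c0] at this
    have w1 : va n (1 : ZMod n) = wv n 1 := by
      have := va_cast hn (by omega : 1 < n)
      rwa [c1] at this
    rw [c0, e0, zero_add, w0, w1, va_cast hn (by omega : n - 1 < n), wv_L hn,
      wv_chain (by omega : 0 < n - 3), wv_chain (by omega : 1 < n - 3), xk_zero]
    have q1 := xk_lt hn (by omega : 0 < 1)
    rw [xk_zero] at q1
    have q2 := xk_le hn (by omega : 1 < n - 3)
    simp only [Complex.sub_re, Complex.sub_im]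
    nlinarith
  · unfold Acute
    rw [s4, p4, va_cast hn (by omega : n - 5 < n), va_cast hn (by omega : n - 4 < n),
      va_cast hn (by omega : n - 3 < n), wv_R hn, wv_chain (by omega : n - 5 < n - 3),
      wv_chain (by omega : n - 4 < n - 3), xk_last hn]
    have q1 := xk_ge hn (n - 5)
    have q2 := xk_lt hn (by omega : n - 5 < n - 4)
    rw [xk_last hn] at q2
    simp only [Complex.sub_re, Complex.sub_im]
    nlinarith
  · unfold Acute
    rw [s2, p2, va_cast hn (by omega : n - 1 < n), va_cast hn (by omega : n - 2 < n),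
      va_cast hn (by omega : n - 3 < n), wv_R hn, wv_T hn, wv_L hn]
    simp only [Complex.sub_re, Complex.sub_im]
    norm_num
  · exact cast_ne hn (by omega) (by omega) (by omega)
  · exact cast_ne hn (by omega) (by omega) (by omega)
  · exact cast_ne hn (by omega) (by omega) (by omega)
  · rw [c0, zero_add, ← c1]
    exact cast_ne hn (by omega) (by omega) (by omega)
  · rw [s4]
    exact cast_ne hn (by omega) (by omega) (by omega)
  · rw [s4]
    exact cast_ne hn (by omega) (by omega) (by omega)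
  · rw [s2]
    exact cast_ne hn (by omega) (by omega) (by omega)
  · rw [s2]
    exact cast_ne hn (by omega) (by omega) (by omega)
  · rw [c0, zero_add, ← c1]
    exact cast_ne hn (by omega) (by omega) (by omega)

/-- For every `n ≥ 6` there are prismoids all of whose band unfoldings overlap. -/
theorem exists_prismoid : ∃ P : Prismoid n, Nest P ∧ ∀ (i j k : ZMod n) (T B : Space → ℂ)
    (F : ZMod n → Space → ℂ), IsBandUnfolding P i j k T B F →
      ∃ m, (interior (T '' P.topFace) ∩ interior (F m '' P.lateral m)).Nonempty := by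
  have hg := good_va hn
  obtain ⟨h0, hh0, hall⟩ := flat_overlap hg (three_acute_va hn)
  refine ⟨⟨va n, vb n, h0 / 2, by omega, by linarith, hg.ca, hg.cb, hg.par⟩, hg.nest, ?_⟩
  intro i j k T B F hU
  exact hall _ rfl rfl (by simp only; linarith) i j k T B F hU

end Pool.Agent.Work.MP_1500ab_co.Gen
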