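import Mathlib
import Pool.Agent.Work.MP_1500ab_co.Plane

/-!
The explicit frustum.  The top hexagon is circumscribed about the unit circle; the edge from
`av m` to `av (m+1)` touches the circle at `nv m`, and `xv m` is the length of the tangent from
`av m`.  The base hexagon is `2 * av m`, and the height is `5/12`.
-/

namespace Pool.Agent.Work.MP_1500ab_co

/-- tangent lengths -/
noncomputable def xv : ZMod 6 → ℝ := ![4/3, 2/23, 3/2, 1/8, 5/4, 1/8]

/-- touching points of the edges -/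
noncomputable def nv : ZMod 6 → ℂ :=
  ![⟨1, 0⟩, ⟨525/533, 92/533⟩, ⟨-3729/6929, 5840/6929⟩, ⟨-1943/2665, 1824/2665⟩,
    ⟨-33/65, -56/65⟩, ⟨-7/25, -24/25⟩]

/-- vertices of the top hexagon -/
noncomputable def av : ZMod 6 → ℂ :=
  ![⟨1, -4/3⟩, ⟨1, 2/23⟩, ⟨387/533, 1759/1066⟩, ⟨-343/533, 3307/4264⟩, ⟨-103/65, -59/260⟩,
    ⟨-2/5, -37/40⟩]

lemma xv0 : xv 0 = 4/3 := rfl
lemma xv1 : xv 1 = 2/23 := rfl
lemma xv2 : xv 2 = 3/2 := rfl
lemma xv3 : xv 3 = 1/8 := rfl
lemma xv4 : xv 4 = 5/4 := rfl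
lemma xv5 : xv 5 = 1/8 := rfl
lemma nv0 : nv 0 = ⟨1, 0⟩ := rfl
lemma nv1 : nv 1 = ⟨525/533, 92/533⟩ := rfl
lemma nv2 : nv 2 = ⟨-3729/6929, 5840/6929⟩ := rfl
lemma nv3 : nv 3 = ⟨-1943/2665, 1824/2665⟩ := rfl
lemma nv4 : nv 4 = ⟨-33/65, -56/65⟩ := rfl
lemma nv5 : nv 5 = ⟨-7/25, -24/25⟩ := rfl
lemma av0 : av 0 = ⟨1, -4/3⟩ := rfl
lemma av1 : av 1 = ⟨1, 2/23⟩ := rfl
lemma av2 : av 2 = ⟨387/533, 1759/1066⟩ := rfl
lemma av3 : av 3 = ⟨-343/533, 3307/4264⟩ := rfl
lemma av4 : av 4 = ⟨-103/65, -59/260⟩ := rfl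
lemma av5 : av 5 = ⟨-2/5, -37/40⟩ := rfl

lemma zmod6_forall {p : ZMod 6 → Prop} (h0 : p 0) (h1 : p 1) (h2 : p 2) (h3 : p 3) (h4 : p 4)
    (h5 : p 5) : ∀ i, p i := by
  intro i
  fin_cases i
  · exact h0
  · exact h1
  · exact h2
  · exact h3
  · exact h4
  · exact h5

lemma a01 : (0 : ZMod 6) + 1 = 1 := rfl
lemma a11 : (1 : ZMod 6) + 1 = 2 := rfl
lemma a21 : (2 : ZMod 6) + 1 = 3 := rfl
lemma a31 : (3 : ZMod 6) + 1 = 4 := rfl
lemma a41 : (4 : ZMod 6) + 1 = 5 := rfl
lemma a51 : (5 : ZMod 6) + 1 = 0 := rfl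

lemma xv_pos : ∀ m, 0 < xv m := by
  apply zmod6_forall
  · rw [xv0]; norm_num
  · rw [xv1]; norm_num
  · rw [xv2]; norm_num
  · rw [xv3]; norm_num
  · rw [xv4]; norm_num
  · rw [xv5]; norm_num

lemma nv_unit : ∀ m, (nv m).re ^ 2 + (nv m).im ^ 2 = 1 := by
  apply zmod6_forall
  · rw [nv0]; norm_num
  · rw [nv1]; norm_num
  · rw [nv2]; norm_num
  · rw [nv3]; norm_num
  · rw [nv4]; norm_num
  · rw [nv5]; norm_num

/-- coordinates of the start vertex of edge `m` in the frame of edge `m` -/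
lemma av_eq : ∀ m, (av m).re = (nv m).re + (nv m).im * xv m ∧
    (av m).im = (nv m).im - (nv m).re * xv m := by
  apply zmod6_forall
  · rw [nv0, av0, xv0]; norm_num
  · rw [nv1, av1, xv1]; norm_num
  · rw [nv2, av2, xv2]; norm_num
  · rw [nv3, av3, xv3]; norm_num
  · rw [nv4, av4, xv4]; norm_num
  · rw [nv5, av5, xv5]; norm_num

/-- coordinates of the end vertex of edge `m` in the frame of edge `m` -/
lemma av_succ_eq : ∀ m, (av (m + 1)).re = (nv m).re - (nv m).im * xv (m + 1) ∧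
    (av (m + 1)).im = (nv m).im + (nv m).re * xv (m + 1) := by
  apply zmod6_forall
  · rw [a01, nv0, av1, xv1]; norm_num
  · rw [a11, nv1, av2, xv2]; norm_num
  · rw [a21, nv2, av3, xv3]; norm_num
  · rw [a31, nv3, av4, xv4]; norm_num
  · rw [a41, nv4, av5, xv5]; norm_num
  · rw [a51, nv5, av0, xv0]; norm_num

/-- every other vertex lies strictly on the inner side of edge `m` -/
lemma av_inner : ∀ m k, k ≠ m → k ≠ m + 1 →
    (av k).re * (nv m).re + (av k).im * (nv m).im < 1 := by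
  apply zmod6_forall
  · apply zmod6_forall
    · intro h; exact absurd rfl h
    · intro _ h; exact absurd rfl h
    · intro _ _; rw [nv0, av2]; norm_num
    · intro _ _; rw [nv0, av3]; norm_num
    · intro _ _; rw [nv0, av4]; norm_num
    · intro _ _; rw [nv0, av5]; norm_num
  · apply zmod6_forall
    · intro _ _; rw [nv1, av0]; norm_num
    · intro h; exact absurd rfl h
    · intro _ h; exact absurd rfl h
    · intro _ _; rw [nv1, av3]; norm_num
    · intro _ _; rw [nv1, av4]; norm_num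
    · intro _ _; rw [nv1, av5]; norm_num
  · apply zmod6_forall
    · intro _ _; rw [nv2, av0]; norm_num
    · intro _ _; rw [nv2, av1]; norm_num
    · intro h; exact absurd rfl h
    · intro _ h; exact absurd rfl h
    · intro _ _; rw [nv2, av4]; norm_num
    · intro _ _; rw [nv2, av5]; norm_num
  · apply zmod6_forall
    · intro _ _; rw [nv3, av0]; norm_num
    · intro _ _; rw [nv3, av1]; norm_num
    · intro _ _; rw [nv3, av2]; norm_num
    · intro h; exact absurd rfl h
    · intro _ h; exact absurd rfl h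
    · intro _ _; rw [nv3, av5]; norm_num
  · apply zmod6_forall
    · intro _ _; rw [nv4, av0]; norm_num
    · intro _ _; rw [nv4, av1]; norm_num
    · intro _ _; rw [nv4, av2]; norm_num
    · intro _ _; rw [nv4, av3]; norm_num
    · intro h; exact absurd rfl h
    · intro _ h; exact absurd rfl h
  · apply zmod6_forall
    · intro _ h; exact absurd rfl h
    · intro _ _; rw [nv5, av1]; norm_num
    · intro _ _; rw [nv5, av2]; norm_num
    · intro _ _; rw [nv5, av3]; norm_num
    · intro _ _; rw [nv5, av4]; norm_num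
    · intro h; exact absurd rfl h

lemma side_av (m : ZMod 6) (z : ℂ) : side (av m) (av (m + 1)) z =
    (xv m + xv (m + 1)) * (1 - (z.re * (nv m).re + z.im * (nv m).im)) := by
  obtain ⟨h1, h2⟩ := av_eq m
  obtain ⟨h3, h4⟩ := av_succ_eq m
  have h5 := nv_unit m
  unfold side
  rw [h1, h2, h3, h4]
  linear_combination (xv m + xv (m + 1)) * h5

lemma convex_av : IsConvexPolygon av := by
  intro i k h1 h2
  rw [side_av]
  have h3 := av_inner i k h1 h2
  have h4 := xv_pos i
  have h5 := xv_pos (i + 1)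
  apply mul_pos <;> linarith

/-- The frustum. -/
noncomputable def frustum : Prismoid 6 where
  a := av
  b := fun i => 2 * av i
  h := 5/12
  three_le := by norm_num
  h_pos := by norm_num
  convex_a := convex_av
  convex_b := by
    intro i k h1 h2
    have h3 := convex_av i k h1 h2
    have h4 : side (2 * av i) (2 * av (i + 1)) (2 * av k) = 4 * side (av i) (av (i + 1)) (av k) := by
      unfold side
      simp
      ring
    rw [h4]
    linarith
  parallel := by
    intro i
    refine ⟨2, two_pos, ?_⟩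
    push_cast
    ring

/-- slant distance from the apex to the top edges -/
noncomputable def Rr : ℝ := 13/12

/-- The rotation of the development at the side edge `m`. -/
noncomputable def rho (m : ZMod 6) : ℂ :=
  ⟨(Rr ^ 2 - xv m ^ 2) / (Rr ^ 2 + xv m ^ 2), 2 * Rr * xv m / (Rr ^ 2 + xv m ^ 2)⟩

lemma rho_den (m : ZMod 6) : Rr ^ 2 + xv m ^ 2 ≠ 0 := by
  unfold Rr
  positivity

lemma rho_unit (m : ZMod 6) : (rho m).re ^ 2 + (rho m).im ^ 2 = 1 := by
  have h := rho_den m
  unfold rho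
  simp only
  field_simp
  ring

lemma rho_conj_unit (m : ZMod 6) :
    ((starRingEnd ℂ) (rho m)).re ^ 2 + ((starRingEnd ℂ) (rho m)).im ^ 2 = 1 := by
  have h := rho_unit m
  simpa using h

lemma rho_mul (m : ZMod 6) : rho m * ⟨Rr, -xv m⟩ = ⟨Rr, xv m⟩ := by
  have h := rho_den m
  unfold rho
  apply Complex.ext
  · simp only [Complex.mul_re]
    field_simp
    ring
  · simp only [Complex.mul_im]
    field_simp
    ring

lemma rho_conj_mul (m : ZMod 6) : (starRingEnd ℂ) (rho m) * ⟨Rr, xv m⟩ = ⟨Rr, -xv m⟩ := by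
  have h := rho_den m
  unfold rho
  apply Complex.ext
  · simp only [Complex.mul_re, Complex.conj_re, Complex.conj_im]
    field_simp
    ring
  · simp only [Complex.mul_im, Complex.conj_re, Complex.conj_im]
    field_simp
    ring

end Pool.Agent.Work.MP_1500ab_co
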