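import Mathlib
import Pool.Agent.Work.MP_1500ab_co.Data

namespace Pool.Agent.Work.MP_1500ab_co

/-- The affine map of space to the plane with given real coefficients. -/
noncomputable def mkAff (p0 p1 p2 pc q0 q1 q2 qc : ℝ) : Space →ᵃ[ℝ] ℂ where
  toFun x := ⟨p0 * x 0 + p1 * x 1 + p2 * x 2 + pc, q0 * x 0 + q1 * x 1 + q2 * x 2 + qc⟩
  linear :=
    { toFun := fun x => ⟨p0 * x 0 + p1 * x 1 + p2 * x 2, q0 * x 0 + q1 * x 1 + q2 * x 2⟩
      map_add' := by
        intro x y
        apply Complex.ext <;> simp <;> ring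
      map_smul' := by
        intro c x
        apply Complex.ext <;> simp <;> ring }
  map_vadd' := by
    intro x v
    apply Complex.ext <;> simp <;> ring

lemma mkAff_re (p0 p1 p2 pc q0 q1 q2 qc : ℝ) (x : Space) :
    (mkAff p0 p1 p2 pc q0 q1 q2 qc x).re = p0 * x 0 + p1 * x 1 + p2 * x 2 + pc := rfl

lemma mkAff_im (p0 p1 p2 pc q0 q1 q2 qc : ℝ) (x : Space) :
    (mkAff p0 p1 p2 pc q0 q1 q2 qc x).im = q0 * x 0 + q1 * x 1 + q2 * x 2 + qc := rfl

/-- chart of the lateral face `m`, with the apex at the origin -/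
noncomputable def chart (m : ZMod 6) : Space →ᵃ[ℝ] ℂ :=
  mkAff ((nv m).re / Rr) ((nv m).im / Rr) (-(5/12) / Rr) (2 * (5/12) ^ 2 / Rr)
    (-(nv m).im) ((nv m).re) 0 0

/-- chart of the top face attached to the lateral face `m` -/
noncomputable def topChart (m : ZMod 6) : Space →ᵃ[ℝ] ℂ :=
  mkAff ((nv m).re) ((nv m).im) 0 (Rr - 1) (-(nv m).im) ((nv m).re) 0 0

/-- chart of the base face attached to the lateral face `m` -/
noncomputable def baseChart (m : ZMod 6) : Space →ᵃ[ℝ] ℂ :=
  mkAff (-(nv m).re) (-(nv m).im) 0 (2 * Rr + 2) (-(nv m).im) ((nv m).re) 0 0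

lemma pt_zero (z : ℂ) (t : ℝ) : (pt z t) 0 = z.re := rfl
lemma pt_one (z : ℂ) (t : ℝ) : (pt z t) 1 = z.im := rfl
lemma pt_two (z : ℂ) (t : ℝ) : (pt z t) 2 = t := rfl

lemma A_zero (m : ZMod 6) : (frustum.A m) 0 = (av m).re := rfl
lemma A_one (m : ZMod 6) : (frustum.A m) 1 = (av m).im := rfl
lemma A_two (m : ZMod 6) : (frustum.A m) 2 = 5/12 := rfl
lemma B_zero (m : ZMod 6) : (frustum.B m) 0 = 2 * (av m).re := by
  change (2 * av m).re = _
  simp
lemma B_one (m : ZMod 6) : (frustum.B m) 1 = 2 * (av m).im := by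
  change (2 * av m).im = _
  simp
lemma B_two (m : ZMod 6) : (frustum.B m) 2 = 0 := rfl

lemma chart_A (m : ZMod 6) : chart m (frustum.A m) = ⟨Rr, -xv m⟩ := by
  obtain ⟨h1, h2⟩ := av_eq m
  have h3 := nv_unit m
  apply Complex.ext
  · rw [chart, mkAff_re, A_zero, A_one, A_two, h1, h2]
    unfold Rr
    simp only
    field_simp
    linear_combination (144 : ℝ) * h3
  · rw [chart, mkAff_im, A_zero, A_one, A_two, h1, h2]
    simp only
    linear_combination (-xv m) * h3

lemma chart_A' (m : ZMod 6) : chart m (frustum.A (m + 1)) = ⟨Rr, xv (m + 1)⟩ := by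
  obtain ⟨h1, h2⟩ := av_succ_eq m
  have h3 := nv_unit m
  apply Complex.ext
  · rw [chart, mkAff_re, A_zero, A_one, A_two, h1, h2]
    unfold Rr
    simp only
    field_simp
    linear_combination (144 : ℝ) * h3
  · rw [chart, mkAff_im, A_zero, A_one, A_two, h1, h2]
    simp only
    linear_combination (xv (m + 1)) * h3

lemma chart_B (m : ZMod 6) : chart m (frustum.B m) = 2 * ⟨Rr, -xv m⟩ := by
  obtain ⟨h1, h2⟩ := av_eq m
  have h3 := nv_unit m
  apply Complex.ext
  · rw [chart, mkAff_re, B_zero, B_one, B_two, h1, h2]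
    unfold Rr
    simp only [Complex.mul_re, Complex.re_ofNat, Complex.im_ofNat]
    field_simp
    linear_combination (144 * 2 : ℝ) * h3
  · rw [chart, mkAff_im, B_zero, B_one, B_two, h1, h2]
    simp only [Complex.mul_im, Complex.re_ofNat, Complex.im_ofNat]
    linear_combination (-2 * xv m) * h3

lemma chart_B' (m : ZMod 6) : chart m (frustum.B (m + 1)) = 2 * ⟨Rr, xv (m + 1)⟩ := by
  obtain ⟨h1, h2⟩ := av_succ_eq m
  have h3 := nv_unit m
  apply Complex.ext
  · rw [chart, mkAff_re, B_zero, B_one, B_two, h1, h2]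
    unfold Rr
    simp only [Complex.mul_re, Complex.re_ofNat, Complex.im_ofNat]
    field_simp
    linear_combination (144 * 2 : ℝ) * h3
  · rw [chart, mkAff_im, B_zero, B_one, B_two, h1, h2]
    simp only [Complex.mul_im, Complex.re_ofNat, Complex.im_ofNat]
    linear_combination (2 * xv (m + 1)) * h3

lemma develops_of {f : Space → ℂ} {X : Set Space}
    (h : ∀ x ∈ X, ∀ y ∈ X, ((f x).re - (f y).re) ^ 2 + ((f x).im - (f y).im) ^ 2
      = (x 0 - y 0) ^ 2 + (x 1 - y 1) ^ 2 + (x 2 - y 2) ^ 2) : Develops f X := by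
  intro x hx y hy
  rw [Complex.dist_eq_re_im, EuclideanSpace.dist_eq, h x hx y hy]
  congr 1
  rw [Fin.sum_univ_three]
  simp only [Real.dist_eq, sq_abs]

lemma convex_plane (c0 c1 c2 d : ℝ) :
    Convex ℝ {x : Space | c0 * x 0 + c1 * x 1 + c2 * x 2 = d} := by
  intro x hx y hy a b _ _ hab
  simp only [Set.mem_ofPred_eq] at hx hy ⊢
  simp only [PiLp.add_apply, PiLp.smul_apply, smul_eq_mul]
  have : c0 * (a * x 0 + b * y 0) + c1 * (a * x 1 + b * y 1) + c2 * (a * x 2 + b * y 2)
      = a * (c0 * x 0 + c1 * x 1 + c2 * x 2) + b * (c0 * y 0 + c1 * y 1 + c2 * y 2) := by ring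
  rw [this, hx, hy, ← add_mul, hab, one_mul]

lemma lateral_plane (m : ZMod 6) : ∀ x ∈ frustum.lateral m,
    (5/12) * (nv m).re * x 0 + (5/12) * (nv m).im * x 1 + 1 * x 2 = 5/6 := by
  have h3 := nv_unit m
  have hsub : frustum.lateral m ⊆
      {x : Space | (5/12) * (nv m).re * x 0 + (5/12) * (nv m).im * x 1 + 1 * x 2 = 5/6} := by
    apply convexHull_min _ (convex_plane _ _ _ _)
    intro x hx
    simp only [Set.mem_insert_iff, Set.mem_singleton_iff] at hx
    simp only [Set.mem_ofPred_eq]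
    rcases hx with rfl | rfl | rfl | rfl
    · obtain ⟨h1, h2⟩ := av_eq m
      rw [A_zero, A_one, A_two, h1, h2]
      linear_combination (5/12 : ℝ) * h3
    · obtain ⟨h1, h2⟩ := av_succ_eq m
      rw [A_zero, A_one, A_two, h1, h2]
      linear_combination (5/12 : ℝ) * h3
    · obtain ⟨h1, h2⟩ := av_succ_eq m
      rw [B_zero, B_one, B_two, h1, h2]
      linear_combination (5/6 : ℝ) * h3
    · obtain ⟨h1, h2⟩ := av_eq m
      rw [B_zero, B_one, B_two, h1, h2]
      linear_combination (5/6 : ℝ) * h3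
  exact hsub

lemma top_plane : ∀ x ∈ frustum.topFace, x 2 = 5/12 := by
  have hsub : frustum.topFace ⊆ {x : Space | 0 * x 0 + 0 * x 1 + 1 * x 2 = 5/12} := by
    apply convexHull_min _ (convex_plane _ _ _ _)
    rintro x ⟨k, rfl⟩
    simp only [Set.mem_ofPred_eq]
    rw [A_two]
    norm_num
  intro x hx
  have := hsub hx
  simp only [Set.mem_ofPred_eq] at this
  linarith

lemma base_plane : ∀ x ∈ frustum.baseFace, x 2 = 0 := by
  have hsub : frustum.baseFace ⊆ {x : Space | 0 * x 0 + 0 * x 1 + 1 * x 2 = 0} := by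
    apply convexHull_min _ (convex_plane _ _ _ _)
    rintro x ⟨k, rfl⟩
    simp only [Set.mem_ofPred_eq]
    rw [B_two]
    norm_num
  intro x hx
  have := hsub hx
  simp only [Set.mem_ofPred_eq] at this
  linarith

lemma develops_chart (m : ZMod 6) : Develops (chart m) (frustum.lateral m) := by
  apply develops_of
  intro x hx y hy
  have h1 := lateral_plane m x hx
  have h2 := lateral_plane m y hy
  have h3 := nv_unit m
  rw [chart, mkAff_re, mkAff_re, mkAff_im, mkAff_im]
  have hx2 : x 2 = 5/6 - (5/12) * (nv m).re * x 0 - (5/12) * (nv m).im * x 1 := by linarith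
  have hy2 : y 2 = 5/6 - (5/12) * (nv m).re * y 0 - (5/12) * (nv m).im * y 1 := by linarith
  rw [hx2, hy2]
  unfold Rr
  set p := x 0 - y 0 with hp
  set q := x 1 - y 1 with hq
  have e0 : x 0 = y 0 + p := by rw [hp]; ring
  have e1 : x 1 = y 1 + q := by rw [hq]; ring
  rw [e0, e1]
  linear_combination (p ^ 2 + q ^ 2) * h3

lemma develops_topChart (m : ZMod 6) : Develops (topChart m) frustum.topFace := by
  apply develops_of
  intro x hx y hy
  have h1 := top_plane x hx
  have h2 := top_plane y hy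
  have h3 := nv_unit m
  rw [topChart, mkAff_re, mkAff_re, mkAff_im, mkAff_im, h1, h2]
  linear_combination ((x 0 - y 0) ^ 2 + (x 1 - y 1) ^ 2) * h3

lemma develops_baseChart (m : ZMod 6) : Develops (baseChart m) frustum.baseFace := by
  apply develops_of
  intro x hx y hy
  have h1 := base_plane x hx
  have h2 := base_plane y hy
  have h3 := nv_unit m
  rw [baseChart, mkAff_re, mkAff_re, mkAff_im, mkAff_im, h1, h2]
  linear_combination ((x 0 - y 0) ^ 2 + (x 1 - y 1) ^ 2) * h3

lemma A_mem (m : ZMod 6) : frustum.A m ∈ frustum.lateral m :=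
  subset_convexHull ℝ _ (by simp)

lemma A'_mem (m : ZMod 6) : frustum.A (m + 1) ∈ frustum.lateral m :=
  subset_convexHull ℝ _ (by simp)

lemma B_mem (m : ZMod 6) : frustum.B m ∈ frustum.lateral m :=
  subset_convexHull ℝ _ (by simp)

lemma B'_mem (m : ZMod 6) : frustum.B (m + 1) ∈ frustum.lateral m :=
  subset_convexHull ℝ _ (by simp)

lemma A_mem_top (k : ZMod 6) : frustum.A k ∈ frustum.topFace :=
  subset_convexHull ℝ _ ⟨k, rfl⟩

lemma B_mem_base (k : ZMod 6) : frustum.B k ∈ frustum.baseFace :=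
  subset_convexHull ℝ _ ⟨k, rfl⟩

/-- Two developments of the same face have the same distances. -/
lemma develops_norm {f g : Space → ℂ} {X : Set Space} (hf : Develops f X) (hg : Develops g X)
    {x y : Space} (hx : x ∈ X) (hy : y ∈ X) : ‖f x - f y‖ = ‖g x - g y‖ := by
  rw [← dist_eq_norm, ← dist_eq_norm, hf x hx y hy, hg x hx y hy]

end Pool.Agent.Work.MP_1500ab_co
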