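import Mathlib
import Pool.Agent.Work.MP_1500ab_co.Chart

namespace Pool.Agent.Work.MP_1500ab_co

/-- The placement `f` of the lateral face `m` is the standard one, moved by `S`. -/
structure Framed (f : Space → ℂ) (S : ℂ → ℂ) (m : ZMod 6) : Prop where
  a : f (frustum.A m) = S (chart m (frustum.A m))
  a' : f (frustum.A (m + 1)) = S (chart m (frustum.A (m + 1)))
  b : f (frustum.B m) = S (chart m (frustum.B m))
  b' : f (frustum.B (m + 1)) = S (chart m (frustum.B (m + 1)))

lemma Rr_pos : 0 < Rr := by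
  unfold Rr
  norm_num

/-- From three vertices to the whole face, forward version. -/
lemma framed_of_three {f : Space → ℂ} {S : ℂ → ℂ} (hS : IsFrame S) {m : ZMod 6}
    (hf : Develops f (frustum.lateral m))
    (ha : f (frustum.A m) = S (chart m (frustum.A m)))
    (ha' : f (frustum.A (m + 1)) = S (chart m (frustum.A (m + 1))))
    (hb : f (frustum.B m) = S (chart m (frustum.B m))) : Framed f S m := by
  refine ⟨ha, ha', hb, ?_⟩
  have hc := develops_chart m
  refine framed_three hS ha ha' hb ?_ (develops_norm hf hc (B'_mem m) (A_mem m))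
    (develops_norm hf hc (B'_mem m) (A'_mem m)) (develops_norm hf hc (B'_mem m) (B_mem m))
  rw [chart_A, chart_A', chart_B]
  have h1 := xv_pos m
  have h2 := xv_pos (m + 1)
  have h3 := Rr_pos
  unfold side
  simp only [Complex.mul_re, Complex.mul_im, Complex.re_ofNat, Complex.im_ofNat]
  have : (Rr - Rr) * (2 * -xv m + 0 * Rr - -xv m) - (xv (m + 1) - -xv m) * (2 * Rr - 0 * -xv m - Rr)
      = -((xv (m + 1) + xv m) * Rr) := by ring
  rw [this]
  have : 0 < (xv (m + 1) + xv m) * Rr := by positivity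
  linarith

/-- From three vertices to the whole face, backward version. -/
lemma framed_of_three' {f : Space → ℂ} {S : ℂ → ℂ} (hS : IsFrame S) {m : ZMod 6}
    (hf : Develops f (frustum.lateral m))
    (ha : f (frustum.A m) = S (chart m (frustum.A m)))
    (ha' : f (frustum.A (m + 1)) = S (chart m (frustum.A (m + 1))))
    (hb' : f (frustum.B (m + 1)) = S (chart m (frustum.B (m + 1)))) : Framed f S m := by
  refine ⟨ha, ha', ?_, hb'⟩
  have hc := develops_chart m
  refine framed_three hS ha ha' hb' ?_ (develops_norm hf hc (B_mem m) (A_mem m))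
    (develops_norm hf hc (B_mem m) (A'_mem m)) (develops_norm hf hc (B_mem m) (B'_mem m))
  rw [chart_A, chart_A', chart_B']
  have h1 := xv_pos m
  have h2 := xv_pos (m + 1)
  have h3 := Rr_pos
  unfold side
  simp only [Complex.mul_re, Complex.mul_im, Complex.re_ofNat, Complex.im_ofNat]
  have : (Rr - Rr) * (2 * xv (m + 1) + 0 * Rr - -xv m) -
      (xv (m + 1) - -xv m) * (2 * Rr - 0 * xv (m + 1) - Rr) = -((xv (m + 1) + xv m) * Rr) := by ring
  rw [this]
  have : 0 < (xv (m + 1) + xv m) * Rr := by positivity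
  linarith

/-- Existence of the initial frame. -/
theorem exists_frame {f : Space → ℂ} {m : ZMod 6} (hf : Develops f (frustum.lateral m)) :
    ∃ S, IsFrame S ∧ Framed f S m := by
  have hc := develops_chart m
  have hx := xv_pos m
  have hx' := xv_pos (m + 1)
  have hR := Rr_pos
  set p := f (frustum.A m) with hp
  set q := f (frustum.A (m + 1)) with hq
  set y := f (frustum.B m) with hy
  set l := xv m + xv (m + 1) with hl
  have hl0 : 0 < l := by rw [hl]; linarith
  -- distances
  have d1 := develops_norm hf hc (A'_mem m) (A_mem m)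
  have d2 := develops_norm hf hc (B_mem m) (A_mem m)
  have d3 := develops_norm hf hc (B_mem m) (A'_mem m)
  rw [← hp, ← hq, chart_A, chart_A'] at d1
  rw [← hp, ← hy, chart_A, chart_B] at d2
  rw [← hq, ← hy, chart_A', chart_B] at d3
  set P0 : ℂ := ⟨Rr, -xv m⟩ with hP0
  set Q0 : ℂ := ⟨Rr, xv (m + 1)⟩ with hQ0
  have hQP : Q0 - P0 = ⟨0, l⟩ := by
    apply Complex.ext
    · simp [hP0, hQ0]
    · simp [hP0, hQ0, hl]
      ring
  -- u = (q - p) / (i l)
  set u : ℂ := ⟨(q.im - p.im) / l, -((q.re - p.re) / l)⟩ with hu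
  have hqp : (q.re - p.re) ^ 2 + (q.im - p.im) ^ 2 = l ^ 2 := by
    rw [norm_eq_iff] at d1
    rw [d1, hP0, hQ0, hl]
    simp only
    ring
  have hu1 : u.re ^ 2 + u.im ^ 2 = 1 := by
    rw [hu]
    simp only
    field_simp
    linear_combination hqp
  have hu2 : u * (Q0 - P0) = q - p := by
    rw [hQP, hu]
    apply Complex.ext
    · simp only [Complex.mul_re, Complex.sub_re]
      field_simp
      ring
    · simp only [Complex.mul_im, Complex.sub_im]
      field_simp
      ring
  set S1 : ℂ → ℂ := fun z => (p - u * P0) + u * z with hS1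
  have hS1f : IsFrame S1 := ⟨u, p - u * P0, hu1, Or.inl fun z => rfl⟩
  have hS1P : S1 P0 = p := by
    rw [hS1]
    ring
  have hS1Q : S1 Q0 = q := by
    have : S1 Q0 = p + u * (Q0 - P0) := by
      rw [hS1]
      ring
    rw [this, hu2]
    ring
  obtain ⟨z0, hz0⟩ := hS1f.surj y
  set Y0 : ℂ := 2 * P0 with hY0
  have g2 : ‖z0 - P0‖ = ‖Y0 - P0‖ := by
    rw [← hz0, ← hS1P, hS1f.norm] at d2
    exact d2
  have g3 : ‖z0 - Q0‖ = ‖Y0 - Q0‖ := by
    rw [← hz0, ← hS1Q, hS1f.norm] at d3
    exact d3
  have hs0 : side P0 Q0 0 = l * Rr := by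
    unfold side
    simp only [hP0, hQ0, hl, Complex.zero_re, Complex.zero_im]
    ring
  have hsY : side P0 Q0 Y0 = -(l * Rr) := by
    unfold side
    simp only [hP0, hQ0, hl, hY0, Complex.mul_re, Complex.mul_im, Complex.re_ofNat,
      Complex.im_ofNat]
    ring
  have hlR : 0 < l * Rr := by positivity
  have hneg : side P0 Q0 0 * side P0 Q0 Y0 < 0 := by
    rw [hs0, hsY]
    nlinarith
  have hcA := chart_A m
  have hcA' := chart_A' m
  have hcB := chart_B m
  rcases le_or_gt (side P0 Q0 z0) 0 with hsz | hsz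
  · -- z0 = Y0
    have hzY : z0 = Y0 := by
      refine two_point hneg g2 g3 ?_
      rw [hs0]
      nlinarith
    refine ⟨S1, hS1f, framed_of_three hS1f hf ?_ ?_ ?_⟩
    · rw [hcA, hS1P]
    · rw [hcA', hS1Q]
    · rw [hcB, ← hY0, ← hzY, hz0]
  · -- z0 is the reflection of Y0
    set S2 : ℂ → ℂ := fun z => S1 (2 * Rr - (starRingEnd ℂ) z) with hS2
    have hS2f : IsFrame S2 := by
      refine ⟨-u, p - u * P0 + u * (2 * Rr), ?_, Or.inr fun z => ?_⟩
      · simp only [Complex.neg_re, Complex.neg_im]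
        linear_combination hu1
      · simp only [hS2, hS1]
        ring
    have hrP : 2 * (Rr : ℂ) - (starRingEnd ℂ) P0 = P0 := by
      apply Complex.ext <;> simp [hP0] <;> ring
    have hrQ : 2 * (Rr : ℂ) - (starRingEnd ℂ) Q0 = Q0 := by
      apply Complex.ext <;> simp [hQ0] <;> ring
    set z1 : ℂ := 2 * Rr - (starRingEnd ℂ) z0 with hz1
    have hz1re : z1.re = 2 * Rr - z0.re := by simp [hz1]
    have hz1im : z1.im = z0.im := by simp [hz1]
    have hz1r : 2 * (Rr : ℂ) - (starRingEnd ℂ) z1 = z0 := by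
      apply Complex.ext
      · simp [hz1re]
      · simp [hz1im]
    have hzY : z1 = Y0 := by
      refine two_point hneg ?_ ?_ ?_
      · rw [norm_eq_iff] at g2 ⊢
        rw [hz1re, hz1im, ← g2]
        simp only [hP0]
        ring
      · rw [norm_eq_iff] at g3 ⊢
        rw [hz1re, hz1im, ← g3]
        simp only [hQ0]
        ring
      · have : side P0 Q0 z1 = - side P0 Q0 z0 := by
          unfold side
          rw [hz1re, hz1im]
          simp only [hP0, hQ0]
          ring
        rw [hs0, this]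
        nlinarith
    refine ⟨S2, hS2f, framed_of_three hS2f hf ?_ ?_ ?_⟩
    · rw [hcA, hS2]
      simp only
      rw [hrP, hS1P]
    · rw [hcA', hS2]
      simp only
      rw [hrQ, hS1Q]
    · rw [hcB, ← hY0, ← hzY, hS2]
      simp only
      rw [hz1r, hz0]

/-- A framed placement is determined on the whole face. -/
lemma Framed.all {f : Space → ℂ} {S : ℂ → ℂ} (hS : IsFrame S) {m : ZMod 6}
    (hf : Develops f (frustum.lateral m)) (h : Framed f S m) :
    ∀ x ∈ frustum.lateral m, f x = S (chart m x) := by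
  intro x hx
  have hc := develops_chart m
  refine framed_three hS h.a h.a' h.b ?_ (develops_norm hf hc hx (A_mem m))
    (develops_norm hf hc hx (A'_mem m)) (develops_norm hf hc hx (B_mem m))
  rw [chart_A, chart_A', chart_B]
  have h1 := xv_pos m
  have h2 := xv_pos (m + 1)
  have h3 := Rr_pos
  unfold side
  simp only [Complex.mul_re, Complex.mul_im, Complex.re_ofNat, Complex.im_ofNat]
  have : (Rr - Rr) * (2 * -xv m + 0 * Rr - -xv m) - (xv (m + 1) - -xv m) * (2 * Rr - 0 * -xv m - Rr)
      = -((xv (m + 1) + xv m) * Rr) := by ring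
  rw [this]
  have : 0 < (xv (m + 1) + xv m) * Rr := by positivity
  linarith

/-- Propagation of frames from the face `m` to the face `m + 1`. -/
theorem forward {f g : Space → ℂ} {S : ℂ → ℂ} (hS : IsFrame S) {m : ZMod 6}
    (hg : Develops g (frustum.lateral (m + 1))) (hF : Framed f S m)
    (hh : Hinged f g (frustum.lateral m) (frustum.lateral (m + 1)) (frustum.A (m + 1))
      (frustum.B (m + 1))) :
    Framed g (fun z => S (rho (m + 1) * z)) (m + 1) := by
  have hS' := hS.mul (rho_unit (m + 1))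
  obtain ⟨h12, h3⟩ := hh
  have h1 := h12 _ (left_mem_segment ℝ _ _)
  have h2 := h12 _ (right_mem_segment ℝ _ _)
  have hc := develops_chart (m + 1)
  have hx := xv_pos m
  have hx1 := xv_pos (m + 1)
  have hx2 := xv_pos (m + 1 + 1)
  have hR := Rr_pos
  have ha : g (frustum.A (m + 1)) = (fun z => S (rho (m + 1) * z)) (chart (m + 1) (frustum.A (m + 1))) := by
    simp only
    rw [← h1, hF.a', chart_A, chart_A', rho_mul]
  have hb : g (frustum.B (m + 1)) = (fun z => S (rho (m + 1) * z)) (chart (m + 1) (frustum.B (m + 1))) := by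
    simp only
    rw [← h2, hF.b', chart_B, chart_B', mul_left_comm, rho_mul]
  refine framed_of_three hS' hg ha ?_ hb
  -- the new top vertex
  have hX : f (frustum.A m) = (fun z => S (rho (m + 1) * z))
      ((starRingEnd ℂ) (rho (m + 1)) * ⟨Rr, -xv m⟩) := by
    simp only
    rw [hF.a, chart_A, ← mul_assoc, unit_mul_conj (rho_unit (m + 1)), one_mul]
  refine framed_two hS' ha hb hX ?_ (develops_norm hg hc (A'_mem _) (A_mem _))
    (develops_norm hg hc (A'_mem _) (B_mem _)) ?_
  · rw [chart_A, chart_B, chart_A']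
    have e1 : ∀ Z : ℂ, side ⟨Rr, -xv (m + 1)⟩ (2 * ⟨Rr, -xv (m + 1)⟩) Z
        = Rr * Z.im + xv (m + 1) * Z.re := by
      intro Z
      unfold side
      simp only [Complex.mul_re, Complex.mul_im, Complex.re_ofNat, Complex.im_ofNat]
      ring
    rw [e1, e1]
    have e2 : Rr * ((starRingEnd ℂ) (rho (m + 1)) * ⟨Rr, -xv m⟩).im +
        xv (m + 1) * ((starRingEnd ℂ) (rho (m + 1)) * ⟨Rr, -xv m⟩).re
        = -(Rr * (xv (m + 1) + xv m)) := by
      have e3 := rho_conj_mul (m + 1)
      have e4 : ((starRingEnd ℂ) (rho (m + 1)) * ⟨Rr, xv (m + 1)⟩ * ⟨Rr, -xv m⟩).im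
          = ((⟨Rr, -xv (m + 1)⟩ : ℂ) * ⟨Rr, -xv m⟩).im := by rw [e3]
      simp only [Complex.mul_re, Complex.mul_im, Complex.conj_re, Complex.conj_im] at e4 ⊢
      linear_combination e4
    rw [e2]
    simp only
    have f1 : 0 < Rr * (xv (m + 1) + xv m) := by positivity
    have f2 : 0 < Rr * xv (m + 1 + 1) + xv (m + 1) * Rr := by positivity
    nlinarith
  · have h4 := h3 (frustum.A m) (A_mem m) (frustum.A (m + 1 + 1)) (A'_mem (m + 1))
    rw [h1, h2] at h4
    exact h4

/-- Propagation of frames from the face `m + 1` to the face `m`. -/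
theorem backward {f g : Space → ℂ} {S : ℂ → ℂ} (hS : IsFrame S) {m : ZMod 6}
    (hf : Develops f (frustum.lateral m)) (hG : Framed g S (m + 1))
    (hh : Hinged f g (frustum.lateral m) (frustum.lateral (m + 1)) (frustum.A (m + 1))
      (frustum.B (m + 1))) :
    Framed f (fun z => S ((starRingEnd ℂ) (rho (m + 1)) * z)) m := by
  have hS' := hS.mul (rho_conj_unit (m + 1))
  obtain ⟨h12, h3⟩ := hh
  have h1 := h12 _ (left_mem_segment ℝ _ _)
  have h2 := h12 _ (right_mem_segment ℝ _ _)
  have hc := develops_chart m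
  have hx := xv_pos m
  have hx1 := xv_pos (m + 1)
  have hx2 := xv_pos (m + 1 + 1)
  have hR := Rr_pos
  have ha : f (frustum.A (m + 1)) =
      (fun z => S ((starRingEnd ℂ) (rho (m + 1)) * z)) (chart m (frustum.A (m + 1))) := by
    simp only
    rw [h1, hG.a, chart_A, chart_A', rho_conj_mul]
  have hb : f (frustum.B (m + 1)) =
      (fun z => S ((starRingEnd ℂ) (rho (m + 1)) * z)) (chart m (frustum.B (m + 1))) := by
    simp only
    rw [h2, hG.b, chart_B, chart_B', mul_left_comm, rho_conj_mul]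
  have hX : g (frustum.A (m + 1 + 1)) = (fun z => S ((starRingEnd ℂ) (rho (m + 1)) * z))
      (rho (m + 1) * ⟨Rr, xv (m + 1 + 1)⟩) := by
    simp only
    rw [hG.a', chart_A', ← mul_assoc, mul_comm _ (rho (m + 1)),
      unit_mul_conj (rho_unit (m + 1)), one_mul]
  refine framed_of_three' hS' hf ?_ ha hb
  refine framed_two hS' ha hb hX ?_ (develops_norm hf hc (A_mem _) (A'_mem _))
    (develops_norm hf hc (A_mem _) (B'_mem _)) ?_
  · rw [chart_A, chart_A', chart_B']
    have e1 : ∀ Z : ℂ, side ⟨Rr, xv (m + 1)⟩ (2 * ⟨Rr, xv (m + 1)⟩) Z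
        = Rr * Z.im - xv (m + 1) * Z.re := by
      intro Z
      unfold side
      simp only [Complex.mul_re, Complex.mul_im, Complex.re_ofNat, Complex.im_ofNat]
      ring
    rw [e1, e1]
    have e2 : Rr * (rho (m + 1) * ⟨Rr, xv (m + 1 + 1)⟩).im -
        xv (m + 1) * (rho (m + 1) * ⟨Rr, xv (m + 1 + 1)⟩).re
        = Rr * (xv (m + 1) + xv (m + 1 + 1)) := by
      have e3 := rho_mul (m + 1)
      have e4 : (rho (m + 1) * ⟨Rr, -xv (m + 1)⟩ * ⟨Rr, xv (m + 1 + 1)⟩).im
          = ((⟨Rr, xv (m + 1)⟩ : ℂ) * ⟨Rr, xv (m + 1 + 1)⟩).im := by rw [e3]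
      simp only [Complex.mul_re, Complex.mul_im] at e4 ⊢
      linear_combination e4
    rw [e2]
    simp only
    have f1 : 0 < Rr * (xv (m + 1) + xv (m + 1 + 1)) := by positivity
    have f2 : 0 < Rr * xv m + xv (m + 1) * Rr := by positivity
    nlinarith
  · have h4 := h3 (frustum.A m) (A_mem m) (frustum.A (m + 1 + 1)) (A'_mem (m + 1))
    rw [mul_comm]
    exact h4

lemma topChart_A (m : ZMod 6) : topChart m (frustum.A m) = ⟨Rr, -xv m⟩ := by
  obtain ⟨h1, h2⟩ := av_eq m
  have h3 := nv_unit m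
  apply Complex.ext
  · rw [topChart, mkAff_re, A_zero, A_one, A_two, h1, h2]
    simp only
    linear_combination h3
  · rw [topChart, mkAff_im, A_zero, A_one, A_two, h1, h2]
    simp only
    linear_combination (-xv m) * h3

lemma topChart_A' (m : ZMod 6) : topChart m (frustum.A (m + 1)) = ⟨Rr, xv (m + 1)⟩ := by
  obtain ⟨h1, h2⟩ := av_succ_eq m
  have h3 := nv_unit m
  apply Complex.ext
  · rw [topChart, mkAff_re, A_zero, A_one, A_two, h1, h2]
    simp only
    linear_combination h3
  · rw [topChart, mkAff_im, A_zero, A_one, A_two, h1, h2]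
    simp only
    linear_combination (xv (m + 1)) * h3

lemma topChart_re_lt (m k : ZMod 6) (h1 : k ≠ m) (h2 : k ≠ m + 1) :
    (topChart m (frustum.A k)).re < Rr := by
  rw [topChart, mkAff_re, A_zero, A_one, A_two]
  have := av_inner m k h1 h2
  linarith

/-- The position of the top face. -/
theorem top_framed {T f : Space → ℂ} {S : ℂ → ℂ} (hS : IsFrame S) {m : ZMod 6}
    (hT : Develops T frustum.topFace) (hF : Framed f S m)
    (hh : Hinged T f frustum.topFace (frustum.lateral m) (frustum.A m) (frustum.A (m + 1)))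
    (k : ZMod 6) : T (frustum.A k) = S (topChart m (frustum.A k)) := by
  obtain ⟨h12, h3⟩ := hh
  have h1 := h12 _ (left_mem_segment ℝ _ _)
  have h2 := h12 _ (right_mem_segment ℝ _ _)
  have ha : T (frustum.A m) = S (topChart m (frustum.A m)) := by
    rw [h1, hF.a, chart_A, topChart_A]
  have ha' : T (frustum.A (m + 1)) = S (topChart m (frustum.A (m + 1))) := by
    rw [h2, hF.a', chart_A', topChart_A']
  by_cases hk : k = m
  · rw [hk]
    exact ha
  by_cases hk' : k = m + 1
  · rw [hk']
    exact ha'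
  have hc := develops_topChart m
  refine framed_two hS ha ha' hF.b ?_ (develops_norm hT hc (A_mem_top _) (A_mem_top _))
    (develops_norm hT hc (A_mem_top _) (A_mem_top _)) ?_
  · rw [topChart_A, topChart_A', chart_B]
    have hlt := topChart_re_lt m k hk hk'
    have hx := xv_pos m
    have hx1 := xv_pos (m + 1)
    have hR := Rr_pos
    have e1 : ∀ Z : ℂ, side ⟨Rr, -xv m⟩ ⟨Rr, xv (m + 1)⟩ Z
        = -((xv m + xv (m + 1)) * (Z.re - Rr)) := by
      intro Z
      unfold side
      simp only
      ring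
    rw [e1, e1]
    simp only [Complex.mul_re, Complex.re_ofNat, Complex.im_ofNat]
    have f1 : 0 < (xv m + xv (m + 1)) * (Rr - (topChart m (frustum.A k)).re) := by
      apply mul_pos <;> linarith
    have f2 : 0 < (xv m + xv (m + 1)) * Rr := by positivity
    nlinarith
  · have h4 := h3 (frustum.A k) (A_mem_top k) (frustum.B m) (B_mem m)
    rw [mul_comm]
    exact h4

lemma zmod6_ne1 : ∀ m : ZMod 6, m + 1 + 1 ≠ m := by decide

lemma zmod6_ne2 : ∀ m : ZMod 6, m + 1 + 1 ≠ m + 1 := by decide

/-- The position of all points of the top face. -/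
theorem top_framed_all {T f : Space → ℂ} {S : ℂ → ℂ} (hS : IsFrame S) {m : ZMod 6}
    (hT : Develops T frustum.topFace) (hF : Framed f S m)
    (hh : Hinged T f frustum.topFace (frustum.lateral m) (frustum.A m) (frustum.A (m + 1))) :
    ∀ x ∈ frustum.topFace, T x = S (topChart m x) := by
  intro x hx
  have hk := top_framed hS hT hF hh
  have hc := develops_topChart m
  refine framed_three hS (hk m) (hk (m + 1)) (hk (m + 1 + 1)) ?_
    (develops_norm hT hc hx (A_mem_top _)) (develops_norm hT hc hx (A_mem_top _))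
    (develops_norm hT hc hx (A_mem_top _))
  rw [topChart_A, topChart_A']
  have hlt := topChart_re_lt m (m + 1 + 1) (zmod6_ne1 m) (zmod6_ne2 m)
  have hx := xv_pos m
  have hx1 := xv_pos (m + 1)
  have e1 : ∀ Z : ℂ, side ⟨Rr, -xv m⟩ ⟨Rr, xv (m + 1)⟩ Z
      = -((xv m + xv (m + 1)) * (Z.re - Rr)) := by
    intro Z
    unfold side
    simp only
    ring
  rw [e1]
  have f1 : 0 < (xv m + xv (m + 1)) *
      (Rr - (topChart m (frustum.A (m + 1 + 1))).re) := by
    apply mul_pos <;> linarith
  intro h0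
  nlinarith

end Pool.Agent.Work.MP_1500ab_co
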