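import Mathlib
import Pool.Agent.Work.MP_1500ab_co.Chain

namespace Pool.Agent.Work.MP_1500ab_co

/-- The standard positions of the top face (attached to the lateral face `j`) and of the lateral
face `f` (rotated by `r`) overlap: there is a point in the interior of a triangle spanned by
vertices of either face. -/
def Ov (j f : ZMod 6) (r : ℂ) : Prop :=
  ∃ z : ℂ,
    (0 < side (topChart j (frustum.A 0)) (topChart j (frustum.A 2)) z ∧
      0 < side (topChart j (frustum.A 2)) (topChart j (frustum.A 4)) z ∧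
      0 < side (topChart j (frustum.A 4)) (topChart j (frustum.A 0)) z) ∧
    (0 < side (r * ⟨Rr, -xv f⟩) (r * (2 * ⟨Rr, xv (f + 1)⟩)) z ∧
      0 < side (r * (2 * ⟨Rr, xv (f + 1)⟩)) (r * ⟨Rr, xv (f + 1)⟩) z ∧
      0 < side (r * ⟨Rr, xv (f + 1)⟩) (r * ⟨Rr, -xv f⟩) z)

theorem overlap_of_Ov {T g : Space → ℂ} {S : ℂ → ℂ} (hS : IsFrame S) {j f : ZMod 6} {r : ℂ}
    (hr : r.re ^ 2 + r.im ^ 2 = 1)
    (hT : ∀ x ∈ frustum.topFace, T x = S (topChart j x))
    (hg : ∀ x ∈ frustum.lateral f, g x = S (r * chart f x)) (h : Ov j f r) :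
    (interior (T '' frustum.topFace) ∩ interior (g '' frustum.lateral f)).Nonempty := by
  obtain ⟨z, ⟨h1, h2, h3⟩, ⟨h4, h5, h6⟩⟩ := h
  obtain ⟨Sa, hSa⟩ := hS.affine
  refine ⟨S z, ?_, ?_⟩
  · have hmem := framed_interior hS h1 h2 h3
    refine interior_mono ?_ hmem
    have e : T '' frustum.topFace = (Sa.comp (topChart j)) '' frustum.topFace := by
      apply Set.image_congr
      intro x hx
      rw [hT x hx, AffineMap.comp_apply, hSa]
    rw [e]
    unfold Prismoid.topFace
    rw [AffineMap.image_convexHull]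
    apply convexHull_mono
    intro w hw
    simp only [Set.mem_insert_iff, Set.mem_singleton_iff] at hw
    rcases hw with rfl | rfl | rfl
    · exact ⟨_, ⟨0, rfl⟩, by rw [AffineMap.comp_apply, hSa]⟩
    · exact ⟨_, ⟨2, rfl⟩, by rw [AffineMap.comp_apply, hSa]⟩
    · exact ⟨_, ⟨4, rfl⟩, by rw [AffineMap.comp_apply, hSa]⟩
  · have hmem := framed_interior hS h4 h5 h6
    refine interior_mono ?_ hmem
    obtain ⟨Ra, hRa⟩ := (hS.mul hr).affine
    have e : g '' frustum.lateral f = (Ra.comp (chart f)) '' frustum.lateral f := by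
      apply Set.image_congr
      intro x hx
      rw [hg x hx, AffineMap.comp_apply, hRa]
    rw [e]
    unfold Prismoid.lateral
    rw [AffineMap.image_convexHull]
    apply convexHull_mono
    intro w hw
    simp only [Set.mem_insert_iff, Set.mem_singleton_iff] at hw
    rcases hw with rfl | rfl | rfl
    · exact ⟨frustum.A f, by simp, by rw [AffineMap.comp_apply, hRa, chart_A]⟩
    · exact ⟨frustum.B (f + 1), by simp, by rw [AffineMap.comp_apply, hRa, chart_B']⟩
    · exact ⟨frustum.A (f + 1), by simp, by rw [AffineMap.comp_apply, hRa, chart_A']⟩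

lemma topChart_eq (j k : ZMod 6) : topChart j (frustum.A k) =
    ⟨1/12 + ((nv j).re * (av k).re + (nv j).im * (av k).im),
      -(nv j).im * (av k).re + (nv j).re * (av k).im⟩ := by
  apply Complex.ext
  · rw [topChart, mkAff_re, A_zero, A_one, A_two]
    unfold Rr
    simp only
    ring
  · rw [topChart, mkAff_im, A_zero, A_one, A_two]
    simp only
    ring

lemma rho0 : rho 0 = ⟨-87/425, 416/425⟩ := by
  unfold rho Rr
  rw [xv0]
  norm_num

lemma rho1 : rho 1 = ⟨88825/89977, 14352/89977⟩ := by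
  unfold rho Rr
  rw [xv1]
  norm_num

lemma rho2 : rho 2 = ⟨-155/493, 468/493⟩ := by
  unfold rho Rr
  rw [xv2]
  norm_num

lemma rho3 : rho 3 = ⟨667/685, 156/685⟩ := by
  unfold rho Rr
  rw [xv3]
  norm_num

lemma rho4 : rho 4 = ⟨-28/197, 195/197⟩ := by
  unfold rho Rr
  rw [xv4]
  norm_num

lemma rho5 : rho 5 = ⟨667/685, 156/685⟩ := by
  unfold rho Rr
  rw [xv5]
  norm_num

theorem ov_0_p2 : Ov 0 2 (rho 1 * rho 2) := by
  refine ⟨⟨21/26, 51/31⟩, ?_, ?_⟩
  · rw [topChart_eq, topChart_eq, topChart_eq, nv0, av0, av2, av4]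
    unfold side
    norm_num
  · rw [a21, xv2, xv3, rho1, rho2]
    unfold side Rr
    simp only [Complex.mul_re, Complex.mul_im, Complex.re_ofNat, Complex.im_ofNat,
      Complex.conj_re, Complex.conj_im]
    norm_num

theorem ov_0_m3 : Ov 0 3 ((starRingEnd ℂ) (rho 0) * ((starRingEnd ℂ) (rho 5) * (starRingEnd ℂ) (rho 4))) := by
  refine ⟨⟨-19/13, -2/9⟩, ?_, ?_⟩
  · rw [topChart_eq, topChart_eq, topChart_eq, nv0, av0, av2, av4]
    unfold side
    norm_num
  · rw [a31, xv3, xv4, rho0, rho5, rho4]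
    unfold side Rr
    simp only [Complex.mul_re, Complex.mul_im, Complex.re_ofNat, Complex.im_ofNat,
      Complex.conj_re, Complex.conj_im]
    norm_num

theorem ov_1_m2 : Ov 1 5 ((starRingEnd ℂ) (rho 1) * (starRingEnd ℂ) (rho 0)) := by
  refine ⟨⟨36/43, -43/29⟩, ?_, ?_⟩
  · rw [topChart_eq, topChart_eq, topChart_eq, nv1, av0, av2, av4]
    unfold side
    norm_num
  · rw [a51, xv5, xv0, rho1, rho0]
    unfold side Rr
    simp only [Complex.mul_re, Complex.mul_im, Complex.re_ofNat, Complex.im_ofNat,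
      Complex.conj_re, Complex.conj_im]
    norm_num

theorem ov_1_p3 : Ov 1 4 (rho 2 * (rho 3 * rho 4)) := by
  refine ⟨⟨-25/17, 1/18⟩, ?_, ?_⟩
  · rw [topChart_eq, topChart_eq, topChart_eq, nv1, av0, av2, av4]
    unfold side
    norm_num
  · rw [a41, xv4, xv5, rho2, rho3, rho4]
    unfold side Rr
    simp only [Complex.mul_re, Complex.mul_im, Complex.re_ofNat, Complex.im_ofNat,
      Complex.conj_re, Complex.conj_im]
    norm_num

theorem ov_2_p2 : Ov 2 4 (rho 3 * rho 4) := by
  refine ⟨⟨29/39, 99/68⟩, ?_, ?_⟩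
  · rw [topChart_eq, topChart_eq, topChart_eq, nv2, av0, av2, av4]
    unfold side
    norm_num
  · rw [a41, xv4, xv5, rho3, rho4]
    unfold side Rr
    simp only [Complex.mul_re, Complex.mul_im, Complex.re_ofNat, Complex.im_ofNat,
      Complex.conj_re, Complex.conj_im]
    norm_num

theorem ov_2_m3 : Ov 2 5 ((starRingEnd ℂ) (rho 2) * ((starRingEnd ℂ) (rho 1) * (starRingEnd ℂ) (rho 0))) := by
  refine ⟨⟨-20/13, -1/8⟩, ?_, ?_⟩
  · rw [topChart_eq, topChart_eq, topChart_eq, nv2, av0, av2, av4]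
    unfold side
    norm_num
  · rw [a51, xv5, xv0, rho2, rho1, rho0]
    unfold side Rr
    simp only [Complex.mul_re, Complex.mul_im, Complex.re_ofNat, Complex.im_ofNat,
      Complex.conj_re, Complex.conj_im]
    norm_num

theorem ov_3_m2 : Ov 3 1 ((starRingEnd ℂ) (rho 3) * (starRingEnd ℂ) (rho 2)) := by
  refine ⟨⟨15/22, -22/13⟩, ?_, ?_⟩
  · rw [topChart_eq, topChart_eq, topChart_eq, nv3, av0, av2, av4]
    unfold side
    norm_num
  · rw [a11, xv1, xv2, rho3, rho2]
    unfold side Rr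
    simp only [Complex.mul_re, Complex.mul_im, Complex.re_ofNat, Complex.im_ofNat,
      Complex.conj_re, Complex.conj_im]
    norm_num

theorem ov_3_p3 : Ov 3 0 (rho 4 * (rho 5 * rho 0)) := by
  refine ⟨⟨-3/2, 2/7⟩, ?_, ?_⟩
  · rw [topChart_eq, topChart_eq, topChart_eq, nv3, av0, av2, av4]
    unfold side
    norm_num
  · rw [a01, xv0, xv1, rho4, rho5, rho0]
    unfold side Rr
    simp only [Complex.mul_re, Complex.mul_im, Complex.re_ofNat, Complex.im_ofNat,
      Complex.conj_re, Complex.conj_im]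
    norm_num

theorem ov_4_p2 : Ov 4 0 (rho 5 * rho 0) := by
  refine ⟨⟨13/18, 66/43⟩, ?_, ?_⟩
  · rw [topChart_eq, topChart_eq, topChart_eq, nv4, av0, av2, av4]
    unfold side
    norm_num
  · rw [a01, xv0, xv1, rho5, rho0]
    unfold side Rr
    simp only [Complex.mul_re, Complex.mul_im, Complex.re_ofNat, Complex.im_ofNat,
      Complex.conj_re, Complex.conj_im]
    norm_num

theorem ov_4_m3 : Ov 4 1 ((starRingEnd ℂ) (rho 4) * ((starRingEnd ℂ) (rho 3) * (starRingEnd ℂ) (rho 2))) := by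
  refine ⟨⟨-13/8, -1/5⟩, ?_, ?_⟩
  · rw [topChart_eq, topChart_eq, topChart_eq, nv4, av0, av2, av4]
    unfold side
    norm_num
  · rw [a11, xv1, xv2, rho4, rho3, rho2]
    unfold side Rr
    simp only [Complex.mul_re, Complex.mul_im, Complex.re_ofNat, Complex.im_ofNat,
      Complex.conj_re, Complex.conj_im]
    norm_num

theorem ov_5_m2 : Ov 5 3 ((starRingEnd ℂ) (rho 5) * (starRingEnd ℂ) (rho 4)) := by
  refine ⟨⟨29/39, -99/68⟩, ?_, ?_⟩
  · rw [topChart_eq, topChart_eq, topChart_eq, nv5, av0, av2, av4]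
    unfold side
    norm_num
  · rw [a31, xv3, xv4, rho5, rho4]
    unfold side Rr
    simp only [Complex.mul_re, Complex.mul_im, Complex.re_ofNat, Complex.im_ofNat,
      Complex.conj_re, Complex.conj_im]
    norm_num

theorem ov_5_p3 : Ov 5 2 (rho 0 * (rho 1 * rho 2)) := by
  refine ⟨⟨-13/8, 2/9⟩, ?_, ?_⟩
  · rw [topChart_eq, topChart_eq, topChart_eq, nv5, av0, av2, av4]
    unfold side
    norm_num
  · rw [a21, xv2, xv3, rho0, rho1, rho2]
    unfold side Rr
    simp only [Complex.mul_re, Complex.mul_im, Complex.re_ofNat, Complex.im_ofNat,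
      Complex.conj_re, Complex.conj_im]
    norm_num

end Pool.Agent.Work.MP_1500ab_co
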