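import Mathlib
import Pool.Agent.Work.MP_1500ab_co.Facts

namespace Pool.Agent.Work.MP_1500ab_co

variable {i j k : ZMod 6} {T S : Space → ℂ} {F : ZMod 6 → Space → ℂ}

/-- The top face overlaps the lateral face `m`. -/
def TopOverlaps (T : Space → ℂ) (F : ZMod 6 → Space → ℂ) (m : ZMod 6) : Prop :=
  (interior (T '' frustum.topFace) ∩ interior (F m '' frustum.lateral m)).Nonempty

lemma hinge (hU : IsBandUnfolding frustum i j k T S F) (m : ZMod 6) (hm : m + 1 ≠ i) :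
    Hinged (F m) (F (m + 1)) (frustum.lateral m) (frustum.lateral (m + 1)) (frustum.A (m + 1))
      (frustum.B (m + 1)) := by
  have h := hU.side_edges (m + 1) hm
  rw [add_sub_cancel_right] at h
  exact h

lemma unit_mul {r s : ℂ} (hr : r.re ^ 2 + r.im ^ 2 = 1) (hs : s.re ^ 2 + s.im ^ 2 = 1) :
    (r * s).re ^ 2 + (r * s).im ^ 2 = 1 := by
  simp only [Complex.mul_re, Complex.mul_im]
  linear_combination (s.re ^ 2 + s.im ^ 2) * hr + hs

theorem fwd2 (hU : IsBandUnfolding frustum i j k T S F) (h1 : j + 1 ≠ i) (h2 : j + 1 + 1 ≠ i)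
    (hov : Ov j (j + 1 + 1) (rho (j + 1) * rho (j + 1 + 1))) : TopOverlaps T F (j + 1 + 1) := by
  obtain ⟨S0, hS0, hF0⟩ := exists_frame (hU.lateral j)
  have hT := top_framed_all hS0 hU.top hF0 hU.top_edge
  have hF1 := forward hS0 (hU.lateral (j + 1)) hF0 (hinge hU j h1)
  have hF2 := forward (hS0.mul (rho_unit (j + 1))) (hU.lateral (j + 1 + 1)) hF1
    (hinge hU (j + 1) h2)
  have hF := hF2.all ((hS0.mul (rho_unit (j + 1))).mul (rho_unit (j + 1 + 1)))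
    (hU.lateral (j + 1 + 1))
  refine overlap_of_Ov hS0 (unit_mul (rho_unit _) (rho_unit _)) hT ?_ hov
  intro x hx
  rw [hF x hx, mul_assoc]

theorem fwd3 (hU : IsBandUnfolding frustum i j k T S F) (h1 : j + 1 ≠ i) (h2 : j + 1 + 1 ≠ i)
    (h3 : j + 1 + 1 + 1 ≠ i)
    (hov : Ov j (j + 1 + 1 + 1) (rho (j + 1) * (rho (j + 1 + 1) * rho (j + 1 + 1 + 1)))) :
    TopOverlaps T F (j + 1 + 1 + 1) := by
  obtain ⟨S0, hS0, hF0⟩ := exists_frame (hU.lateral j)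
  have hT := top_framed_all hS0 hU.top hF0 hU.top_edge
  have hF1 := forward hS0 (hU.lateral (j + 1)) hF0 (hinge hU j h1)
  have hF2 := forward (hS0.mul (rho_unit (j + 1))) (hU.lateral (j + 1 + 1)) hF1
    (hinge hU (j + 1) h2)
  have hF3 := forward ((hS0.mul (rho_unit (j + 1))).mul (rho_unit (j + 1 + 1)))
    (hU.lateral (j + 1 + 1 + 1)) hF2 (hinge hU (j + 1 + 1) h3)
  have hF := hF3.all (((hS0.mul (rho_unit (j + 1))).mul (rho_unit (j + 1 + 1))).mul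
    (rho_unit (j + 1 + 1 + 1))) (hU.lateral (j + 1 + 1 + 1))
  refine overlap_of_Ov hS0 (unit_mul (rho_unit _) (unit_mul (rho_unit _) (rho_unit _))) hT ?_ hov
  intro x hx
  rw [hF x hx, mul_assoc, mul_assoc]

theorem bwd2 {f : ZMod 6} (hj : j = f + 1 + 1) (hU : IsBandUnfolding frustum i j k T S F)
    (h1 : f + 1 ≠ i) (h2 : f + 1 + 1 ≠ i)
    (hov : Ov j f ((starRingEnd ℂ) (rho (f + 1 + 1)) * (starRingEnd ℂ) (rho (f + 1)))) :
    TopOverlaps T F f := by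
  subst hj
  obtain ⟨S0, hS0, hF0⟩ := exists_frame (hU.lateral (f + 1 + 1))
  have hT := top_framed_all hS0 hU.top hF0 hU.top_edge
  have hF1 := backward hS0 (hU.lateral (f + 1)) hF0 (hinge hU (f + 1) h2)
  have hF2 := backward (hS0.mul (rho_conj_unit (f + 1 + 1))) (hU.lateral f) hF1
    (hinge hU f h1)
  have hF := hF2.all ((hS0.mul (rho_conj_unit (f + 1 + 1))).mul (rho_conj_unit (f + 1)))
    (hU.lateral f)
  refine overlap_of_Ov hS0 (unit_mul (rho_conj_unit _) (rho_conj_unit _)) hT ?_ hov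
  intro x hx
  rw [hF x hx, mul_assoc]

theorem bwd3 {f : ZMod 6} (hj : j = f + 1 + 1 + 1) (hU : IsBandUnfolding frustum i j k T S F)
    (h1 : f + 1 ≠ i) (h2 : f + 1 + 1 ≠ i) (h3 : f + 1 + 1 + 1 ≠ i)
    (hov : Ov j f ((starRingEnd ℂ) (rho (f + 1 + 1 + 1)) * ((starRingEnd ℂ) (rho (f + 1 + 1)) *
      (starRingEnd ℂ) (rho (f + 1))))) :
    TopOverlaps T F f := by
  subst hj
  obtain ⟨S0, hS0, hF0⟩ := exists_frame (hU.lateral (f + 1 + 1 + 1))
  have hT := top_framed_all hS0 hU.top hF0 hU.top_edge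
  have hF1 := backward hS0 (hU.lateral (f + 1 + 1)) hF0 (hinge hU (f + 1 + 1) h3)
  have hF2 := backward (hS0.mul (rho_conj_unit (f + 1 + 1 + 1))) (hU.lateral (f + 1)) hF1
    (hinge hU (f + 1) h2)
  have hF3 := backward ((hS0.mul (rho_conj_unit (f + 1 + 1 + 1))).mul (rho_conj_unit (f + 1 + 1)))
    (hU.lateral f) hF2 (hinge hU f h1)
  have hF := hF3.all (((hS0.mul (rho_conj_unit (f + 1 + 1 + 1))).mul
    (rho_conj_unit (f + 1 + 1))).mul (rho_conj_unit (f + 1))) (hU.lateral f)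
  refine overlap_of_Ov hS0
    (unit_mul (rho_conj_unit _) (unit_mul (rho_conj_unit _) (rho_conj_unit _))) hT ?_ hov
  intro x hx
  rw [hF x hx, mul_assoc, mul_assoc]

theorem even_case (f m : ZMod 6) (hf : f + 1 + 1 + 1 = j) (hm : m = j + 1 + 1)
    (hU : IsBandUnfolding frustum i j k T S F)
    (ov1 : Ov j m (rho (j + 1) * rho (j + 1 + 1)))
    (ov2 : Ov j f ((starRingEnd ℂ) (rho (f + 1 + 1 + 1)) * ((starRingEnd ℂ) (rho (f + 1 + 1)) *
      (starRingEnd ℂ) (rho (f + 1)))))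
    (hd : ∀ i : ZMod 6, (j + 1 = i ∨ j + 1 + 1 = i) →
      f + 1 ≠ i ∧ f + 1 + 1 ≠ i ∧ f + 1 + 1 + 1 ≠ i) :
    ∃ m, TopOverlaps T F m := by
  by_cases h1 : j + 1 = i ∨ j + 1 + 1 = i
  · obtain ⟨g1, g2, g3⟩ := hd i h1
    exact ⟨f, bwd3 hf.symm hU g1 g2 g3 ov2⟩
  · push Not at h1
    subst hm
    exact ⟨_, fwd2 hU h1.1 h1.2 ov1⟩

theorem odd_case (f m : ZMod 6) (hf : f + 1 + 1 = j) (hm : m = j + 1 + 1 + 1)
    (hU : IsBandUnfolding frustum i j k T S F)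
    (ov1 : Ov j m (rho (j + 1) * (rho (j + 1 + 1) * rho (j + 1 + 1 + 1))))
    (ov2 : Ov j f ((starRingEnd ℂ) (rho (f + 1 + 1)) * (starRingEnd ℂ) (rho (f + 1))))
    (hd : ∀ i : ZMod 6, (f + 1 = i ∨ f + 1 + 1 = i) →
      j + 1 ≠ i ∧ j + 1 + 1 ≠ i ∧ j + 1 + 1 + 1 ≠ i) :
    ∃ m, TopOverlaps T F m := by
  by_cases h1 : f + 1 = i ∨ f + 1 + 1 = i
  · obtain ⟨g1, g2, g3⟩ := hd i h1
    subst hm
    exact ⟨_, fwd3 hU g1 g2 g3 ov1⟩
  · push Not at h1
    exact ⟨f, bwd2 hf.symm hU h1.1 h1.2 ov2⟩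

/-- In every band unfolding of the frustum, the top face overlaps a lateral face. -/
theorem always_overlaps (i j k : ZMod 6) (T S : Space → ℂ) (F : ZMod 6 → Space → ℂ)
    (hU : IsBandUnfolding frustum i j k T S F) : ∃ m, TopOverlaps T F m := by
  revert hU
  revert j
  apply zmod6_forall
  · intro hU
    exact even_case 3 2 rfl rfl hU ov_0_p2 ov_0_m3 (by decide)
  · intro hU
    exact odd_case 5 4 rfl rfl hU ov_1_p3 ov_1_m2 (by decide)
  · intro hU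
    exact even_case 5 4 rfl rfl hU ov_2_p2 ov_2_m3 (by decide)
  · intro hU
    exact odd_case 1 0 rfl rfl hU ov_3_p3 ov_3_m2 (by decide)
  · intro hU
    exact even_case 1 0 rfl rfl hU ov_4_p2 ov_4_m3 (by decide)
  · intro hU
    exact odd_case 3 2 rfl rfl hU ov_5_p3 ov_5_m2 (by decide)

end Pool.Agent.Work.MP_1500ab_co
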