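import Mathlib
import Pool.Agent.Work.MP_1500ab_co.Overlap

/-!
Existence of all band unfoldings of the frustum.
-/

namespace Pool.Agent.Work.MP_1500ab_co

open Finset

/-- `f` followed by multiplication by `r`. -/
noncomputable def rotAff (r : ℂ) (f : Space →ᵃ[ℝ] ℂ) : Space →ᵃ[ℝ] ℂ :=
  (LinearMap.mulLeft ℝ r).toAffineMap.comp f

lemma rotAff_apply (r : ℂ) (f : Space →ᵃ[ℝ] ℂ) (x : Space) : rotAff r f x = r * f x := rfl

/-- Affine maps which agree at the endpoints agree on the segment. -/
lemma agree_segment {f g : Space →ᵃ[ℝ] ℂ} {p q : Space} (hp : f p = g p) (hq : f q = g q) :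
    ∀ z ∈ segment ℝ p q, f z = g z := by
  rintro z ⟨a, b, _, _, hab, rfl⟩
  have h1 : f (a • p + b • q) = a • f p + b • f q := Convex.combo_affine_apply hab
  have h2 : g (a • p + b • q) = a • g p + b • g q := Convex.combo_affine_apply hab
  rw [h1, h2, hp, hq]

lemma develops_rot {r : ℂ} (hr : r.re ^ 2 + r.im ^ 2 = 1) {f : Space →ᵃ[ℝ] ℂ} {X : Set Space}
    (h : Develops f X) : Develops (rotAff r f) X := by
  intro x hx y hy
  rw [rotAff_apply, rotAff_apply, ← h x hx y hy, Complex.dist_eq_re_im, Complex.dist_eq_re_im]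
  congr 1
  simp only [Complex.mul_re, Complex.mul_im]
  linear_combination (((f x).re - (f y).re) ^ 2 + ((f x).im - (f y).im) ^ 2) * hr

lemma side_rot {r : ℂ} (hr : r.re ^ 2 + r.im ^ 2 = 1) (p q z : ℂ) :
    side (r * p) (r * q) (r * z) = side p q z := by
  unfold side
  simp only [Complex.mul_re, Complex.mul_im]
  linear_combination ((q.re - p.re) * (z.im - p.im) - (q.im - p.im) * (z.re - p.re)) * hr

lemma convex_half (f : Space →ᵃ[ℝ] ℂ) (c d e : ℝ) :
    Convex ℝ {x : Space | c * (f x).re + d * (f x).im ≤ e} := by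
  intro x hx y hy a b ha hb hab
  simp only [Set.mem_ofPred_eq] at hx hy ⊢
  have h1 : f (a • x + b • y) = a • f x + b • f y := Convex.combo_affine_apply hab
  rw [h1]
  simp only [Complex.add_re, Complex.add_im, Complex.smul_re, Complex.smul_im, smul_eq_mul]
  have h2 : c * (a * (f x).re + b * (f y).re) + d * (a * (f x).im + b * (f y).im)
      = a * (c * (f x).re + d * (f x).im) + b * (c * (f y).re + d * (f y).im) := by ring
  rw [h2]
  calc _ ≤ a * e + b * e := by gcongr
    _ = e := by rw [← add_mul, hab, one_mul]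

lemma lateral_half (m : ZMod 6) (c d e : ℝ) (h1 : c * Rr + d * (-xv m) ≤ e)
    (h2 : c * Rr + d * xv (m + 1) ≤ e) (h3 : 2 * (c * Rr + d * (-xv m)) ≤ e)
    (h4 : 2 * (c * Rr + d * xv (m + 1)) ≤ e) :
    ∀ x ∈ frustum.lateral m, c * (chart m x).re + d * (chart m x).im ≤ e := by
  have hsub : frustum.lateral m ⊆ {x : Space | c * (chart m x).re + d * (chart m x).im ≤ e} := by
    apply convexHull_min _ (convex_half _ _ _ _)
    intro x hx
    simp only [Set.mem_insert_iff, Set.mem_singleton_iff] at hx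
    simp only [Set.mem_ofPred_eq]
    rcases hx with rfl | rfl | rfl | rfl
    · rw [chart_A]
      exact h1
    · rw [chart_A']
      exact h2
    · rw [chart_B']
      simp only [Complex.mul_re, Complex.mul_im, Complex.re_ofNat, Complex.im_ofNat]
      linarith
    · rw [chart_B]
      simp only [Complex.mul_re, Complex.mul_im, Complex.re_ofNat, Complex.im_ofNat]
      linarith
  exact hsub

/-- Hinge at a side edge. -/
lemma hinged_side {r : ℂ} (hr : r.re ^ 2 + r.im ^ 2 = 1) (m : ZMod 6) :
    Hinged (rotAff r (chart m)) (rotAff (r * rho (m + 1)) (chart (m + 1)))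
      (frustum.lateral m) (frustum.lateral (m + 1)) (frustum.A (m + 1)) (frustum.B (m + 1)) := by
  have hx := xv_pos m
  have hx1 := xv_pos (m + 1)
  have hx2 := xv_pos (m + 1 + 1)
  have hR := Rr_pos
  refine ⟨agree_segment ?_ ?_, ?_⟩
  · rw [rotAff_apply, rotAff_apply, chart_A, chart_A', mul_assoc, rho_mul]
  · rw [rotAff_apply, rotAff_apply, chart_B, chart_B', mul_assoc, mul_left_comm (rho (m + 1)),
      rho_mul]
  · intro x hx' y hy'
    rw [rotAff_apply, rotAff_apply, rotAff_apply, rotAff_apply, chart_A', chart_B', side_rot hr,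
      mul_assoc, side_rot hr]
    have e1 : ∀ Z : ℂ, side ⟨Rr, xv (m + 1)⟩ (2 * ⟨Rr, xv (m + 1)⟩) Z
        = Rr * Z.im - xv (m + 1) * Z.re := by
      intro Z
      unfold side
      simp only [Complex.mul_re, Complex.mul_im, Complex.re_ofNat, Complex.im_ofNat]
      ring
    have s1 : side ⟨Rr, xv (m + 1)⟩ (2 * ⟨Rr, xv (m + 1)⟩) (chart m x) ≤ 0 := by
      rw [e1]
      have := lateral_half m (-xv (m + 1)) Rr 0 (by nlinarith) (by nlinarith) (by nlinarith)
        (by nlinarith) x hx'
      linarith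
    have s2 : 0 ≤ side ⟨Rr, xv (m + 1)⟩ (2 * ⟨Rr, xv (m + 1)⟩) (rho (m + 1) * chart (m + 1) y) := by
      have e2 : side ⟨Rr, xv (m + 1)⟩ (2 * ⟨Rr, xv (m + 1)⟩) (rho (m + 1) * chart (m + 1) y)
          = side ⟨Rr, -xv (m + 1)⟩ (2 * ⟨Rr, -xv (m + 1)⟩) (chart (m + 1) y) := by
        rw [← rho_mul, mul_left_comm, side_rot (rho_unit (m + 1))]
      rw [e2]
      have e3 : ∀ Z : ℂ, side ⟨Rr, -xv (m + 1)⟩ (2 * ⟨Rr, -xv (m + 1)⟩) Z
          = Rr * Z.im + xv (m + 1) * Z.re := by
        intro Z
        unfold side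
        simp only [Complex.mul_re, Complex.mul_im, Complex.re_ofNat, Complex.im_ofNat]
        ring
      rw [e3]
      have := lateral_half (m + 1) (-xv (m + 1)) (-Rr) 0 (by nlinarith) (by nlinarith)
        (by nlinarith) (by nlinarith) y hy'
      linarith
    nlinarith

lemma topChart_re_le (m k : ZMod 6) : (topChart m (frustum.A k)).re ≤ Rr := by
  by_cases h1 : k = m
  · rw [h1, topChart_A]
  by_cases h2 : k = m + 1
  · rw [h2, topChart_A']
  exact (topChart_re_lt m k h1 h2).le

lemma top_half (m : ZMod 6) : ∀ x ∈ frustum.topFace, (topChart m x).re ≤ Rr := by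
  have hsub : frustum.topFace ⊆
      {x : Space | 1 * (topChart m x).re + 0 * (topChart m x).im ≤ Rr} := by
    apply convexHull_min _ (convex_half _ _ _ _)
    rintro x ⟨k, rfl⟩
    simp only [Set.mem_ofPred_eq]
    have := topChart_re_le m k
    linarith
  intro x hx
  have := hsub hx
  simp only [Set.mem_ofPred_eq] at this
  linarith

lemma hinged_top {r : ℂ} (hr : r.re ^ 2 + r.im ^ 2 = 1) (m : ZMod 6) :
    Hinged (rotAff r (topChart m)) (rotAff r (chart m)) frustum.topFace (frustum.lateral m)
      (frustum.A m) (frustum.A (m + 1)) := by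
  have hx := xv_pos m
  have hx1 := xv_pos (m + 1)
  have hR := Rr_pos
  refine ⟨agree_segment ?_ ?_, ?_⟩
  · rw [rotAff_apply, rotAff_apply, chart_A, topChart_A]
  · rw [rotAff_apply, rotAff_apply, chart_A', topChart_A']
  · intro x hx' y hy'
    rw [rotAff_apply, rotAff_apply, rotAff_apply, rotAff_apply, topChart_A, topChart_A',
      side_rot hr, side_rot hr]
    have e1 : ∀ Z : ℂ, side ⟨Rr, -xv m⟩ ⟨Rr, xv (m + 1)⟩ Z
        = -((xv m + xv (m + 1)) * (Z.re - Rr)) := by
      intro Z
      unfold side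
      simp only
      ring
    rw [e1, e1]
    have h1 := top_half m x hx'
    have h2 := lateral_half m (-1) 0 (-Rr) (by nlinarith) (by nlinarith) (by nlinarith)
      (by nlinarith) y hy'
    have h3 : 0 ≤ (xv m + xv (m + 1)) * (Rr - (topChart m x).re) := by
      apply mul_nonneg <;> linarith
    have h4 : 0 ≤ (xv m + xv (m + 1)) * ((chart m y).re - Rr) := by
      apply mul_nonneg <;> linarith
    nlinarith

lemma baseChart_B (m : ZMod 6) : baseChart m (frustum.B m) = 2 * ⟨Rr, -xv m⟩ := by
  obtain ⟨h1, h2⟩ := av_eq m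
  have h3 := nv_unit m
  apply Complex.ext
  · rw [baseChart, mkAff_re, B_zero, B_one, B_two, h1, h2]
    simp only [Complex.mul_re, Complex.re_ofNat, Complex.im_ofNat]
    linear_combination (-2 : ℝ) * h3
  · rw [baseChart, mkAff_im, B_zero, B_one, B_two, h1, h2]
    simp only [Complex.mul_im, Complex.re_ofNat, Complex.im_ofNat]
    linear_combination (-2 * xv m) * h3

lemma baseChart_B' (m : ZMod 6) : baseChart m (frustum.B (m + 1)) = 2 * ⟨Rr, xv (m + 1)⟩ := by
  obtain ⟨h1, h2⟩ := av_succ_eq m
  have h3 := nv_unit m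
  apply Complex.ext
  · rw [baseChart, mkAff_re, B_zero, B_one, B_two, h1, h2]
    simp only [Complex.mul_re, Complex.re_ofNat, Complex.im_ofNat]
    linear_combination (-2 : ℝ) * h3
  · rw [baseChart, mkAff_im, B_zero, B_one, B_two, h1, h2]
    simp only [Complex.mul_im, Complex.re_ofNat, Complex.im_ofNat]
    linear_combination (2 * xv (m + 1)) * h3

lemma baseChart_re_ge (m k : ZMod 6) : 2 * Rr ≤ (baseChart m (frustum.B k)).re := by
  by_cases h1 : k = m
  · rw [h1, baseChart_B]
    simp
  by_cases h2 : k = m + 1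
  · rw [h2, baseChart_B']
    simp
  have := av_inner m k h1 h2
  rw [baseChart, mkAff_re, B_zero, B_one, B_two]
  linarith

lemma base_half (m : ZMod 6) : ∀ x ∈ frustum.baseFace, 2 * Rr ≤ (baseChart m x).re := by
  have hsub : frustum.baseFace ⊆
      {x : Space | (-1) * (baseChart m x).re + 0 * (baseChart m x).im ≤ -(2 * Rr)} := by
    apply convexHull_min _ (convex_half _ _ _ _)
    rintro x ⟨k, rfl⟩
    simp only [Set.mem_ofPred_eq]
    have := baseChart_re_ge m k
    linarith
  intro x hx
  have := hsub hx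
  simp only [Set.mem_ofPred_eq] at this
  linarith

lemma hinged_base {r : ℂ} (hr : r.re ^ 2 + r.im ^ 2 = 1) (m : ZMod 6) :
    Hinged (rotAff r (baseChart m)) (rotAff r (chart m)) frustum.baseFace (frustum.lateral m)
      (frustum.B m) (frustum.B (m + 1)) := by
  have hx := xv_pos m
  have hx1 := xv_pos (m + 1)
  have hR := Rr_pos
  refine ⟨agree_segment ?_ ?_, ?_⟩
  · rw [rotAff_apply, rotAff_apply, chart_B, baseChart_B]
  · rw [rotAff_apply, rotAff_apply, chart_B', baseChart_B']
  · intro x hx' y hy'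
    rw [rotAff_apply, rotAff_apply, rotAff_apply, rotAff_apply, baseChart_B, baseChart_B',
      side_rot hr, side_rot hr]
    have e1 : ∀ Z : ℂ, side (2 * ⟨Rr, -xv m⟩) (2 * ⟨Rr, xv (m + 1)⟩) Z
        = -(2 * (xv m + xv (m + 1)) * (Z.re - 2 * Rr)) := by
      intro Z
      unfold side
      simp only [Complex.mul_re, Complex.mul_im, Complex.re_ofNat, Complex.im_ofNat]
      ring
    rw [e1, e1]
    have h1 := base_half m x hx'
    have h2 := lateral_half m 1 0 (2 * Rr) (by nlinarith) (by nlinarith) (by nlinarith)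
      (by nlinarith) y hy'
    have h3 : 0 ≤ 2 * (xv m + xv (m + 1)) * ((baseChart m x).re - 2 * Rr) := by
      apply mul_nonneg <;> linarith
    have h4 : 0 ≤ 2 * (xv m + xv (m + 1)) * (2 * Rr - (chart m y).re) := by
      apply mul_nonneg <;> linarith
    nlinarith

/-- The total rotation of the lateral face `m` when the strip starts with the face `i`. -/
noncomputable def tot (i m : ZMod 6) : ℂ := ∏ e ∈ Finset.range (m - i).val, rho (i + e + 1)

lemma tot_unit (i m : ZMod 6) : (tot i m).re ^ 2 + (tot i m).im ^ 2 = 1 := by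
  unfold tot
  generalize (m - i).val = s
  induction s with
  | zero => simp
  | succ s ih =>
    rw [Finset.prod_range_succ]
    exact unit_mul ih (rho_unit _)

lemma tot_succ (i m : ZMod 6) (h : m + 1 ≠ i) : tot i (m + 1) = tot i m * rho (m + 1) := by
  have h1 : (m + 1 - i).val = (m - i).val + 1 := by
    revert m i
    decide
  unfold tot
  rw [h1, Finset.prod_range_succ]
  congr 2
  rw [ZMod.natCast_zmod_val]
  ring

/-- All band unfoldings of the frustum exist. -/
theorem exists_unfolding (i j k : ZMod 6) :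
    ∃ (T S : Space → ℂ) (F : ZMod 6 → Space → ℂ), IsBandUnfolding frustum i j k T S F := by
  refine ⟨rotAff (tot i j) (topChart j), rotAff (tot i k) (baseChart k),
    fun m => rotAff (tot i m) (chart m), ?_⟩
  refine ⟨develops_rot (tot_unit i j) (develops_topChart j),
    develops_rot (tot_unit i k) (develops_baseChart k),
    fun m => develops_rot (tot_unit i m) (develops_chart m), ?_,
    hinged_top (tot_unit i j) j, hinged_base (tot_unit i k) k⟩
  intro m hm
  obtain ⟨m', rfl⟩ : ∃ m', m = m' + 1 := ⟨m - 1, by ring⟩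
  rw [add_sub_cancel_right, tot_succ i m' hm]
  exact hinged_side (tot_unit i m') m'

end Pool.Agent.Work.MP_1500ab_co
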